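import Pool.Agent.Lib.MP_3bfe94_nt.Step

/-!
The method of Stepanov for the trace of a rational function with a simple pole.
-/

set_option autoImplicit false
set_option maxHeartbeats 400000

open Polynomial Finset

namespace Pool.Agent.Lib.MP_d315f4_nt

open Pool.Agent.Lib.MP_3bfe94_nt

variable {K : Type} [Field K]

lemma nonvan_exp {U : Type} [Fintype U] (x0 : K) (κ : U → K) (e : U → ℕ)
    (he : Function.Injective e) (W : U → K[X]) (hW : ∀ u, (W u).eval x0 ≠ 0)
    (h : ∑ u, C (κ u) * ((X - C x0) ^ e u * W u) = 0) : κ = 0 := by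
  classical
  by_contra hκ
  obtain ⟨u1, hu1⟩ : ∃ u, κ u ≠ 0 := by
    by_contra hc
    push Not at hc
    exact hκ (funext hc)
  obtain ⟨u0, hu0, hmin⟩ := (univ.filter fun u => κ u ≠ 0).exists_min_image e
    ⟨u1, by simpa using hu1⟩
  have h0 : κ u0 ≠ 0 := (mem_filter.1 hu0).2
  have h1 : (X - C x0) ^ e u0 * ∑ u, C (κ u) * ((X - C x0) ^ (e u - e u0) * W u) = 0 := by
    rw [← h, mul_sum]
    refine sum_congr rfl fun u _ => ?_
    by_cases hu : κ u = 0
    · simp [hu]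
    · have := hmin u (by simpa using hu)
      rw [show (X - C x0) ^ e u = (X - C x0) ^ e u0 * (X - C x0) ^ (e u - e u0) by
        rw [← pow_add]; congr 1; omega]
      ring
  have h2 := (mul_eq_zero.1 h1).resolve_left (pow_ne_zero _ (X_sub_C_ne_zero x0))
  have h3 := congrArg (eval x0) h2
  rw [eval_finsetSum, sum_eq_single u0] at h3
  · simp only [Nat.sub_self, pow_zero, one_mul, eval_mul, eval_C, eval_zero] at h3
    exact mul_ne_zero h0 (hW u0) h3
  · intro u _ hu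
    by_cases hk : κ u = 0
    · simp [hk]
    · have := hmin u (by simpa using hk)
      have h4 : e u ≠ e u0 := fun hh => hu (he hh)
      simp [show e u - e u0 ≠ 0 by omega]
  · simp

/-- numerator of a truncated trace. -/
noncomputable def tp (A B : K[X]) (p m : ℕ) : K[X] :=
  ∑ i ∈ range (m + 1), A ^ p ^ i * B ^ (p ^ m - p ^ i)

lemma tp_eval (A B : K[X]) {p : ℕ} (hp : 0 < p) (m : ℕ) (a : K) (ha : B.eval a ≠ 0) :
    (tp A B p m).eval a =
      B.eval a ^ p ^ m * ∑ i ∈ range (m + 1), (A.eval a / B.eval a) ^ p ^ i := by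
  rw [tp, eval_finsetSum, mul_sum]
  refine sum_congr rfl fun i hi => ?_
  have h1 : p ^ i ≤ p ^ m := Nat.pow_le_pow_right hp (by have := mem_range.1 hi; omega)
  rw [eval_mul, eval_pow, eval_pow, div_pow,
    show B.eval a ^ p ^ m = B.eval a ^ (p ^ m - p ^ i) * B.eval a ^ p ^ i by
      rw [← pow_add]; congr 1; omega]
  field_simp

lemma tp_deg (A B : K[X]) {p d : ℕ} (hp : 0 < p) (m : ℕ) (hA : A.natDegree ≤ d)
    (hB : B.natDegree ≤ d) : (tp A B p m).natDegree ≤ d * p ^ m := by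
  refine natDegree_sum_le_of_forall_le _ _ fun i hi => natDegree_mul_le.trans ?_
  have h1 : p ^ i ≤ p ^ m := Nat.pow_le_pow_right hp (by have := mem_range.1 hi; omega)
  have h2 : (A ^ p ^ i).natDegree ≤ p ^ i * d := natDegree_pow_le.trans (Nat.mul_le_mul_left _ hA)
  have h3 : (B ^ (p ^ m - p ^ i)).natDegree ≤ (p ^ m - p ^ i) * d :=
    natDegree_pow_le.trans (Nat.mul_le_mul_left _ hB)
  have h4 : p ^ i * d + (p ^ m - p ^ i) * d = d * p ^ m := by
    rw [← add_mul, mul_comm]; congr 1; omega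
  omega

lemma tp_pole (A B : K[X]) {p : ℕ} (hp : 1 < p) (m : ℕ) (a : K) (ha : B.eval a = 0) :
    (tp A B p m).eval a = A.eval a ^ p ^ m := by
  rw [tp, eval_finsetSum, sum_range_succ, sum_eq_zero]
  · simp
  · intro i hi
    have h1 : p ^ i < p ^ m := Nat.pow_lt_pow_right hp (mem_range.1 hi)
    simp [ha, show p ^ m - p ^ i ≠ 0 by omega]

lemma frob_dvd' (p : ℕ) [Fact p.Prime] [CharP K p] (r : ℕ) (F : K[X]) (a : K) :
    (X - C a) ^ p ^ r ∣ F ^ p ^ r - C (F.eval a ^ p ^ r) := by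
  have h1 := pow_dvd_pow_of_dvd (X_sub_C_dvd_sub_C_eval (a := a) (p := F)) (p ^ r)
  rwa [sub_pow_char_pow F, ← C_pow] at h1

theorem stepanov_trace [Fintype K] (p : ℕ) [hp : Fact p.Prime] [CharP K p] (r r' d : ℕ)
    (hrr : r ≤ r') (hq : Fintype.card K = p ^ (r + 1 + (r' + 1))) (hd : d + 2 ≤ p ^ (r + 1))
    (A B1 : K[X]) (x0 γ : K) (hA : A.natDegree ≤ d) (hB : ((X - C x0) * B1).natDegree ≤ d)
    (hA0 : A.eval x0 ≠ 0) (hB0 : B1.eval x0 ≠ 0) (Z : Finset K)
    (hZ : ∀ a ∈ Z, ((X - C x0) * B1).eval a ≠ 0 ∧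
      ∑ i ∈ range (r + 1 + (r' + 1)), (A.eval a / ((X - C x0) * B1).eval a) ^ p ^ i = γ) :
    Z.card ≤ p ^ (r + 1 + r') + (2 * d + 3) * p ^ (r' + 1) := by
  classical
  have hp1 : 1 < p := hp.out.one_lt
  have hp0 : 0 < p := by omega
  set T : K[X] := X - C x0 with hT
  set B : K[X] := T * B1 with hBd
  have hTd : T.natDegree = 1 := natDegree_X_sub_C x0
  have hTm : T.Monic := monic_X_sub_C x0
  obtain ⟨M, hM⟩ : ∃ M, M = p ^ (r + 1) := ⟨_, rfl⟩
  obtain ⟨M', hM'⟩ : ∃ M', M' = p ^ (r' + 1) := ⟨_, rfl⟩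
  obtain ⟨D, hD⟩ : ∃ D, D = p ^ (r + 1 + r') := ⟨_, rfl⟩
  obtain ⟨J, hJ⟩ : ∃ J, J = p ^ r + d + 2 := ⟨_, rfl⟩
  have hMM : M ≤ M' := by rw [hM, hM']; exact Nat.pow_le_pow_right hp0 (by omega)
  have hM0 : 0 < M := by rw [hM]; positivity
  have hD0 : 0 < D := by rw [hD]; positivity
  have hDq : p * D = M * M' := by rw [hD, hM, hM']; ring
  have hDM : D = p ^ r' * M := by rw [hD, hM]; ring
  have hMr : M = p ^ r * p := by rw [hM]; ring
  have hq' : Fintype.card K = M' * M := by rw [hq, hM, hM']; ring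
  rw [← hM] at hd
  rw [← hD, ← hM']
  set H0 := tp A B p r' with hH0
  set V := B ^ p ^ r with hV
  set Up := C γ * V - tp A B p r with hUp
  have hVd : V.natDegree ≤ d * p ^ r := natDegree_pow_le.trans (by rw [mul_comm]; gcongr)
  have hUd : Up.natDegree ≤ d * p ^ r := by
    refine (natDegree_sub_le _ _).trans (max_le ((natDegree_C_mul_le _ _).trans hVd) ?_)
    exact tp_deg A B hp0 r hA hB
  obtain ⟨κ, hκ0, hκ⟩ := exists_rel (K := K) (U := Fin J × Fin p × Fin D) M (D + d * M + J)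
    (fun u l => hasseDeriv l (T ^ (u.2.2 : ℕ)) *
      (Up ^ (u.2.1 : ℕ) * V ^ (p - 1 - u.2.1) * T ^ (u.1 : ℕ))) (fun u l => by
      have h1 : (hasseDeriv l (T ^ (u.2.2 : ℕ))).natDegree < D := by
        refine (natDegree_hasseDeriv_le _ _).trans_lt ?_
        rw [hTm.natDegree_pow, hTd]
        have := u.2.2.2
        omega
      have h2 : (Up ^ (u.2.1 : ℕ)).natDegree ≤ u.2.1 * (d * p ^ r) :=
        natDegree_pow_le.trans (Nat.mul_le_mul_left _ hUd)
      have h3 : (V ^ (p - 1 - u.2.1)).natDegree ≤ (p - 1 - u.2.1) * (d * p ^ r) :=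
        natDegree_pow_le.trans (Nat.mul_le_mul_left _ hVd)
      have h4 : (T ^ (u.1 : ℕ)).natDegree ≤ J := by
        rw [hTm.natDegree_pow, hTd, mul_one]; exact u.1.2.le
      have h5 : (u.2.1 : ℕ) * (d * p ^ r) + (p - 1 - u.2.1) * (d * p ^ r) ≤ d * M := by
        rw [← add_mul, hMr, ← mul_assoc d, mul_comm _ p]
        have := u.2.1.2
        exact Nat.mul_le_mul_right _ (by omega)
      have h6 := natDegree_mul_le (p := hasseDeriv l (T ^ (u.2.2 : ℕ)))
        (q := Up ^ (u.2.1 : ℕ) * V ^ (p - 1 - u.2.1) * T ^ (u.1 : ℕ))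
      have h7 := natDegree_mul_le (p := Up ^ (u.2.1 : ℕ) * V ^ (p - 1 - u.2.1))
        (q := T ^ (u.1 : ℕ))
      have h8 := natDegree_mul_le (p := Up ^ (u.2.1 : ℕ)) (q := V ^ (p - 1 - u.2.1))
      omega) (by
      simp only [Fintype.card_prod, Fintype.card_fin]
      rw [hDq]
      have a1 : p ^ r * (M * M') = M * D := by rw [← hDq, hMr]; ring
      have a2 : p ^ r < M := by rw [hMr]; nlinarith [pow_pos hp0 r]
      have a3 : M * M ≤ M * M' := Nat.mul_le_mul_left _ hMM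
      have a4 : M * p ^ r < M * M := Nat.mul_lt_mul_of_pos_left a2 hM0
      have a5 : M * (d + 2) ≤ M * M := Nat.mul_le_mul_left _ hd
      have a6 : d * (M * M) ≤ d * (M * M') := Nat.mul_le_mul_left _ a3
      rw [hJ]
      nlinarith)
  let Q : Fin J × Fin p × Fin D → K[X] := fun u =>
    H0 ^ (u.2.1 : ℕ) * (B ^ p ^ r') ^ (p - 1 - u.2.1) * (T ^ M') ^ (u.1 : ℕ)
  let h : K[X] := ∑ u : Fin J × Fin p × Fin D, C (κ u) * (T ^ (u.2.2 : ℕ) * Q u ^ M)
  have hdeg : h.natDegree ≤ D + M * (d * M' + M' * J) := by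
    refine natDegree_sum_le_of_forall_le _ _ fun u _ => (natDegree_C_mul_le _ _).trans ?_
    refine natDegree_mul_le.trans (add_le_add ?_ ?_)
    · rw [hTm.natDegree_pow, hTd, mul_one]; exact u.2.2.2.le
    · refine natDegree_pow_le.trans (Nat.mul_le_mul_left _ ?_)
      have h2 : (H0 ^ (u.2.1 : ℕ)).natDegree ≤ u.2.1 * (d * p ^ r') :=
        natDegree_pow_le.trans (Nat.mul_le_mul_left _ (tp_deg A B hp0 r' hA hB))
      have h3 : ((B ^ p ^ r') ^ (p - 1 - u.2.1)).natDegree ≤ (p - 1 - u.2.1) * (d * p ^ r') :=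
        natDegree_pow_le.trans (Nat.mul_le_mul_left _
          (natDegree_pow_le.trans (by rw [mul_comm]; gcongr)))
      have h4 : ((T ^ M') ^ (u.1 : ℕ)).natDegree ≤ M' * J := by
        rw [(hTm.pow _).natDegree_pow, hTm.natDegree_pow, hTd, mul_one, mul_comm]
        exact Nat.mul_le_mul_left _ u.1.2.le
      have h5 : (u.2.1 : ℕ) * (d * p ^ r') + (p - 1 - u.2.1) * (d * p ^ r') ≤ d * M' := by
        rw [← add_mul, hM', pow_succ, ← mul_assoc d, mul_comm _ p]
        have := u.2.1.2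
        exact Nat.mul_le_mul_right _ (by omega)
      have h7 := natDegree_mul_le (p := H0 ^ (u.2.1 : ℕ) * (B ^ p ^ r') ^ (p - 1 - u.2.1))
        (q := (T ^ M') ^ (u.1 : ℕ))
      have h8 := natDegree_mul_le (p := H0 ^ (u.2.1 : ℕ)) (q := (B ^ p ^ r') ^ (p - 1 - u.2.1))
      simp only [Q]
      omega
  have h0 : h ≠ 0 := by
    intro h0
    apply hκ0
    refine nonvan_exp x0 κ (fun u => u.2.2 + D * ((p - 1 - u.2.1) + p * u.1)) ?_
      (fun u => (H0 ^ (u.2.1 : ℕ) * (B1 ^ p ^ r') ^ (p - 1 - u.2.1)) ^ M) ?_ ?_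
    · rintro ⟨j, i, s⟩ ⟨j', i', s'⟩ he
      simp only at he
      have e1 := congrArg (· % D) he
      simp only [Nat.add_mul_mod_self_left, Nat.mod_eq_of_lt s.2, Nat.mod_eq_of_lt s'.2] at e1
      rw [e1, Nat.add_left_cancel_iff, Nat.mul_right_inj hD0.ne'] at he
      have hi := i.2
      have hi' := i'.2
      have e2 := congrArg (· % p) he
      simp only [Nat.add_mul_mod_self_left, Nat.mod_eq_of_lt (show p - 1 - i < p by omega),
        Nat.mod_eq_of_lt (show p - 1 - i' < p by omega)] at e2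
      rw [e2, Nat.add_left_cancel_iff, Nat.mul_right_inj hp0.ne'] at he
      exact Prod.ext (Fin.ext he) (Prod.ext (Fin.ext (by simp only; omega)) (Fin.ext e1))
    · intro u
      simp only [eval_pow, eval_mul]
      rw [hH0, tp_pole A B hp1 r' x0 (by simp [hBd, hT])]
      positivity
    · rw [← h0]
      refine sum_congr rfl fun u _ => ?_
      congr 1
      simp only [Q, hBd, mul_pow, ← pow_mul, ← hT]
      rw [show (u.2.2 : ℕ) + D * (p - 1 - u.2.1 + p * u.1) =
        u.2.2 + p ^ r' * (p - 1 - u.2.1) * M + M' * u.1 * M by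
          
            have e0 : ∀ t, D * t = p ^ r' * t * M := fun t => by rw [hDM]; ring
            rw [mul_add, ← mul_assoc D p, mul_comm D p, hDq, e0]; ring, pow_add, pow_add]
      ring
  have key := (card_mul_le_natDegree h h0 Z M fun a ha => ?_).trans hdeg
  · refine Nat.le_of_mul_le_mul_right (key.trans ?_) hM0
    have a1 : D ≤ M * M' := by rw [← hDq]; nlinarith
    have a2 : M' * p ^ r = D := by rw [hM', hD]; ring
    rw [hJ]
    nlinarith
  obtain ⟨hBa, hγ⟩ := hZ a ha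
  let h' : K[X] := ∑ u : Fin J × Fin p × Fin D,
    C (κ u) * (T ^ (u.2.2 : ℕ) * C ((Q u).eval a ^ M))
  have h1 : (X - C a) ^ M ∣ h - h' := by
    simp only [h, h']
    rw [← Finset.sum_sub_distrib]
    refine Finset.dvd_sum fun u _ => ?_
    rw [← mul_sub, ← mul_sub]
    refine Dvd.dvd.mul_left (Dvd.dvd.mul_left ?_ _) _
    rw [hM]
    exact frob_dvd' p _ _ _
  have hVa : V.eval a ≠ 0 := by rw [hV, eval_pow]; exact pow_ne_zero _ hBa
  have hH : H0.eval a ^ M * V.eval a = (B.eval a ^ p ^ r') ^ M * Up.eval a := by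
    rw [hH0, hUp, eval_sub, eval_mul (p := C γ), eval_C, tp_eval A B hp0 _ a hBa, tp_eval A B hp0 _ a hBa,
      mul_pow, ← hγ, sum_range_add _ (r + 1), hV, eval_pow, hM, sum_pow_char_pow]
    simp only [← pow_mul, ← pow_add, add_comm (r + 1)]
    ring
  have hTa : (T.eval a ^ M') ^ M = T.eval a := by
    rw [← pow_mul, ← hq', FiniteField.pow_card]
  have h2 : (X - C a) ^ M ∣ h' := by
    refine pow_dvd_of_hasse _ _ _ fun l hl => ?_
    have h3 := congrArg (eval a) (hκ ⟨l, hl⟩)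
    simp only [eval_finsetSum, eval_mul, eval_C, eval_pow, eval_zero] at h3
    refine (mul_eq_zero.1 ?_).resolve_left (pow_ne_zero (p - 1) hVa)
    simp only [h', map_sum, eval_finsetSum]
    rw [← mul_zero (((B.eval a ^ p ^ r') ^ M) ^ (p - 1)), ← h3, Finset.mul_sum, Finset.mul_sum]
    refine Finset.sum_congr rfl fun u _ => ?_
    rw [mul_comm (T ^ (u.2.2 : ℕ)), ← mul_assoc (C (κ u)), ← C_mul, ← smul_eq_C_mul, map_smul,
      eval_smul, smul_eq_mul]
    have hi := u.2.1.2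
    have e1 : (Q u).eval a ^ M * V.eval a ^ (p - 1) = ((B.eval a ^ p ^ r') ^ M) ^ (p - 1) *
        (Up.eval a ^ (u.2.1 : ℕ) * V.eval a ^ (p - 1 - u.2.1) * T.eval a ^ (u.1 : ℕ)) := by
      obtain ⟨i', hi'⟩ : ∃ i', p - 1 = u.2.1 + i' := ⟨p - 1 - u.2.1, by omega⟩
      simp only [Q, eval_mul, eval_pow]
      rw [hi', Nat.add_sub_cancel_left, mul_pow, mul_pow, ← pow_mul (H0.eval a), mul_comm _ M,
        pow_mul, ← pow_mul (T.eval a ^ M'), mul_comm _ M, pow_mul, hTa,
        ← pow_mul (B.eval a ^ p ^ r') i', mul_comm i' M, pow_mul, pow_add, pow_add]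
      calc _ = (H0.eval a ^ M * V.eval a) ^ (u.2.1 : ℕ) * (((B.eval a ^ p ^ r') ^ M) ^ i' *
            T.eval a ^ (u.1 : ℕ) * V.eval a ^ i') := by rw [mul_pow]; ring
        _ = _ := by rw [hH, mul_pow]; ring
    linear_combination κ u * (hasseDeriv l (T ^ (u.2.2 : ℕ))).eval a * e1
  simpa using dvd_add h1 h2

end Pool.Agent.Lib.MP_d315f4_nt
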