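import Pool.Agent.Lib.MP_d315f4_nt.AStep
import Pool.Agent.Lib.MP_3bfe94_nt.LiftA
import Pool.Agent.Lib.MP_3bfe94_nt.LiftB

/-!
The bound of Weil for additive character sums of rational functions with simple poles.
-/

set_option autoImplicit false
set_option maxHeartbeats 400000

open Polynomial Finset

namespace Pool.Agent.Lib.MP_d315f4_nt

open Pool.Agent.Lib.MP_3bfe94_nt

section
variable {F : Type} [Field F]

/-- normalised second coefficient. -/
noncomputable def nc (h : F[X]) : F := h.nextCoeff / h.leadingCoeff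

/-- logarithmic derivative at a point. -/
noncomputable def ld (h : F[X]) (s : F) : F := (derivative h).eval s / h.eval s

lemma nc_mul {a b : F[X]} (ha : a ≠ 0) (hb : b ≠ 0) : nc (a * b) = nc a + nc b := by
  have h1 := leadingCoeff_ne_zero.2 ha
  have h2 := leadingCoeff_ne_zero.2 hb
  simp only [nc, ← coeff_one_reverse, leadingCoeff_mul]
  rw [reverse_mul_of_domain, mul_coeff_one, coeff_zero_reverse, coeff_zero_reverse]
  field_simp
  ring

lemma ld_mul {a b : F[X]} {s : F} (ha : a.eval s ≠ 0) (hb : b.eval s ≠ 0) :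
    ld (a * b) s = ld a s + ld b s := by
  simp only [ld, derivative_mul, eval_add, eval_mul]
  field_simp

lemma ld_pow {a : F[X]} {s : F} (ha : a.eval s ≠ 0) (n : ℕ) : ld (a ^ n) s = n * ld a s := by
  induction n with
  | zero => simp [ld]
  | succ n ih =>
    rw [pow_succ, ld_mul (by rw [eval_pow]; exact pow_ne_zero _ ha) ha, ih]
    push_cast
    ring

variable {K : Type} [Field K] [Algebra F K] [FiniteDimensional F K]

open IntermediateField in
lemma finrank_adj (y : K) :
    Module.finrank F⟮y⟯ K = Module.finrank F K / (minpoly F y).natDegree := by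
  have hy : IsIntegral F y := IsIntegral.of_finite F y
  have h1 : Module.finrank F F⟮y⟯ * Module.finrank F⟮y⟯ K = Module.finrank F K :=
    Module.finrank_mul_finrank F F⟮y⟯ K
  rw [adjoin.finrank hy] at h1
  rw [← h1, Nat.mul_div_cancel_left _ (minpoly.natDegree_pos hy)]

omit [FiniteDimensional F K] in
lemma minpoly_inv_dvd {y : K} (hy : y ≠ 0) : minpoly F y⁻¹ ∣ (minpoly F y).reverse := by
  apply minpoly.dvd
  let := invertibleOfNonzero hy
  have := (eval₂_reverse_eq_zero_iff (algebraMap F K) y (minpoly F y)).2 (minpoly.aeval F y)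
  rwa [invOf_eq_inv] at this

lemma minpoly_inv_deg {y : K} (hy : y ≠ 0) :
    (minpoly F y⁻¹).natDegree = (minpoly F y).natDegree := by
  have h : ∀ z : K, z ≠ 0 → (minpoly F z⁻¹).natDegree ≤ (minpoly F z).natDegree := fun z hz =>
    (natDegree_le_of_dvd (minpoly_inv_dvd hz) (by
      rw [Ne, reverse_eq_zero]
      exact minpoly.ne_zero (IsIntegral.of_finite F z))).trans (reverse_natDegree_le _)
  refine le_antisymm (h y hy) ?_
  simpa using h y⁻¹ (inv_ne_zero hy)

lemma minpoly_inv_next {y : K} (hy : y ≠ 0) :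
    (minpoly F y⁻¹).nextCoeff = (minpoly F y).coeff 1 / (minpoly F y).coeff 0 := by
  have hi : IsIntegral F y := IsIntegral.of_finite F y
  have hm := minpoly.monic (IsIntegral.of_finite F y⁻¹)
  have h0 : (minpoly F y).coeff 0 ≠ 0 := minpoly.coeff_zero_ne_zero hi hy
  have hd := minpoly_inv_deg (F := F) hy
  have hpos := minpoly.natDegree_pos hi
  obtain ⟨g, hg⟩ := minpoly_inv_dvd (F := F) hy
  have hr0 : (minpoly F y).reverse ≠ 0 := by
    rw [Ne, reverse_eq_zero]; exact minpoly.ne_zero hi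
  have hg0 : g ≠ 0 := by rintro rfl; exact hr0 (by rw [hg, mul_zero])
  have hgd : g.natDegree = 0 := by
    have h1 := reverse_natDegree_le (minpoly F y)
    rw [hg, hm.natDegree_mul' hg0, hd] at h1
    omega
  rw [eq_C_of_natDegree_eq_zero hgd] at hg
  obtain ⟨e, he⟩ : ∃ e, (minpoly F y).natDegree = e + 1 := ⟨_, (Nat.succ_pred_eq_of_pos hpos).symm⟩
  have h1 := congrArg (coeff · (e + 1)) hg
  have h2 := congrArg (coeff · e) hg
  simp only [coeff_reverse, coeff_mul_C, he] at h1 h2
  rw [revAt_le (by omega)] at h1 h2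
  rw [Nat.sub_self, ← he, ← hd, hm.coeff_natDegree, one_mul] at h1
  rw [show e + 1 - e = 1 by omega] at h2
  rw [nextCoeff_of_natDegree_pos (by omega), hd, he, h2, h1, Nat.add_sub_cancel,
    mul_div_cancel_right₀ _ (h1 ▸ h0)]

lemma trace_eq_nc (x : K) : Algebra.trace F K x = - nc (cp F x) := by
  rw [trace_eq_finrank_mul_minpoly_nextCoeff, finrank_adj, nc, (cp_monic F x).leadingCoeff, cp,
    (minpoly.monic (IsIntegral.of_finite F x)).nextCoeff_pow]
  simp

lemma cp_eval_ne (x : K) (s : F) : (cp F x).eval s ≠ 0 ↔ x - algebraMap F K s ≠ 0 := by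
  rw [cp_eval, mul_ne_zero_iff, Algebra.norm_ne_zero_iff]
  simp

lemma trace_inv_eq_ld (x : K) (s : F) (h : x - algebraMap F K s ≠ 0) :
    Algebra.trace F K (x - algebraMap F K s)⁻¹ = - ld (cp F x) s := by
  have h1 := (cp_eval_ne x s).2 h
  have hd : 0 < Module.finrank F K / (minpoly F x).natDegree :=
    Nat.div_pos (Nat.le_of_dvd Module.finrank_pos (minpoly.degree_dvd (IsIntegral.of_finite F x)))
      (minpoly.natDegree_pos (IsIntegral.of_finite F x))
  have h2 : (minpoly F x).eval s ≠ 0 := by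
    intro h2
    apply h1
    rw [cp, eval_pow, h2, zero_pow hd.ne']
  rw [trace_eq_finrank_mul_minpoly_nextCoeff, finrank_adj, minpoly_inv_deg h, minpoly_inv_next h,
    cp, ld_pow h2, minpoly.sub_algebraMap, natDegree_comp, natDegree_X_add_C, mul_one, ld]
  have e0 : ((minpoly F x).comp (X + C s)).coeff 0 = (minpoly F x).eval s := by
    rw [coeff_zero_eq_eval_zero, eval_comp]; simp
  have e1 : ((minpoly F x).comp (X + C s)).coeff 1 = (derivative (minpoly F x)).eval s := by
    rw [← taylor_apply, taylor_coeff_one]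
  rw [e0, e1]
  ring

open Classical in
/-- The multiplicative function attached to a rational function. -/
noncomputable def Xi (ψ : AddChar F ℂ) (ξ : F) (B : Finset F) (c : F → F) (h : F[X]) : ℂ :=
  if ∀ s ∈ B, h.eval s ≠ 0 then ψ (-(ξ * nc h) - ∑ s ∈ B, c s * ld h s) else 0

lemma Xi_mul (ψ : AddChar F ℂ) (ξ : F) (B : Finset F) (c : F → F) (s0 : F) (h0 : s0 ∈ B)
    (a b : F[X]) : Xi ψ ξ B c (a * b) = Xi ψ ξ B c a * Xi ψ ξ B c b := by
  unfold Xi
  by_cases ha : ∀ s ∈ B, a.eval s ≠ 0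
  · by_cases hb : ∀ s ∈ B, b.eval s ≠ 0
    · have ha0 : a ≠ 0 := by rintro rfl; exact ha s0 h0 (by simp)
      have hb0 : b ≠ 0 := by rintro rfl; exact hb s0 h0 (by simp)
      rw [if_pos ha, if_pos hb, if_pos (fun s hs => by
        rw [eval_mul]; exact mul_ne_zero (ha s hs) (hb s hs)), ← AddChar.map_add_eq_mul,
        nc_mul ha0 hb0, sum_congr rfl fun s hs => by rw [ld_mul (ha s hs) (hb s hs), mul_add],
        sum_add_distrib]
      congr 1
      ring
    · rw [if_neg hb, mul_zero, if_neg]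
      intro h
      exact hb fun s hs => right_ne_zero_of_mul (by rw [← eval_mul]; exact h s hs)
  · rw [if_neg ha, zero_mul, if_neg]
    intro h
    exact ha fun s hs => left_ne_zero_of_mul (by rw [← eval_mul]; exact h s hs)

open Classical in
lemma Xi_cp (ψ : AddChar F ℂ) (ξ : F) (B : Finset F) (c : F → F) (x : K) :
    Xi ψ ξ B c (cp F x) = if ∀ s ∈ B, x - algebraMap F K s ≠ 0 then
      ψ (Algebra.trace F K (algebraMap F K ξ * x +
        ∑ s ∈ B, algebraMap F K (c s) * (x - algebraMap F K s)⁻¹)) else 0 := by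
  unfold Xi
  simp only [cp_eval_ne]
  split_ifs with h
  · congr 1
    rw [map_add, map_sum, ← Algebra.smul_def, map_smul, trace_eq_nc, sub_eq_add_neg,
      ← sum_neg_distrib]
    congr 1
    · simp
    · refine sum_congr rfl fun s hs => ?_
      rw [← Algebra.smul_def, map_smul, trace_inv_eq_ld x s (h s hs)]
      simp
  · rfl

lemma Xi_vanish [Fintype F] (ψ : AddChar F ℂ) (hψ : ψ.IsPrimitive) (ξ : F) (B : Finset F)
    (c : F → F) (s0 : F) (h0 : s0 ∈ B) (hc : c s0 ≠ 0) (n : ℕ) (hn : 2 * B.card < n) :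
    ∑ h ∈ monics n, Xi ψ ξ B c h = 0 := by
  classical
  set w1 : F[X] := ∏ s ∈ B.erase s0, (X - C s) with hw1
  set w : F[X] := (X - C s0) * w1 ^ 2 with hw
  have hB := card_pos.2 ⟨s0, h0⟩
  have hwd : w.natDegree + 1 < n := by
    have h1 : w1.natDegree = B.card - 1 := by
      rw [hw1, natDegree_finsetProd_X_sub_C_eq_card, card_erase_of_mem h0]
    have h2 := natDegree_mul_le (p := X - C s0) (q := w1 ^ 2)
    have h3 := natDegree_pow_le (p := w1) (n := 2)
    rw [natDegree_X_sub_C, ← hw] at h2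
    omega
  have hw0 : w1.eval s0 ≠ 0 := by
    rw [hw1, eval_prod, prod_ne_zero_iff]
    intro β hβ
    simpa [sub_eq_zero] using (ne_of_mem_erase hβ).symm
  have hw2 : ∀ β ∈ B.erase s0, w1.eval β = 0 := by
    intro β hβ
    rw [hw1, eval_prod]
    exact prod_eq_zero hβ (by simp)
  have hev : ∀ β ∈ B, w.eval β = 0 := by
    intro β hβ
    by_cases h : β = s0
    · simp [hw, h]
    · simp [hw, hw2 β (mem_erase.2 ⟨h, hβ⟩)]
  have hmem : ∀ (t : F) (h : F[X]), h ∈ monics n → h + C t * w ∈ monics n := by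
    intro t h hh
    rw [mem_monics] at hh ⊢
    have hlt : (C t * w).natDegree < h.natDegree := by
      rw [hh.2]; exact (natDegree_C_mul_le t w).trans_lt (by omega)
    exact ⟨hh.1.add_of_left (degree_lt_degree hlt), by
      rw [natDegree_add_eq_left_of_natDegree_lt hlt, hh.2]⟩
  have hshift : ∀ t : F, ∑ h ∈ monics n, Xi ψ ξ B c h =
      ∑ h ∈ monics n, Xi ψ ξ B c (h + C t * w) := by
    intro t
    symm
    refine sum_bij' (fun h _ => h + C t * w) (fun h _ => h + C (-t) * w) (fun h hh => hmem t h hh)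
      (fun h hh => hmem (-t) h hh) ?_ ?_ ?_
    · intro h _; simp
    · intro h _; simp
    · intro h _; rfl
  have hsum : ∑ t : F, ∑ h ∈ monics n, Xi ψ ξ B c (h + C t * w) = 0 := by
    rw [sum_comm]
    refine sum_eq_zero fun h hh => ?_
    have e0 : ∀ t : F, ∀ β ∈ B, (h + C t * w).eval β = h.eval β := by
      intro t β hβ
      simp [hev β hβ]
    by_cases hz : ∀ s ∈ B, h.eval s ≠ 0
    · have e1 : ∀ t : F, Xi ψ ξ B c (h + C t * w) =
          Xi ψ ξ B c h * ψ (t * -(c s0 * (w1.eval s0 ^ 2 / h.eval s0))) := by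
        intro t
        unfold Xi
        rw [if_pos hz, if_pos (fun s hs => by rw [e0 t s hs]; exact hz s hs),
          ← AddChar.map_add_eq_mul]
        congr 1
        have h1 := mem_monics.1 hh
        have h2 := mem_monics.1 (hmem t h hh)
        have e2 : nc (h + C t * w) = nc h := by
          rw [nc, nc, h1.1.leadingCoeff, h2.1.leadingCoeff,
            nextCoeff_of_natDegree_pos (by omega), nextCoeff_of_natDegree_pos (by omega), h1.2,
            h2.2, coeff_add, coeff_C_mul, coeff_eq_zero_of_natDegree_lt (p := w) (by omega)]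
          simp
        rw [e2, ← add_sum_erase B _ h0, ← add_sum_erase B _ h0]
        have e3 : ∀ s ∈ B.erase s0, c s * ld (h + C t * w) s = c s * ld h s := by
          intro s hs
          rw [ld, ld, e0 t s (mem_of_mem_erase hs)]
          simp [hw, hw2 s hs, pow_two]
        rw [sum_congr rfl e3, ld, ld, e0 t s0 h0]
        simp [hw, pow_two]
        ring
      rw [sum_congr rfl fun t _ => e1 t, ← mul_sum, AddChar.sum_mulShift _ hψ, if_neg, Nat.cast_zero,
        mul_zero]
      have := hz s0 h0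
      simp [hc, hw0, this]
    · refine sum_eq_zero fun t _ => ?_
      unfold Xi
      rw [if_neg]
      intro h1
      exact hz fun s hs => by rw [← e0 t s hs]; exact h1 s hs
  rw [← sum_congr rfl fun t _ => hshift t, sum_const, nsmul_eq_mul] at hsum
  exact (mul_eq_zero.1 hsum).resolve_left (Nat.cast_ne_zero.2 Fintype.card_ne_zero)

lemma sum_fiber_le [Fintype F] [DecidableEq F] {L : Type} (ψ : AddChar F ℂ) (hψ : ψ ≠ 1)
    (Z : Finset L) (g : L → F) (M : ℝ) (hM : ∀ γ, ((Z.filter fun x => g x = γ).card : ℝ) ≤ M) :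
    ‖∑ x ∈ Z, ψ (g x)‖ ≤ Fintype.card F * M - Z.card := by
  have h1 : ∑ x ∈ Z, ψ (g x) =
      ∑ γ : F, ψ γ * (((Z.filter fun x => g x = γ).card : ℂ) - (M : ℂ)) := by
    simp only [mul_sub]
    rw [sum_sub_distrib, ← sum_mul, AddChar.sum_eq_zero_of_ne_one hψ, zero_mul, sub_zero,
      ← sum_fiberwise (g := g)]
    refine sum_congr rfl fun γ _ => ?_
    rw [sum_congr rfl (g := fun _ => ψ γ) fun x hx => by rw [(mem_filter.1 hx).2], sum_const,
      nsmul_eq_mul, mul_comm]
  have h2 : (Z.card : ℝ) = ∑ γ : F, ((Z.filter fun x => g x = γ).card : ℝ) := by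
    rw [card_eq_sum_card_fiberwise (f := g) (t := univ) (by simp)]
    push_cast
    rfl
  rw [h1, h2, ← card_univ, ← nsmul_eq_mul, ← sum_const, ← sum_sub_distrib]
  refine (norm_sum_le _ _).trans (sum_le_sum fun γ _ => ?_)
  rw [norm_mul, AddChar.norm_apply, one_mul, ← Complex.ofReal_natCast, ← Complex.ofReal_sub,
    Complex.norm_real, Real.norm_eq_abs, abs_sub_comm, abs_of_nonneg (sub_nonneg.2 (hM γ))]

end

lemma norm_Xi_le {F : Type} [Field F] [Fintype F] (ψ : AddChar F ℂ) (ξ : F) (B : Finset F)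
    (c : F → F) (h : F[X]) : ‖Xi ψ ξ B c h‖ ≤ 1 := by
  unfold Xi
  split_ifs
  · rw [AddChar.norm_apply]
  · simp

lemma ext_bound {F : Type} [Field F] [Fintype F] (p : ℕ) [hp : Fact p.Prime] [CharP F p]
    (hF : Fintype.card F = p) (ψ : AddChar F ℂ) (hψ : ψ ≠ 1) (ξ : F)
    (B : Finset F) (c : F → F) (s0 : F) (h0 : s0 ∈ B) (hc : c s0 ≠ 0) :
    ∃ C : ℝ, ∀ (K : Type) [Field K] [Fintype K] [Algebra F K],
      ‖∑ x : K, Xi ψ ξ B c (cp F x)‖ ≤ C * √(Fintype.card K) := by
  classical
  obtain ⟨d, hd⟩ : ∃ d, d = B.card + 1 := ⟨_, rfl⟩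
  have hp1 : 1 < p := hp.out.one_lt
  refine ⟨(p * (d + 2) ^ 2 + p * ((2 * d + 3) * p) + d : ℕ), fun K _ _ _ => ?_⟩
  have hq1 : 1 ≤ √(Fintype.card K : ℝ) := by
    rw [Real.one_le_sqrt]; exact_mod_cast Fintype.card_pos
  have hcard : Fintype.card K = p ^ Module.finrank F K := by
    rw [Module.card_eq_pow_finrank (K := F) (V := K), hF]
  have : CharP K p := charP_of_injective_algebraMap (algebraMap F K).injective p
  by_cases hs : Fintype.card K ≤ p * (d + 2) ^ 2
  · refine (norm_sum_le _ _).trans ((sum_le_sum fun x _ => norm_Xi_le _ _ _ _ _).trans ?_)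
    rw [sum_const, card_univ, nsmul_eq_mul, mul_one]
    refine le_trans ?_ (le_mul_of_one_le_right (by positivity) hq1)
    exact_mod_cast hs.trans (by omega)
  obtain ⟨r, r', hrr, hrr', hn⟩ : ∃ r r', r ≤ r' ∧ r' ≤ r + 1 ∧
      Module.finrank F K = r + 1 + (r' + 1) := by
    have h2 : 2 ≤ Module.finrank F K := by
      by_contra h
      apply hs
      rw [hcard]
      calc p ^ Module.finrank F K ≤ p ^ 1 := Nat.pow_le_pow_right (by omega) (by omega)
        _ ≤ _ := by rw [pow_one]; exact Nat.le_mul_of_pos_right _ (by positivity)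
    exact ⟨Module.finrank F K / 2 - 1, (Module.finrank F K + 1) / 2 - 1,
      by omega, by omega, by omega⟩
  rw [hn] at hcard
  have hdp : d + 2 ≤ p ^ (r + 1) := by
    by_contra h
    apply hs
    rw [hcard]
    calc p ^ (r + 1 + (r' + 1)) ≤ p ^ (1 + (r + 1) * 2) :=
          Nat.pow_le_pow_right (by omega) (by omega)
      _ = p * (p ^ (r + 1)) ^ 2 := by rw [pow_add, pow_one, pow_mul]
      _ ≤ _ := Nat.mul_le_mul_left _ (Nat.pow_le_pow_left (by omega) _)
  set ι := algebraMap F K with hι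
  set B1 : K[X] := ∏ s ∈ B.erase s0, (X - C (ι s)) with hB1
  have hBB : (X - C (ι s0)) * B1 = ∏ s ∈ B, (X - C (ι s)) := mul_prod_erase B _ h0
  set A : K[X] := C (ι ξ) * X * ∏ s ∈ B, (X - C (ι s)) +
    ∑ s ∈ B, C (ι (c s)) * ∏ s' ∈ B.erase s, (X - C (ι s')) with hA
  have hdeg : ∀ S : Finset F, (∏ s ∈ S, (X - C (ι s)) : K[X]).natDegree = S.card :=
    fun S => natDegree_finsetProd_X_sub_C_eq_card S _
  have hAd : A.natDegree ≤ d := by
    refine (natDegree_add_le _ _).trans (max_le (natDegree_mul_le.trans ?_) ?_)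
    · have := natDegree_C_mul_le (ι ξ) (X : K[X])
      rw [natDegree_X] at this
      rw [hdeg]; omega
    · refine natDegree_sum_le_of_forall_le _ _ fun s _ => (natDegree_C_mul_le _ _).trans ?_
      rw [hdeg]
      have := card_erase_le (s := B) (a := s)
      omega
  have hB0 : B1.eval (ι s0) ≠ 0 := by
    rw [hB1, eval_prod, prod_ne_zero_iff]
    intro β hβ
    simp only [eval_sub, eval_X, eval_C]
    exact sub_ne_zero.2 fun h => ne_of_mem_erase hβ (ι.injective h).symm
  have hA0 : A.eval (ι s0) ≠ 0 := by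
    rw [hA, eval_add, ← hBB, eval_finsetSum, sum_eq_single s0]
    · simp only [eval_mul, eval_sub, eval_X, eval_C, sub_self, zero_mul, mul_zero, zero_add]
      exact mul_ne_zero ((map_ne_zero ι).2 hc) hB0
    · intro s _ hs
      rw [eval_mul, eval_prod, prod_eq_zero (mem_erase.2 ⟨hs.symm, h0⟩) (by simp), mul_zero]
    · intro h; exact absurd h0 h
  set Z : Finset K := univ.filter fun x => ∀ s ∈ B, x - ι s ≠ 0 with hZ
  set g : K → F := fun x =>
    Algebra.trace F K (ι ξ * x + ∑ s ∈ B, ι (c s) * (x - ι s)⁻¹) with hg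
  have hsum : ∑ x : K, Xi ψ ξ B c (cp F x) = ∑ x ∈ Z, ψ (g x) := by
    rw [hZ, sum_filter]
    refine sum_congr rfl fun x _ => ?_
    rw [Xi_cp]
    congr
  have hfib : ∀ γ, (Z.filter fun x => g x = γ).card ≤
      p ^ (r + 1 + r') + (2 * d + 3) * p ^ (r' + 1) := by
    intro γ
    refine stepanov_trace p r r' d hrr hcard hdp A B1 (ι s0) (ι γ) hAd
      (by rw [hBB, hdeg]; omega) hA0 hB0 _ fun a ha => ?_
    obtain ⟨ha1, ha2⟩ := mem_filter.1 ha
    have ha3 := (mem_filter.1 ha1).2
    have h1 : (∏ s ∈ B, (X - C (ι s)) : K[X]).eval a = ∏ s ∈ B, (a - ι s) := by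
      simp [eval_prod]
    have h2 : ∏ s ∈ B, (a - ι s) ≠ 0 := prod_ne_zero_iff.2 ha3
    rw [hBB, h1]
    refine ⟨h2, ?_⟩
    rw [← ha2, hg, FiniteField.algebraMap_trace_eq_sum_pow, hn, Nat.card_eq_fintype_card, hF]
    refine sum_congr rfl fun i _ => ?_
    congr 1
    rw [hA, eval_add, eval_mul, h1, add_div, mul_div_cancel_right₀ _ h2, eval_finsetSum, sum_div]
    congr 1
    · simp
    · refine sum_congr rfl fun s hs => ?_
      rw [← mul_prod_erase B _ hs] at h2 ⊢
      have h3 := ha3 s hs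
      have h4 := right_ne_zero_of_mul h2
      simp only [eval_mul, eval_C, eval_prod, eval_sub, eval_X]
      field_simp
  have hZc : Fintype.card K ≤ Z.card + d := by
    have h1 := card_filter_add_card_filter_not (s := univ) (fun x : K => ∀ s ∈ B, x - ι s ≠ 0)
    have h2 : (univ.filter fun x : K => ¬ ∀ s ∈ B, x - ι s ≠ 0).card ≤ (B.image ι).card := by
      refine card_le_card fun x hx => ?_
      have := (mem_filter.1 hx).2
      push Not at this
      obtain ⟨s, hs, h⟩ := this
      exact mem_image.2 ⟨s, hs, (sub_eq_zero.1 h).symm⟩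
    have h3 := card_image_le (s := B) (f := ι)
    rw [card_univ, ← hZ] at h1
    omega
  rw [hsum]
  refine (sum_fiber_le ψ hψ Z g _ fun γ => Nat.cast_le.2 (hfib γ)).trans ?_
  have h5 : (p : ℝ) ^ (r' + 1) ≤ p * √(Fintype.card K) := by
    refine abs_le_of_sq_le_sq' ?_ (by positivity) |>.2
    rw [mul_pow, Real.sq_sqrt (by positivity), hcard, ← pow_mul]
    push_cast
    rw [← pow_add]
    exact pow_le_pow_right₀ (by exact_mod_cast hp1.le) (by omega)
  have h6 : (Fintype.card K : ℝ) = p * p ^ (r + 1 + r') := by rw [hcard]; push_cast; ring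
  have h7 : (Fintype.card K : ℝ) ≤ Z.card + d := by exact_mod_cast hZc
  rw [hF]
  push_cast
  have h8 : (p : ℝ) * ((2 * d + 3) * p ^ (r' + 1)) ≤ p * ((2 * d + 3) * (p * √(Fintype.card K))) := by
    gcongr
  have h9 : (d : ℝ) ≤ d * √(Fintype.card K) := le_mul_of_one_le_right (by positivity) hq1
  have h10 : (0 : ℝ) ≤ p * (d + 2) ^ 2 * √(Fintype.card K) := by positivity
  nlinarith

open Classical in
/-- **Bound of Weil** for additive character sums with simple poles. -/
theorem aweil {F : Type} [Field F] [Fintype F] (p : ℕ) [hp : Fact p.Prime] [CharP F p]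
    (hF : Fintype.card F = p) (ψ : AddChar F ℂ) (hψ : ψ.IsPrimitive)
    (ξ : F) (B : Finset F) (c : F → F) (s0 : F) (h0 : s0 ∈ B)
    (hc : c s0 ≠ 0) :
    ‖∑ x : F, ψ (ξ * x + ∑ s ∈ B, c s * (x - s)⁻¹)‖ ≤ 2 * B.card * √p + B.card := by
  have hψ1 : ψ ≠ 1 := by
    have := hψ (a := 1) one_ne_zero
    rwa [AddChar.mulShift_one] at this
  obtain ⟨C, hC⟩ := ext_bound p hF ψ hψ1 ξ B c s0 h0 hc
  have hq : 0 < √(p : ℝ) := Real.sqrt_pos.2 (by exact_mod_cast hp.out.pos)
  have h1 := lift_bound (fun n => ∑ h ∈ monics n, Xi ψ ξ B c h) (psum p (Xi ψ ξ B c)) (max C 0) _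
    (2 * B.card) hq (by rw [monics_zero]; simp [Xi, nc, ld, nextCoeff])
    (fun n hn => Xi_vanish ψ hψ ξ B c s0 h0 hc n hn)
    (by
      intro k
      cases k with
      | zero => simp [psum]
      | succ k =>
        refine (hC (FiniteField.Extension F p (k + 1))).trans ?_
        rw [Fintype.card_eq_nat_card, FiniteField.natCard_extension, Nat.card_eq_fintype_card, hF,
          Nat.cast_pow, Real.sqrt_eq_rpow, Real.sqrt_eq_rpow, ← Real.rpow_natCast,
          ← Real.rpow_natCast, ← Real.rpow_mul (by positivity), ← Real.rpow_mul (by positivity),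
          mul_comm (1 / 2 : ℝ)]
        gcongr
        exact le_max_left _ _)
    (logder p _ (Xi_mul ψ ξ B c s0 h0))
  simp only [monics_one] at h1
  rw [← Equiv.sum_comp (Equiv.neg F)] at h1
  have h2 : ∀ x : F, ψ (ξ * x + ∑ s ∈ B, c s * (x - s)⁻¹) =
      Xi ψ ξ B c (X + Polynomial.C ((Equiv.neg F) x)) +
        if x ∈ B then ψ (ξ * x + ∑ s ∈ B, c s * (x - s)⁻¹) else 0 := by
    intro x
    unfold Xi
    by_cases hx : x ∈ B
    · rw [if_pos hx, if_neg, zero_add]
      intro h
      exact h x hx (by simp)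
    · have h3 : ∀ s ∈ B, s - x ≠ 0 := fun s hs h => hx (by rw [← sub_eq_zero.1 h]; exact hs)
      rw [if_neg hx, add_zero, if_pos (fun s hs => by simpa [← sub_eq_add_neg] using h3 s hs)]
      congr 1
      rw [sub_eq_add_neg, ← sum_neg_distrib, nc, nextCoeff_X_add_C, leadingCoeff_X_add_C]
      congr 1
      · simp
      · refine sum_congr rfl fun s hs => ?_
        rw [← neg_sub s x, inv_neg]
        simp [ld, sub_eq_add_neg]
  rw [sum_congr rfl fun x _ => h2 x, sum_add_distrib]
  refine (norm_add_le _ _).trans (add_le_add (by exact_mod_cast h1) ?_)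
  rw [← sum_filter]
  refine (norm_sum_le _ _).trans ?_
  simp [AddChar.norm_apply]

end Pool.Agent.Lib.MP_d315f4_nt
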