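import Pool.Agent.Lib.MP_d315f4_nt.Cubic

/-!
Lines whose modulus has a large square factor are rare.
-/

set_option autoImplicit false
set_option maxHeartbeats 400000

open Finset

namespace Pool.Agent.Lib.MP_d315f4_nt

lemma count_class (Y : ℕ) (m : ℕ) (hm : 0 < m) (r : ℤ) :
    (#{y ∈ Icc (-(Y : ℤ)) Y | (m : ℤ) ∣ y - r} : ℝ) ≤ 2 * Y / m + 1 := by
  have h1 : #{y ∈ Icc (-(Y : ℤ)) Y | (m : ℤ) ∣ y - r} ≤ #(range (2 * Y / m + 1)) := by
    refine card_le_card_of_injOn (fun y => (y + Y).toNat / m) (fun y hy => ?_) fun y hy y' hy' h => ?_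
    · have := mem_Icc.1 (mem_filter.1 hy).1
      simp only [coe_range, Set.mem_Iio]
      exact Nat.lt_succ_of_le (Nat.div_le_div_right (by omega))
    · obtain ⟨a1, a2⟩ := mem_filter.1 hy
      obtain ⟨a3, a4⟩ := mem_filter.1 hy'
      rw [mem_Icc] at a1 a3
      have a5 : (m : ℤ) ∣ y - y' := (dvd_sub a2 a4).trans (dvd_of_eq (by ring))
      have a6 := Nat.div_add_mod (y + Y).toNat m
      have a7 := Nat.div_add_mod (y' + Y).toNat m
      have a8 := Nat.mod_lt (y + Y).toNat hm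
      have a9 := Nat.mod_lt (y' + Y).toNat hm
      simp only at h
      rw [h] at a6
      have := Int.eq_zero_of_abs_lt_dvd a5 (by rw [abs_lt]; omega)
      omega
  rw [card_range] at h1
  have h2 : ((2 * Y / m : ℕ) : ℝ) ≤ 2 * Y / m := by
    have := Nat.cast_div_le (α := ℝ) (m := 2 * Y) (n := m)
    push_cast at this
    exact this
  have h3 : (#{y ∈ Icc (-(Y : ℤ)) Y | (m : ℤ) ∣ y - r} : ℝ) ≤ ((2 * Y / m + 1 : ℕ) : ℝ) := by
    exact_mod_cast h1
  push_cast at h3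
  linarith

lemma three_classes (Y : ℕ) (m : ℕ) (hm : 0 < m) (A : Finset ℤ) (hA : A ⊆ Icc (-(Y : ℤ)) Y)
    (h : ∀ a ∈ A, ∀ b ∈ A, ∀ c ∈ A, ∀ d ∈ A, (m : ℤ) ∣ a - b ∨ (m : ℤ) ∣ a - c ∨ (m : ℤ) ∣ a - d ∨
      (m : ℤ) ∣ b - c ∨ (m : ℤ) ∣ b - d ∨ (m : ℤ) ∣ c - d) :
    (#A : ℝ) ≤ 3 * (2 * Y / m + 1) := by
  have h1 : #(A.image (· % (m : ℤ))) ≤ 3 := by
    by_contra hc
    obtain ⟨_, ha, _, hb, _, hc, _, hd, h2⟩ := three_lt_card.1 (not_le.1 hc)
    obtain ⟨a, ha', rfl⟩ := mem_image.1 ha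
    obtain ⟨b, hb', rfl⟩ := mem_image.1 hb
    obtain ⟨c, hc', rfl⟩ := mem_image.1 hc
    obtain ⟨d, hd', rfl⟩ := mem_image.1 hd
    have := h a ha' b hb' c hc' d hd'
    simp only [← Int.emod_eq_emod_iff_emod_sub_eq_zero, Int.dvd_iff_emod_eq_zero] at this
    tauto
  rw [card_eq_sum_card_image (· % (m : ℤ)) A]
  push_cast
  refine (sum_le_card_nsmul _ _ (2 * Y / m + 1 : ℝ) fun r _ => le_trans ?_
    (count_class Y m hm r)).trans ?_
  · refine Nat.cast_le.2 (card_le_card fun y hy => ?_)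
    obtain ⟨a1, rfl⟩ := mem_filter.1 hy
    exact mem_filter.2 ⟨hA a1, Int.dvd_self_sub_emod⟩
  · rw [nsmul_eq_mul]
    gcongr
    exact_mod_cast h1

lemma pow_dvd_split {p : ℤ} (hp : Prime p) (a : ℕ) : ∀ (b : ℕ) (x y : ℤ),
    p ^ (a + b + 1) ∣ x * y → p ^ (a + 1) ∣ x ∨ p ^ (b + 1) ∣ y := by
  induction a with
  | zero =>
    intro b x y h
    rw [zero_add, mul_comm] at h
    simpa using (prime_pow_succ_dvd_mul hp h).symm
  | succ a ih =>
    intro b x y h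
    by_cases hx : p ∣ x
    · obtain ⟨x, rfl⟩ := hx
      rw [show a + 1 + b + 1 = a + b + 1 + 1 by ring, pow_succ', mul_assoc,
        mul_dvd_mul_iff_left hp.ne_zero] at h
      rw [pow_succ' p (a + 1), mul_dvd_mul_iff_left hp.ne_zero]
      exact ih b x y h
    · exact Or.inr ((pow_dvd_pow p (by omega)).trans (hp.pow_dvd_of_dvd_mul_left _ hx h))

variable {e2 e1 e0 : ℤ}

lemma vander {p : ℤ} (hp : Prime p) (e : ℕ) {a b c d : ℤ} (ha : p ^ (6 * e + 1) ∣ fv e2 e1 e0 a)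
    (hb : p ^ (6 * e + 1) ∣ fv e2 e1 e0 b) (hc : p ^ (6 * e + 1) ∣ fv e2 e1 e0 c)
    (hd : p ^ (6 * e + 1) ∣ fv e2 e1 e0 d) :
    p ^ (e + 1) ∣ a - b ∨ p ^ (e + 1) ∣ a - c ∨ p ^ (e + 1) ∣ a - d ∨
      p ^ (e + 1) ∣ b - c ∨ p ^ (e + 1) ∣ b - d ∨ p ^ (e + 1) ∣ c - d := by
  have h : p ^ (e + 5 * e + 1) ∣
      (a - b) * ((a - c) * ((a - d) * ((b - c) * ((b - d) * (c - d))))) := by
    rw [show e + 5 * e + 1 = 6 * e + 1 by ring]
    refine (dvd_sub (dvd_add (dvd_sub (ha.mul_right ((b - c) * (b - d) * (c - d)))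
      (hb.mul_right ((a - c) * (a - d) * (c - d)))) (hc.mul_right ((a - b) * (a - d) * (b - d))))
      (hd.mul_right ((a - b) * (a - c) * (b - c)))).trans (dvd_of_eq ?_)
    simp only [fv]
    ring
  refine (pow_dvd_split hp _ _ _ _ h).imp_right fun h => ?_
  rw [show 5 * e + 1 = e + 4 * e + 1 by ring] at h
  refine (pow_dvd_split hp _ _ _ _ h).imp_right fun h => ?_
  rw [show 4 * e + 1 = e + 3 * e + 1 by ring] at h
  refine (pow_dvd_split hp _ _ _ _ h).imp_right fun h => ?_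
  rw [show 3 * e + 1 = e + 2 * e + 1 by ring] at h
  refine (pow_dvd_split hp _ _ _ _ h).imp_right fun h => ?_
  rw [show 2 * e + 1 = e + e + 1 by ring] at h
  exact pow_dvd_split hp _ _ _ _ h

lemma hensel {p : ℤ} (hp : Prime p) (hd : ¬ p ∣ dsc e2 e1 e0) {a b : ℤ} (ha : p ^ 2 ∣ fv e2 e1 e0 a)
    (hb : p ^ 2 ∣ fv e2 e1 e0 b) (h : p ∣ a - b) : p ^ 2 ∣ a - b := by
  obtain ⟨t, ht⟩ := h
  obtain rfl : a = b + p * t := by omega
  have h1 : p * p ∣ p * (t * (3 * b ^ 2 + 2 * e2 * b + e1)) := by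
    rw [← sq]
    refine (dvd_sub (dvd_sub ha hb) (dvd_mul_right (p ^ 2) (t ^ 2 * (3 * b + e2 + p * t)))).trans
      (dvd_of_eq ?_)
    simp only [fv]
    ring
  rw [mul_dvd_mul_iff_left hp.ne_zero] at h1
  rcases hp.dvd_or_dvd h1 with h2 | h2
  · rw [add_sub_cancel_left, sq]
    exact mul_dvd_mul_left _ h2
  · exfalso
    apply hd
    have h3 : p ∣ fv e2 e1 e0 b := (dvd_pow_self p two_ne_zero).trans hb
    refine (dvd_add (h3.mul_left (-3 * (2 * e2 ^ 2 - 6 * e1) * b + (e2 * (2 * e2 ^ 2 - 6 * e1) -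
      3 * (2 * e2 ^ 3 - 7 * e2 * e1 + 9 * e0)))) (h2.mul_left ((2 * e2 ^ 2 - 6 * e1) * b ^ 2 +
      (2 * e2 ^ 3 - 7 * e2 * e1 + 9 * e0) * b + (e1 * e2 ^ 2 - 4 * e1 ^ 2 + 3 * e2 * e0)))).trans
      (dvd_of_eq ?_)
    simp only [fv, dsc]
    ring

lemma count_pow (Y : ℕ) {l : ℕ} (hl : l.Prime) (e : ℕ) :
    (#{y ∈ Icc (-(Y : ℤ)) Y | (l : ℤ) ^ (6 * e + 1) ∣ fv e2 e1 e0 y} : ℝ) ≤
      3 * (2 * Y / (l ^ (e + 1) : ℕ) + 1) := by
  refine three_classes Y _ (pow_pos hl.pos _) _ (filter_subset _ _) fun a ha b hb c hc d hd => ?_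
  push_cast
  exact vander (Nat.prime_iff_prime_int.1 hl) e (mem_filter.1 ha).2 (mem_filter.1 hb).2
    (mem_filter.1 hc).2 (mem_filter.1 hd).2

lemma count_sq (Y : ℕ) {l : ℕ} (hl : l.Prime) (hd : ¬ (l : ℤ) ∣ dsc e2 e1 e0) :
    (#{y ∈ Icc (-(Y : ℤ)) Y | (l : ℤ) ^ 2 ∣ fv e2 e1 e0 y} : ℝ) ≤
      3 * (2 * Y / (l ^ 2 : ℕ) + 1) := by
  refine three_classes Y _ (pow_pos hl.pos _) _ (filter_subset _ _) fun a ha b hb c hc d hd' => ?_
  push_cast
  have hp := Nat.prime_iff_prime_int.1 hl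
  replace ha := (mem_filter.1 ha).2
  replace hb := (mem_filter.1 hb).2
  replace hc := (mem_filter.1 hc).2
  replace hd' := (mem_filter.1 hd').2
  have h1 : (l : ℤ) ^ (6 * 0 + 1) ∣ (l : ℤ) ^ 2 := pow_dvd_pow _ (by norm_num)
  have h2 := vander hp 0 (h1.trans ha) (h1.trans hb) (h1.trans hc) (h1.trans hd')
  simp only [zero_add, pow_one] at h2
  exact h2.imp (hensel hp hd ha hb) (Or.imp (hensel hp hd ha hc) (Or.imp (hensel hp hd ha hd')
    (Or.imp (hensel hp hd hb hc) (Or.imp (hensel hp hd hb hd') (hensel hp hd hc hd')))))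

/-- moduli without large square factors. -/
def Good (Y0 L W : ℕ) (q : ℤ) : Prop :=
  (∀ l : ℕ, l.Prime → Y0 < l → l ≤ L → ¬ (l : ℤ) ^ 2 ∣ q) ∧
    ∀ l e : ℕ, l.Prime → l ≤ Y0 → (l : ℤ) ^ e ∣ q → l ^ e ≤ W ^ 6

open Classical in
theorem count_bad {a2 a1 a0 : ℤ} (h : Irr a2 a1 a0) (Y0 L W Y N : ℕ) (hY0 : 0 < Y0) (hW : 0 < W)
    (hYL : Y0 ≤ L) (h0 : |a0| ≤ Y0) (hd : |dsc a2 a1 a0| ≤ Y0) :
    ∑ c ∈ range N, (#{y ∈ Icc (-(Y : ℤ)) Y | ¬ Good Y0 L W (qq a2 a1 a0 y (c + 1))} : ℝ) ≤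
      4 * N * (2 * Y / Y0 + L) + Y0 * (N * (3 * (2 * Y / W + 1))) := by
  have hq : ∀ y c : ℤ, qq a2 a1 a0 y c = fv (-(a1 * c)) (a2 * a0 * c ^ 2) (-(a0 ^ 2 * c ^ 3)) y := by
    intro y c; simp only [qq, fv]; ring
  have h1 : ∀ c : ℕ, (#{y ∈ Icc (-(Y : ℤ)) Y | ¬ Good Y0 L W (qq a2 a1 a0 y (c + 1))} : ℝ) ≤
      ∑ l ∈ Ioc Y0 L, (3 * (2 * Y / (l ^ 2 : ℕ) + 1) + if l ∣ c + 1 then (2 * Y / l + 1 : ℝ) else 0)
      + ∑ l ∈ Icc 1 Y0, 3 * (2 * Y / W + 1 : ℝ) := by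
    intro c
    have hsub : {y ∈ Icc (-(Y : ℤ)) Y | ¬ Good Y0 L W (qq a2 a1 a0 y (c + 1))} ⊆
        ((Ioc Y0 L).biUnion fun l => {y ∈ Icc (-(Y : ℤ)) Y |
          l.Prime ∧ (l : ℤ) ^ 2 ∣ qq a2 a1 a0 y (c + 1)}) ∪
        ((Icc 1 Y0).biUnion fun l => {y ∈ Icc (-(Y : ℤ)) Y |
          l.Prime ∧ (l : ℤ) ^ (6 * Nat.log l W + 1) ∣ qq a2 a1 a0 y (c + 1)}) := by
      intro y hy
      obtain ⟨b1, b2⟩ := mem_filter.1 hy
      rw [Good, not_and_or] at b2
      push Not at b2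
      rcases b2 with ⟨l, c1, c2, c3, c4⟩ | ⟨l, e, c1, c2, c3, c4⟩
      · exact mem_union_left _ (mem_biUnion.2 ⟨l, mem_Ioc.2 ⟨c2, c3⟩, mem_filter.2 ⟨b1, c1, c4⟩⟩)
      · refine mem_union_right _ (mem_biUnion.2 ⟨l, mem_Icc.2 ⟨c1.pos, c2⟩,
          mem_filter.2 ⟨b1, c1, (pow_dvd_pow _ ?_).trans c3⟩⟩)
        have c5 : (l ^ Nat.log l W) ^ 6 ≤ W ^ 6 :=
          Nat.pow_le_pow_left (Nat.pow_log_le_self l hW.ne') 6
        rw [← pow_mul] at c5
        have := (Nat.pow_lt_pow_iff_right c1.one_lt).1 (c5.trans_lt c4)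
        omega
    refine (Nat.cast_le.2 ((card_le_card hsub).trans ((card_union_le _ _).trans
      (add_le_add card_biUnion_le card_biUnion_le)))).trans ?_
    push_cast
    refine add_le_add (sum_le_sum fun l hl => ?_) (sum_le_sum fun l hl => ?_)
    · by_cases hp : l.Prime
      · simp only [hp, true_and]
        have hp' := Nat.prime_iff_prime_int.1 hp
        split_ifs with hc
        · refine le_trans ?_ ((count_class Y l hp.pos 0).trans
            (le_add_of_nonneg_left (by positivity)))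
          refine Nat.cast_le.2 (card_le_card fun y hy => ?_)
          obtain ⟨b1, b2⟩ := mem_filter.1 hy
          refine mem_filter.2 ⟨b1, ?_⟩
          have b3 : (l : ℤ) ∣ c + 1 := by exact_mod_cast hc
          rw [sub_zero]
          refine hp'.dvd_of_dvd_pow (n := 3) ?_
          refine (dvd_add ((dvd_pow_self _ two_ne_zero).trans b2) (b3.mul_right
            (a1 * y ^ 2 - a2 * a0 * y * (c + 1) + a0 ^ 2 * (c + 1) ^ 2))).trans (dvd_of_eq ?_)
          rw [qq]; ring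
        · simp only [hq, add_zero]
          have := count_sq (e2 := -(a1 * (c + 1))) (e1 := a2 * a0 * (c + 1) ^ 2)
            (e0 := -(a0 ^ 2 * (c + 1) ^ 3)) Y hp (by
              have b1 : dsc (-(a1 * (c + 1))) (a2 * a0 * (c + 1) ^ 2) (-(a0 ^ 2 * (c + 1) ^ 3)) =
                  (c + 1) ^ 6 * (a0 ^ 2 * dsc a2 a1 a0) := by simp only [dsc]; ring
              have b2 := (mem_Ioc.1 hl).1
              rw [b1]
              intro b3
              rcases hp'.dvd_or_dvd b3 with b4 | b4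
              · exact hc (by exact_mod_cast hp'.dvd_of_dvd_pow b4)
              · rcases hp'.dvd_or_dvd b4 with b5 | b5
                · exact h.a0_ne (Int.eq_zero_of_abs_lt_dvd (hp'.dvd_of_dvd_pow b5) (by omega))
                · exact h.dsc_ne (Int.eq_zero_of_abs_lt_dvd b5 (by omega)))
          simpa using this
      · simp only [hp, false_and, filter_false, card_empty, Nat.cast_zero]
        positivity
    · by_cases hp : l.Prime
      · simp only [hp, true_and, hq]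
        refine (count_pow Y hp _).trans ?_
        have := (Nat.lt_pow_succ_log_self hp.one_lt W).le
        gcongr
      · simp only [hp, false_and, filter_false, card_empty, Nat.cast_zero]
        positivity
  refine (sum_le_sum fun c _ => h1 c).trans ?_
  rw [sum_add_distrib, sum_comm]
  refine add_le_add ?_ (le_of_eq (by simp; ring))
  calc _ ≤ ∑ l ∈ Ioc Y0 L, 4 * N * (2 * Y * ((l : ℝ) ^ 2)⁻¹ + 1) := by
        refine sum_le_sum fun l hl => ?_
        have b1 : 0 < l := by have := (mem_Ioc.1 hl).1; omega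
        have b2 : (1 : ℝ) ≤ l := by exact_mod_cast b1
        rw [sum_add_distrib, ← sum_filter, sum_const, sum_const, Nat.card_multiples, card_range,
          nsmul_eq_mul, nsmul_eq_mul]
        have b3 : ((N / l : ℕ) : ℝ) * (2 * Y / l + 1) ≤ N / l * (2 * Y / l + 1) := by
          gcongr; exact Nat.cast_div_le
        have b4 : (N : ℝ) / l * (2 * Y / l + 1) = N * (2 * Y * ((l : ℝ) ^ 2)⁻¹ + 1 / l) := by
          field_simp
        have b5 : (N : ℝ) * (2 * Y * ((l : ℝ) ^ 2)⁻¹ + 1 / l) ≤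
            N * (2 * Y * ((l : ℝ) ^ 2)⁻¹ + 1) := by
          gcongr; exact (div_le_one (by linarith)).2 b2
        push_cast
        rw [div_eq_mul_inv _ ((l : ℝ) ^ 2)]
        linarith
    _ ≤ _ := by
        rw [← mul_sum, sum_add_distrib, ← mul_sum, sum_const, Nat.card_Ioc, nsmul_eq_mul, mul_one,
          div_eq_mul_inv]
        gcongr
        · refine (sum_Ioc_inv_sq_le_sub hY0.ne' hYL).trans ?_
          simp
        · exact Nat.sub_le _ _

end Pool.Agent.Lib.MP_d315f4_nt
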