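import Pool.Agent.Lib.MP_d315f4_nt.Num
import Pool.Agent.Lib.MP_6a20cc_nt.Mertens

/-!
The bound for the number of lattice points in the box.
-/

set_option autoImplicit false
set_option maxHeartbeats 400000

open Finset

namespace Pool.Agent.Lib.MP_d315f4_nt

variable {a2 a1 a0 : ℤ}

lemma coef_bd {H0 U j : ℕ} (hH : 1 ≤ H0) (h2 : |a2| ≤ H0) (h1 : |a1| ≤ H0) (h0 : |a0| ≤ H0)
    (hU : 40 * H0 ^ 2 ≤ U) (hj : j < U ^ 65) : |s2 a2 j| ≤ (U : ℤ) ^ 196 ∧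
      |s1 a2 a1 j| ≤ (U : ℤ) ^ 196 ∧ |s0 a2 a1 a0 j| ≤ (U : ℤ) ^ 196 := by
  have b1 : 6 * H0 ≤ U := by nlinarith
  have b2 : (1 : ℤ) ≤ U := by exact_mod_cast (by omega)
  have b3 := shift_bd (J := (U : ℤ) ^ 65) (j := j) (by exact_mod_cast hH) h2 h1 h0
    (one_le_pow₀ b2) (Nat.cast_nonneg _) (by exact_mod_cast hj.le)
  have b4 : 6 * (H0 : ℤ) * ((U : ℤ) ^ 65) ^ 3 ≤ U ^ 196 := by
    rw [← pow_mul]
    exact pw b2 (by exact_mod_cast b1) (by omega)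
  exact ⟨b3.1.trans b4, b3.2.1.trans b4, b3.2.2.trans b4⟩

lemma jbd {u j x : ℤ} (hu : 4 ≤ u) (hj0 : 0 ≤ j) (hj : j ≤ u ^ 65) (hx : 0 ≤ x) :
    x + j * x + j * x + j ^ 2 * x ≤ u ^ 131 * x := by
  have h1 : 1 ≤ u := by omega
  have a1 : j ≤ u ^ 130 := hj.trans (pow_le_pow_right₀ h1 (by omega))
  have a2 : j ^ 2 ≤ u ^ 130 := (pow_le_pow_left₀ hj0 hj 2).trans (by rw [← pow_mul])
  have a3 : 1 ≤ u ^ 130 := one_le_pow₀ h1
  have a4 := pw h1 hu (a := 130) (b := 131) le_rfl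
  nlinarith [mul_le_mul_of_nonneg_right (show 1 + j + j + j ^ 2 ≤ u ^ 131 by linarith) hx]

section
variable (hI : Irr a2 a1 a0) {H0 U e : ℕ} (hH : 1 ≤ H0) (h2 : |a2| ≤ H0) (h1 : |a1| ≤ H0)
  (h0 : |a0| ≤ H0) (he : 10000 ≤ e) (hU : 4 ^ 12 ≤ U) (hU2 : 40 * H0 ^ 2 ≤ U)
  (I : Finset (ℕ × ℕ)) (ν : ℕ × ℕ → ℤ)
  (hi : ∀ i ∈ I, i.1.Prime ∧ i.2.Prime ∧ U ^ (159 * e) < i.1 ∧ i.1 ≤ U ^ (165 * e) ∧
    U ^ (165 * e) < i.2 ∧ i.2 ≤ U ^ (171 * e) ∧ ((i.1 * i.2 : ℕ) : ℤ) ∣ fv a2 a1 a0 (ν i))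
include hI hH h2 h1 h0 he hU hU2 hi

lemma mult_at {j : ℕ} (hj : j < U ^ 65) :
    Mult I (fun i => i.1 * i.2) (fun i => xi a2 a1 j (ν i)) (U ^ (440 * e)) 100 := by
  obtain ⟨c2, c1, c0⟩ := coef_bd hH h2 h1 h0 hU2 hj
  have hu : (4 : ℤ) ≤ U := by exact_mod_cast (by omega)
  have hu1 : (1 : ℤ) < U := by omega
  refine mult_idx hI j I ν (Z1 := U ^ (159 * e)) (by positivity) (fun i h => ?_)
    (Y := U ^ 131 * U ^ (440 * e)) (one_le_pow₀ hu1.le) c2 c1 c0 ?_ ?_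
  · obtain ⟨d1, d2, d3, d4, d5, -, d7⟩ := hi i h
    exact ⟨d1, d2, d3, by omega, d7⟩
  · have := jbd hu (Nat.cast_nonneg j) (by exact_mod_cast hj.le)
      (by positivity : (0 : ℤ) ≤ U ^ (440 * e))
    push_cast
    linarith [(by positivity : (0 : ℤ) ≤ j * U ^ (440 * e))]
  · push_cast
    rw [← pow_add, ← pow_mul, ← pow_mul, ← pow_mul, ← pow_add]
    exact (pw hu1.le hu le_rfl).trans_lt (pow_lt_pow_right₀ hu1 (by omega))

lemma var_at {μ : ℝ} (hμ : μ = ∑ i ∈ I, (1 / (i.1 * i.2 : ℕ) : ℝ)) (hμ1 : 200 / U ≤ μ) :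
    bs (U ^ (300 * e)) (fun a b c => |(∑ j ∈ range (U ^ 65), Wt I (fun i => i.1 * i.2)
      (fun i => xi a2 a1 j (ν i)) (a - j * b) c) / ((U ^ 65 : ℕ) * μ) - 1|) ≤
      vol (U ^ (300 * e)) * (1 / U ^ 28) := by
  have hu : (4 : ℝ) ^ 12 ≤ U := by exact_mod_cast hU
  have hu1 : 1 ≤ U := by omega
  have hu0 : (0 : ℝ) < U := by positivity
  have hμ0 : 0 < μ := lt_of_lt_of_le (by positivity) hμ1
  refine var_box I _ (fun j i => xi a2 a1 j (ν i)) (U ^ (440 * e)) 100 (U ^ (336 * e))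
    (U ^ (100 * e)) (U ^ (237 * e)) (U ^ 65) (U ^ (300 * e)) (U ^ (299 * e))
    (fun j hj => mult_at hI hH h2 h1 h0 he hU hU2 I ν hi hj) (fun i h => ?_) (by positivity)
    ?_ ?_ ?_ ?_ (by positivity) (by positivity) ?_ (fun i h d d0 d1 => ?_) μ U (1 / U ^ 60) _ hμ hμ0
    ?_ (by positivity) (by positivity) ?_ ?_
  · obtain ⟨d1, d2, -, d4, -, d6, -⟩ := hi i h
    exact ⟨Nat.mul_pos d1.pos d2.pos, (Nat.mul_le_mul d4 d6).trans (by
      rw [← pow_add]; exact pow_le_pow_right₀ hu1 (by omega))⟩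
  · rw [← pow_add]; exact pw hu1 (by omega) (by omega)
  · rw [← pow_add]; exact pow_le_pow_right₀ hu1 (by omega)
  · rw [← pow_add, ← pow_add]; exact pow_le_pow_right₀ hu1 (by omega)
  · refine le_trans (Nat.mul_le_mul_left _ (show _ ≤ 3 * U ^ (300 * e) by
      linarith [one_le_pow₀ (n := 300 * e) hu1])) ?_
    rw [mul_left_comm, ← pow_add]
    exact pw hu1 (by omega) (by omega)
  · rw [← pow_add]; exact pow_le_pow_right₀ hu1 (by omega)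
  · obtain ⟨d2, d3, d4, d5, d6, -⟩ := hi i h
    have : U ^ 65 ≤ U ^ (159 * e) := pow_le_pow_right₀ hu1 (by omega)
    exact Nat.Coprime.mul_right (Nat.coprime_of_lt_prime d0.ne' (by omega) d2).symm
      (Nat.coprime_of_lt_prime d0.ne' (by omega) d3).symm
  · have : ((100 : ℕ) : ℝ) / μ ≤ U / 2 := by
      rw [div_le_iff₀ hu0] at hμ1
      rw [div_le_iff₀ hμ0]
      push_cast
      linarith
    linarith
  · push_cast
    refine numQ hu he (by positivity) ?_ (le_trans (by gcongr; norm_num) hμ1)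
    have : #I ≤ U ^ (336 * e) := by
      refine (card_le_card (t := Icc 1 (U ^ (165 * e)) ×ˢ Icc 1 (U ^ (171 * e)))
        fun i h => ?_).trans (by simp [← pow_add, show 165 * e + 171 * e = 336 * e by omega])
      obtain ⟨d1, d2, -, d4, -, d6, -⟩ := hi i h
      exact mem_product.2 ⟨mem_Icc.2 ⟨d1.pos, d4⟩, mem_Icc.2 ⟨d2.pos, d6⟩⟩
    exact_mod_cast this
  · push_cast
    exact numF hu he

omit hI hH h2 h1 h0 hU2 hi in
lemma sm_at {K0 H j : ℕ} (hK : K0 ≤ U) (hH0 : 0 < H) (hHU : H ≤ U) (hj : j < U ^ 65) :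
    (K0 : ℝ) * (((j : ℤ) + (U ^ (901 * e) : ℕ) / ((U ^ (159 * e) : ℕ) * (U ^ (165 * e) : ℕ))) /
      (U ^ (750 * e) : ℕ)) ≤ 1 / (16 * H) := by
  have hr1 : (1 : ℝ) < U := by exact_mod_cast (by omega)
  have n1 : (K0 : ℝ) ≤ U := by exact_mod_cast hK
  have n2 : (H : ℝ) ≤ U := by exact_mod_cast hHU
  have n3 : (j : ℝ) ≤ U ^ (577 * e) :=
    le_trans (by exact_mod_cast hj.le) (pow_le_pow_right₀ hr1.le (by omega))
  push_cast
  rw [← pow_add, show 901 * e = 577 * e + (159 * e + 165 * e) by omega, pow_add,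
    mul_div_cancel_right₀ _ (by positivity), ← mul_div_assoc,
    div_le_div_iff₀ (by positivity) (by positivity), one_mul]
  calc _ ≤ (U : ℝ) * (U ^ (577 * e) + U ^ (577 * e)) * (16 * U) := by gcongr
    _ = 32 * U ^ (577 * e + 2) := by rw [pow_add]; ring
    _ ≤ _ := pw hr1.le (by exact_mod_cast (by omega)) (by omega)

open Classical in
lemma line_at {K0 : ℕ} (hK : K0 = 17 * H0 ^ 2) (A B : ℝ) {ι : Type}
    (F : Finset ι) (φ : ι → ℤ → ℤ → ℤ → ℝ) (G : ℝ) (hG1 : 1 ≤ G)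
    (hφ : ∀ S ∈ F, (∀ a b c, |φ S a b c| ≤ 1) ∧ ∃ m : ℕ, 0 < m ∧ (m : ℝ) ≤ U ^ 13 ∧ Per3 m (φ S))
    (hG : ∀ a b c, (∀ q ∈ (Ioc K0 U).filter Nat.Prime, ¬ (q : ℤ) ∣ nm a2 a1 a0 a b c) →
      ∑ S ∈ F, φ S a b c = G) (H : ℕ) (hH0 : 0 < H) (hHU : H ≤ U)
    (hAB : K0 * (B - A) ≤ 1 / (16 * H)) {j : ℕ} (hj : j < U ^ 65) {N Y : ℕ}
    (hN : N = U ^ (300 * e)) (hY : Y = U ^ 131 * N) (y c : ℤ) (y1 : |y| ≤ Y) (y2 : 1 ≤ c)
    (y3 : c ≤ N)
    (y4 : Wt I (fun i => i.1 * i.2) (fun i => xi a2 a1 j (ν i)) (y - j ^ 2 * c) c ≠ 0)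
    (y5 : Good (U ^ 200) (U ^ (291 * e)) (U ^ 400)
      (qq (s2 a2 j) (s1 a2 a1 j) (s0 a2 a1 a0 j) y c)) :
    ∑ b ∈ lin N j y c,
      (if InS a2 a1 a0 K0 (U ^ (750 * e)) A B (y + j * b - j ^ 2 * c) b c then 1 else 0 : ℝ) ≤
      (2 * K0 + 1) * (4 / H * ∑ b ∈ lin N j y c,
        ((∑ S ∈ F, φ S (y + j * b - j ^ 2 * c) b c) / G) ^ 2 +
        4 * (#F : ℝ) ^ 2 * (4 * (1 / U ^ 175) * (2 * N + 1))) := by
  obtain ⟨c2, c1, c0⟩ := coef_bd hH h2 h1 h0 hU2 hj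
  have hu : (7 : ℤ) ≤ U := by exact_mod_cast (by omega)
  have hu1 : (1 : ℤ) ≤ U := by omega
  have hU1 : 1 < U := by omega
  have hr1 : (1 : ℝ) < U := by exact_mod_cast hU1
  have hj0 : (0 : ℤ) ≤ j := Nat.cast_nonneg j
  have c3 : |s0 a2 a1 a0 j| ≤ (U ^ 200 : ℕ) := by
    push_cast
    exact c0.trans (pow_le_pow_right₀ hu1 (by omega))
  have k0 : (0 : ℤ) ≤ N := Nat.cast_nonneg _
  have k1 : N + j * N + j * N + j ^ 2 * N ≤ (Y : ℤ) := by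
    rw [hY]
    push_cast
    exact jbd (by omega) hj0 (by exact_mod_cast hj.le) k0
  have k2 := mul_nonneg hj0 k0
  have k3 := mul_nonneg (sq_nonneg (j : ℤ)) k0
  have k5 : 7 * (((U : ℤ) ^ 196) ^ 2 * (Y : ℤ) ^ 3) ≤ (U ^ (901 * e) : ℕ) := by
    rw [hY, hN]
    push_cast
    rw [← pow_add, ← pow_mul, ← pow_mul, ← pow_add]
    exact pw hu1 hu (by omega)
  have k6 : 0 ≤ ((U : ℤ) ^ 196) ^ 2 * (Y : ℤ) ^ 3 := by positivity
  obtain ⟨i, m0⟩ := card_pos.1 (Nat.pos_of_ne_zero (Nat.cast_ne_zero.1 y4))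
  obtain ⟨d1, d2, d3, d4, d5, d6, d7⟩ := hi i (mem_filter.1 m0).1
  have m1 := qq_dvd d7 (mem_filter.1 m0).2
  rw [sub_add_cancel] at m1
  have m2 : |c| ≤ Y := by rw [abs_of_nonneg (zero_le_one.trans y2)]; linarith
  have m3 : U ^ (171 * e) ≤ U ^ (291 * e) := pow_le_pow_right₀ hU1.le (by omega)
  have m4 : U ≤ U ^ (159 * e) := le_self_pow₀ hU1.le (by omega)
  have m5 : K0 < U := by omega
  have m6 := qq_bd (one_le_pow₀ hu1) c2 c1 c0 y1 m2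
  refine one_line (hN ▸ linePar hU he) hI hj0 c3 y c (by omega) y5
    (by linarith only [m6, k5, k6]) (fun b hb => ?_) d1 d2 (d4.trans_lt d5).ne m1
    d3.le d5.le (d4.trans (d5.le.trans (d6.trans m3))) (d6.trans m3) A B F φ G (U ^ 13) hG1 hφ
    (by push_cast; exact pow_le_pow_right₀ hr1.le (by omega))
    (by push_cast; exact pow_lt_pow_right₀ hr1 (by omega)) _ (fun q hq => ⟨(mem_filter.1 hq).2,
      (mem_Ioc.1 (mem_filter.1 hq).1).1, (mem_Ioc.1 (mem_filter.1 hq).1).2.trans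
        (le_self_pow₀ hU1.le (by omega))⟩) hG H hH0 (hHU.trans m4) hAB
    (sm_at he hU m5.le hH0 hHU hj)
    (by rw [← pow_add, ← pow_add]; exact pow_le_pow_right₀ hU1.le (by omega))
    (pow_le_pow_right₀ hU1.le (by omega)) (m5.trans_le m4)
  refine le_trans (DD_bd (one_le_pow₀ hu1) c2 c1 c0 y1 ((abs_sub _ _).trans ?_) m2) k5
  rw [abs_of_nonneg (a := _ * c) (by positivity)]
  linarith only [mul_le_mul_of_nonneg_left y3 hj0, hb, k1, k3]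

open Classical in
lemma dir_at (hd : |dsc a2 a1 a0| ≤ U) {K0 : ℕ} (hK : K0 = 17 * H0 ^ 2) (A B : ℝ) {ι : Type}
    (F : Finset ι) (φ : ι → ℤ → ℤ → ℤ → ℝ) (G : ℝ) (hG1 : 1 ≤ G)
    (hφ : ∀ S ∈ F, (∀ a b c, |φ S a b c| ≤ 1) ∧ ∃ m : ℕ, 0 < m ∧ (m : ℝ) ≤ U ^ 13 ∧ Per3 m (φ S))
    (hG : ∀ a b c, (∀ q ∈ (Ioc K0 U).filter Nat.Prime, ¬ (q : ℤ) ∣ nm a2 a1 a0 a b c) →
      ∑ S ∈ F, φ S a b c = G) (H : ℕ) (hH0 : 0 < H) (hHU : H ≤ U)
    (hAB : K0 * (B - A) ≤ 1 / (16 * H)) {j : ℕ} (hj : j < U ^ 65) {N : ℕ}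
    (hN : N = U ^ (300 * e)) :
    bs N (fun a b c => Wt I (fun i => i.1 * i.2) (fun i => xi a2 a1 j (ν i))
      (a - j * b) c * if InS a2 a1 a0 K0 (U ^ (750 * e)) A B a b c then 1 else 0) ≤
      (2 * K0 + 1) * (4 / H) * bs N (fun a b c => Wt I (fun i => i.1 * i.2)
        (fun i => xi a2 a1 j (ν i)) (a - j * b) c * ((∑ S ∈ F, φ S a b c) / G) ^ 2) +
      (100 * ((2 * K0 + 1) * (4 * (#F : ℝ) ^ 2 * (4 * (1 / U ^ 175) * (2 * N + 1)))) *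
        (N * (2 * (U ^ 131 * N) + 1)) + 100 * (2 * N + 1) * (4 * N * (2 * (U ^ 131 * N) / U ^ 200 +
          U ^ (291 * e)) + U ^ 200 * (N * (3 * (2 * (U ^ 131 * N) / U ^ 400 + 1))))) := by
  obtain ⟨Y, hY⟩ : ∃ Y, Y = U ^ 131 * N := ⟨_, rfl⟩
  have hu1 : (1 : ℤ) ≤ U := by exact_mod_cast (by omega)
  have hj0 : (0 : ℤ) ≤ j := Nat.cast_nonneg j
  have c3 : |s0 a2 a1 a0 j| ≤ (U ^ 200 : ℕ) := by
    push_cast
    exact (coef_bd hH h2 h1 h0 hU2 hj).2.2.trans (pow_le_pow_right₀ hu1 (by omega))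
  have k0 : (0 : ℤ) ≤ N := Nat.cast_nonneg _
  have k1 : N + j * N + j * N + j ^ 2 * N ≤ (Y : ℤ) := by
    rw [hY]
    push_cast
    exact jbd (by exact_mod_cast (by omega)) hj0 (by exact_mod_cast hj.le) k0
  have k2 := mul_nonneg hj0 k0
  have k3 := mul_nonneg (sq_nonneg (j : ℤ)) k0
  have k4 := count_bad (hI.shift j) (U ^ 200) (U ^ (291 * e)) (U ^ 400) Y N (by positivity)
    (by positivity) (pow_le_pow_right₀ (by omega) (by omega)) c3 (by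
      rw [dsc_shift]; push_cast; exact hd.trans (le_self_pow₀ hu1 (by omega)))
  have m1 : 2 * (Y : ℤ) ≤ (U ^ (440 * e) : ℕ) := by
    rw [hY, hN]
    push_cast
    rw [← pow_add]
    exact pw hu1 (by exact_mod_cast (by omega)) (by omega)
  have key := dir_sum N Y hj0 (by linarith only [k1, k2])
    (Wt I (fun i => i.1 * i.2) (fun i => xi a2 a1 j (ν i)))
    (fun a b c => if InS a2 a1 a0 K0 (U ^ (750 * e)) A B a b c then 1 else 0)
    (fun a b c => ((∑ S ∈ F, φ S a b c) / G) ^ 2)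
    (fun y c => Good (U ^ 200) (U ^ (291 * e)) (U ^ 400)
      (qq (s2 a2 j) (s1 a2 a1 j) (s0 a2 a1 a0 j) y c)) ((2 * K0 + 1) * (4 / H))
    ((2 * K0 + 1) * (4 * (#F : ℝ) ^ 2 * (4 * (1 / U ^ 175) * (2 * N + 1)))) _ 100 (by positivity)
    (by positivity) (by norm_num) (fun a b c => by split_ifs <;> norm_num)
    (fun _ _ _ => sq_nonneg _) (fun _ _ => Nat.cast_nonneg _) (fun y c y1 y2 y3 => ?_)
    (fun y c y1 y2 y3 y4 y5 => (line_at hI hH h2 h1 h0 he hU hU2 I ν hi hK A B F φ G hG1 hφ hG H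
      hH0 hHU hAB hj hN hY y c y1 y2 y3 y4 y5).trans (le_of_eq (by rw [mul_add, ← mul_assoc]))) k4
  · rw [add_assoc, hY] at key
    simpa only [Nat.cast_pow, Nat.cast_mul] using key
  · have m2 := mul_le_mul_of_nonneg_left y3 (sq_nonneg (j : ℤ))
    have := mult_at hI hH h2 h1 h0 he hU hU2 I ν hi hj (y - j ^ 2 * c) c (by omega)
      ((abs_sub _ _).trans (by
        rw [abs_of_nonneg (a := _ * c) (by positivity)]; linarith only [m1, m2, y1, k0, k1, k2]))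
      (by rw [abs_of_nonneg (zero_le_one.trans y2)]; linarith only [m1, y3, k0, k1, k2, k3])
    rw [Wt]
    exact_mod_cast this

open Classical in
lemma box_at (hd : |dsc a2 a1 a0| ≤ U) {K0 : ℕ} (hK : K0 = 17 * H0 ^ 2) {c : ℝ} (hc : 0 < c)
    (hM : c * Real.log U ≤ Real.exp (∑ q ∈ (Ioc K0 U).filter Nat.Prime,
      (rho a2 a1 a0 q / q - 27 / q ^ 2 : ℝ)))
    (hμ1 : 200 / U ≤ ∑ i ∈ I, (1 / (i.1 * i.2 : ℕ) : ℝ)) (A B : ℝ) (hAB : 1 / U ≤ B - A)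
    (hAB2 : 16 * K0 * (B - A) ≤ 1) {N : ℕ} (hN : N = U ^ (300 * e)) :
    bs N (fun a b c => if InS a2 a1 a0 K0 (U ^ (750 * e)) A B a b c then 1 else 0) ≤
      ((2 * K0 + 1) * (128 * K0) * (18 / c + 10) + 2) * ((B - A) * (N ^ 3 / Real.log U)) := by
  have hu : (4 : ℝ) ^ 12 ≤ U := by exact_mod_cast hU
  have hu1 : (1 : ℝ) < U := by linarith
  have hu0 : (0 : ℝ) < U := by linarith
  have hl : 0 < Real.log U := Real.log_pos hu1
  have hK17 : 17 ≤ K0 := by nlinarith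
  have hK1 : (1 : ℝ) ≤ K0 := by exact_mod_cast (by omega)
  have hδ : 0 < B - A := lt_of_lt_of_le (by positivity) hAB
  obtain ⟨F, φ, G, g1, g2, g3, g4, g5, g6⟩ := weights a2 a1 a0 ((Ioc K0 U).filter Nat.Prime)
    (fun q hq => ⟨(mem_filter.1 hq).2, by have := (mem_Ioc.1 (mem_filter.1 hq).1).1; omega⟩)
    (U ^ 13) (one_le_pow₀ hu1.le) (by
      have a1 := (sum_le_sum_of_subset_of_nonneg (s := (Ioc K0 U).filter Nat.Prime)
        (fun q hq => Nat.mem_primesLE.2 ⟨(mem_Ioc.1 (mem_filter.1 hq).1).2, (mem_filter.1 hq).2⟩)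
        fun q _ _ => div_nonneg (Real.log_natCast_nonneg q) (Nat.cast_nonneg _)).trans
        (Pool.Agent.Lib.MP_6a20cc_nt.mertens_upper U)
      have a2 := Real.log_le_log (by positivity) hu
      rw [Real.log_pow] at a2 ⊢
      push_cast at a2 ⊢
      linarith)
  obtain ⟨t, ht⟩ : ∃ t : ℝ, t = 1 / (16 * K0 * (B - A)) := ⟨_, rfl⟩
  have t1 : 1 ≤ t := by rw [ht, le_div_iff₀ (by positivity)]; linarith
  have t2 : (⌊t⌋₊ : ℝ) ≤ t := Nat.floor_le (by linarith)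
  have t3 : 0 < ⌊t⌋₊ := Nat.floor_pos.2 t1
  have t4 : (1 : ℝ) ≤ ⌊t⌋₊ := by exact_mod_cast t3
  have t5 : t ≤ 2 * ⌊t⌋₊ := by linarith [Nat.lt_floor_add_one t]
  generalize ⌊t⌋₊ = H at t2 t3 t4 t5
  have t6 : K0 * (B - A) ≤ 1 / (16 * H) := by
    rw [ht, le_div_iff₀ (by positivity)] at t2
    rw [le_div_iff₀ (by positivity)]
    linarith
  have t7 : 4 / (H : ℝ) ≤ 128 * K0 * (B - A) := by
    rw [ht, div_le_iff₀ (by positivity)] at t5
    rw [div_le_iff₀ (by positivity)]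
    linarith
  have t8 : H ≤ U := by
    have : t ≤ U := by
      rw [div_le_iff₀ hu0] at hAB
      rw [ht, div_le_iff₀ (by positivity)]
      nlinarith
    exact_mod_cast t2.trans this
  have hμ0 : 0 < ∑ i ∈ I, (1 / (i.1 * i.2 : ℕ) : ℝ) := lt_of_lt_of_le (by positivity) hμ1
  have key := avg_dir N (U ^ 65) (by positivity) _ _ _ _ _ _ ((U ^ 13) ^ 2) _ hμ0
    (by positivity) (fun a b c => by split_ifs <;> simp) (fun a b c => ⟨sq_nonneg _, ?_⟩)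
    (fun j hj => dir_at hI hH h2 h1 h0 he hU hU2 I ν hi hd hK A B F φ G g1 g4 g5 H t3 t8 t6 hj hN)
    (hN ▸ var_at hI hH h2 h1 h0 he hU hU2 I ν hi rfl hμ1)
  swap
  · rw [← sq_abs, abs_div, abs_of_pos (a := G) (by linarith)]
    refine pow_le_pow_left₀ (by positivity) ((div_le_self (abs_nonneg _) g1).trans
      ((abs_sum_le_sum_abs _ _).trans (le_trans ?_ g3))) 2
    simpa using sum_le_card_nsmul _ _ 1 fun S hS => (g4 S hS).1 a b c
  have hn : (N : ℝ) = U ^ (300 * e) := by rw [hN]; push_cast; rfl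
  have n1 : (U : ℝ) ^ 269 ≤ N := hn ▸ pow_le_pow_right₀ hu1.le (by omega)
  have n2 : (1 : ℝ) ≤ N := (one_le_pow₀ hu1.le).trans n1
  have e1 := numE (L := U ^ (291 * e)) (k := 2 * K0 + 1) hu n1 (by
      rw [hn, ← pow_add]; exact pow_le_pow_right₀ hu1.le (by omega))
    (by exact_mod_cast (by omega)) (Nat.cast_nonneg _) g3 (le_trans (by gcongr; norm_num) hμ1)
  have e2 : vol N ≤ 9 * N ^ 3 := by
    rw [vol]
    calc _ ≤ (3 * (N : ℝ)) ^ 2 * N := by gcongr; linarith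
      _ = _ := by ring
  have e0 : 0 ≤ vol N := by rw [vol]; positivity
  have e3 : (N : ℝ) ^ 3 / U ≤ N ^ 3 / Real.log U :=
    div_le_div_of_nonneg_left (by positivity) hl (Real.log_le_self hu0.le)
  have e4 : (N : ℝ) ^ 3 / U ^ 2 ≤ (B - A) * (N ^ 3 / Real.log U) :=
    le_trans (le_of_eq (by ring)) (mul_le_mul hAB e3 (by positivity) hδ.le)
  have e5 : vol N * (1 / U ^ 28) ≤ N ^ 3 / U ^ 2 := by
    refine (mul_le_mul_of_nonneg_right e2 (by positivity)).trans ?_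
    rw [mul_one_div, div_le_div_iff₀ (by positivity) (by positivity), mul_right_comm, mul_comm]
    exact mul_le_mul_of_nonneg_left (pw hu1.le (by linarith) (by omega)) (by positivity)
  have e6 : ((U : ℝ) ^ 13) ^ 2 * (vol N * (1 / U ^ 28)) ≤ 9 * (N ^ 3 / U) :=
    calc _ = vol N * (1 / (U : ℝ) ^ 2) := by field_simp
      _ ≤ 9 * N ^ 3 * (1 / (U : ℝ) ^ 1) := by gcongr; exacts [hu1.le, by omega]
      _ = _ := by ring
  have e7 : vol N / G ≤ 18 / c * (N ^ 3 / Real.log U) := by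
    rw [div_mul_div_comm, div_le_div_iff₀ (by positivity) (by positivity)]
    calc _ ≤ 9 * (N : ℝ) ^ 3 * (2 * G) := mul_le_mul e2 (hM.trans g2) (by positivity) (by positivity)
      _ = _ := by ring
  have e8 : 6 * ((U : ℝ) ^ 13) ^ 4 * (2 * N + 1) ^ 2 ≤ N ^ 3 / U := by
    rw [le_div_iff₀ hu0]
    calc _ ≤ 6 * ((U : ℝ) ^ 13) ^ 4 * (3 * N) ^ 2 * U := by gcongr; linarith
      _ = N ^ 2 * (54 * U ^ 53) := by ring
      _ ≤ N ^ 2 * N := mul_le_mul_of_nonneg_left ((pw hu1.le (by linarith) (by omega)).trans n1)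
          (by positivity)
      _ = _ := by ring
  have e9 := g6 N
  have f0 : 0 ≤ (18 / c + 10) * (N ^ 3 / Real.log U) := by positivity
  have f1 := mul_le_mul_of_nonneg_left (show bs N (fun a b c => ((∑ S ∈ F, φ S a b c) / G) ^ 2) +
    ((U : ℝ) ^ 13) ^ 2 * (vol N * (1 / U ^ 28)) ≤ (18 / c + 10) * (N ^ 3 / Real.log U) by
      linarith only [e9, e6, e7, e8, e3]) (by positivity : 0 ≤ (2 * K0 + 1) * (4 / (H : ℝ)))
  have f2 := mul_le_mul_of_nonneg_right (mul_le_mul_of_nonneg_left t7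
    (by positivity : 0 ≤ (2 * K0 + 1 : ℝ))) f0
  refine key.trans ((add_le_add (add_le_add (f1.trans f2) (e1.trans e4)) (e5.trans e4)).trans
    (le_of_eq (by ring)))

end

end Pool.Agent.Lib.MP_d315f4_nt
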