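import Pool.Agent.Lib.MP_d315f4_nt.Idx

/-!
Summation over all lines and all directions.
-/

set_option autoImplicit false
set_option maxHeartbeats 400000

open Finset

namespace Pool.Agent.Lib.MP_d315f4_nt

variable {a2 a1 a0 : ℤ}

lemma card_lin (N : ℕ) (j y c : ℤ) : (#(lin N j y c) : ℝ) ≤ 2 * N + 1 := by
  rw [← card_Icc_N]
  exact_mod_cast card_filter_le _ _

/-- one direction, abstract form. -/
lemma dir_sum (N Y : ℕ) {j : ℤ} (hj : 0 ≤ j) (hY : N + j * N + j ^ 2 * N ≤ Y)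
    (V : ℤ → ℤ → ℝ) (u Λ : ℤ → ℤ → ℤ → ℝ) (good : ℤ → ℤ → Prop) (c1 E Bd M : ℝ) (hc1 : 0 ≤ c1)
    (hE : 0 ≤ E) (hM : 0 ≤ M) (hu : ∀ a b c, u a b c ≤ 1) (hΛ : ∀ a b c, 0 ≤ Λ a b c)
    (hV0 : ∀ y c, 0 ≤ V y c)
    (hV : ∀ y c : ℤ, |y| ≤ Y → 1 ≤ c → c ≤ N → V (y - j ^ 2 * c) c ≤ M)
    (hl : ∀ y c : ℤ, |y| ≤ Y → 1 ≤ c → c ≤ N → V (y - j ^ 2 * c) c ≠ 0 → good y c →
      ∑ b ∈ lin N j y c, u (y + j * b - j ^ 2 * c) b c ≤
        c1 * ∑ b ∈ lin N j y c, Λ (y + j * b - j ^ 2 * c) b c + E)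
    [∀ y c, Decidable (good y c)]
    (hb : ∑ c ∈ range N, (#{y ∈ Icc (-(Y : ℤ)) Y | ¬ good y (c + 1)} : ℝ) ≤ Bd) :
    bs N (fun a b c => V (a - j * b) c * u a b c) ≤
      c1 * bs N (fun a b c => V (a - j * b) c * Λ a b c) + M * E * (N * (2 * Y + 1)) +
        M * (2 * N + 1) * Bd := by
  rw [bs_lines N Y hj hY, bs_lines N Y hj hY]
  have key : ∀ c ∈ range N, ∀ y ∈ Icc (-(Y : ℤ)) Y, ∑ b ∈ lin N j y (c + 1),
      V (y + j * b - j ^ 2 * (c + 1) - j * b) (c + 1) * u (y + j * b - j ^ 2 * (c + 1)) b (c + 1) ≤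
      c1 * ∑ b ∈ lin N j y (c + 1), V (y + j * b - j ^ 2 * (c + 1) - j * b) (c + 1) *
        Λ (y + j * b - j ^ 2 * (c + 1)) b (c + 1) + M * E +
        M * (2 * N + 1) * if ¬ good y (c + 1) then 1 else 0 := by
    intro c hc y hy
    have h1 : (1 : ℤ) ≤ c + 1 := by omega
    have h2 : (c : ℤ) + 1 ≤ N := by have := mem_range.1 hc; omega
    have h3 := abs_le.2 (mem_Icc.1 hy)
    generalize (c : ℤ) + 1 = d at h1 h2
    simp only [show ∀ b, y + j * b - j ^ 2 * d - j * b = y - j ^ 2 * d from fun b => by ring,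
      ← mul_sum]
    have h4 := hV y d h3 h1 h2
    have h5 := hV0 (y - j ^ 2 * d) d
    have h6 : 0 ≤ ∑ b ∈ lin N j y d, Λ (y + j * b - j ^ 2 * d) b d :=
      sum_nonneg fun _ _ => hΛ _ _ _
    by_cases h7 : V (y - j ^ 2 * d) d = 0
    · rw [h7, zero_mul, zero_mul, mul_zero]
      positivity
    by_cases h8 : good y d
    · rw [if_neg (not_not.2 h8), mul_zero, add_zero]
      nlinarith [mul_le_mul_of_nonneg_left (hl y d h3 h1 h2 h7 h8) h5,
        mul_le_mul_of_nonneg_right h4 hE]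
    · rw [if_pos h8, mul_one]
      have h9 : ∑ b ∈ lin N j y d, u (y + j * b - j ^ 2 * d) b d ≤ 2 * N + 1 :=
        (sum_le_card_nsmul _ _ 1 fun _ _ => hu _ _ _).trans (by simpa using card_lin N j y d)
      exact le_add_of_nonneg_of_le (by positivity) ((mul_le_mul_of_nonneg_left h9 h5).trans
        (mul_le_mul_of_nonneg_right h4 (by positivity)))
  refine (sum_le_sum fun c hc => sum_le_sum (key c hc)).trans ?_
  simp only [sum_add_distrib, ← mul_sum, sum_boole]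
  refine add_le_add (le_of_eq ?_) (mul_le_mul_of_nonneg_left hb (by positivity))
  simp only [sum_const, nsmul_eq_mul, card_Icc_N, card_range, mul_one]
  ring

/-- averaging over the directions. -/
lemma avg_dir (N J : ℕ) (hJ : 0 < J) (V : ℕ → ℤ → ℤ → ℤ → ℝ) (u Λ : ℤ → ℤ → ℤ → ℝ)
    (μ c1 E Lm D : ℝ) (hμ : 0 < μ) (hc1 : 0 ≤ c1) (hu : ∀ a b c, u a b c = 0 ∨ u a b c = 1)
    (hΛ : ∀ a b c, 0 ≤ Λ a b c ∧ Λ a b c ≤ Lm)
    (h1 : ∀ j < J, bs N (fun a b c => V j a b c * u a b c) ≤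
      c1 * bs N (fun a b c => V j a b c * Λ a b c) + E)
    (h2 : bs N (fun a b c => |(∑ j ∈ range J, V j a b c) / (J * μ) - 1|) ≤ D) :
    bs N u ≤ c1 * (bs N Λ + Lm * D) + E / μ + D := by
  have hJ' : (0 : ℝ) < J := by exact_mod_cast hJ
  have e : ∀ g : ℤ → ℤ → ℤ → ℝ, bs N (fun a b c => (∑ j ∈ range J, V j a b c) / (J * μ) * g a b c) =
      1 / (J * μ) * ∑ j ∈ range J, bs N (fun a b c => V j a b c * g a b c) := by
    intro g
    rw [← bs_sum, ← bs_mul]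
    congr 1
    ext a b c
    rw [← sum_mul]
    ring
  have a1 : bs N u ≤ bs N (fun a b c => (∑ j ∈ range J, V j a b c) / (J * μ) * u a b c) + D := by
    refine le_trans ?_ (add_le_add le_rfl h2)
    rw [← bs_add]
    refine bs_mono fun a b c _ _ _ _ => ?_
    rcases hu a b c with h | h <;> rw [h]
    · simp
    · linarith [neg_abs_le ((∑ j ∈ range J, V j a b c) / (J * μ) - 1)]
  have a2 : bs N (fun a b c => (∑ j ∈ range J, V j a b c) / (J * μ) * Λ a b c) ≤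
      bs N Λ + Lm * D := by
    have hL : 0 ≤ Lm := (hΛ 0 0 0).1.trans (hΛ 0 0 0).2
    refine le_trans ?_ (add_le_add le_rfl (mul_le_mul_of_nonneg_left h2 hL))
    rw [← bs_mul, ← bs_add]
    refine bs_mono fun a b c _ _ _ _ => ?_
    nlinarith [mul_le_mul_of_nonneg_right (le_abs_self ((∑ j ∈ range J, V j a b c) / (J * μ) - 1))
      (hΛ a b c).1, mul_le_mul_of_nonneg_left (hΛ a b c).2
        (abs_nonneg ((∑ j ∈ range J, V j a b c) / (J * μ) - 1))]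
  rw [e] at a1 a2
  have a3 := mul_le_mul_of_nonneg_left (sum_le_sum fun j hj => h1 j (mem_range.1 hj))
    (by positivity : 0 ≤ 1 / (J * μ))
  rw [sum_add_distrib, ← mul_sum, sum_const, card_range, nsmul_eq_mul, mul_add, mul_left_comm,
    show 1 / (J * μ) * (J * E) = E / μ by field_simp] at a3
  linarith [mul_le_mul_of_nonneg_left a2 hc1]

end Pool.Agent.Lib.MP_d315f4_nt
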