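import Mathlib

/-!
Explicit forms attached to a monic cubic polynomial.
-/

set_option autoImplicit false
set_option maxHeartbeats 400000

namespace Pool.Agent.Lib.MP_d315f4_nt

section
variable {R : Type} [CommRing R]

/-- the cubic polynomial. -/
def fv (a2 a1 a0 x : R) : R := x ^ 3 + a2 * x ^ 2 + a1 * x + a0

/-- its homogeneous form. -/
def hom (a2 a1 a0 u w : R) : R := u ^ 3 + a2 * u ^ 2 * w + a1 * u * w ^ 2 + a0 * w ^ 3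

/-- the norm form. -/
def nm (a2 a1 a0 y b c : R) : R :=
  y ^ 3 - a2 * y ^ 2 * b + a2 ^ 2 * y ^ 2 * c - 2 * a1 * y ^ 2 * c + a1 * y * b ^ 2
    + 3 * a0 * y * b * c - a2 * a1 * y * b * c + a1 ^ 2 * y * c ^ 2 - 2 * a2 * a0 * y * c ^ 2
    - a0 * b ^ 3 + a2 * a0 * b ^ 2 * c - a1 * a0 * b * c ^ 2 + a0 ^ 2 * c ^ 3

/-- the modulus of a line. -/
def qq (a2 a1 a0 y c : R) : R := y ^ 3 - a1 * y ^ 2 * c + a2 * a0 * y * c ^ 2 - a0 ^ 2 * c ^ 3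

/-- the numerator of the error in the reciprocity formula. -/
def DD (a2 a1 a0 y b c : R) : R :=
  -(a2 * y ^ 3) + a1 * y ^ 2 * b + 2 * a0 * y ^ 2 * c - a0 * y * b ^ 2 - a1 * a0 * y * c ^ 2
    + a0 ^ 2 * b * c ^ 2

/-- the discriminant. -/
def dsc (e2 e1 e0 : R) : R :=
  e2 ^ 2 * e1 ^ 2 - 4 * e1 ^ 3 - 4 * e2 ^ 3 * e0 + 18 * e2 * e1 * e0 - 27 * e0 ^ 2

/-- shifted coefficient. -/
def s2 (a2 j : R) : R := a2 - 3 * j

/-- shifted coefficient. -/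
def s1 (a2 a1 j : R) : R := a1 - 2 * a2 * j + 3 * j ^ 2

/-- shifted coefficient. -/
def s0 (a2 a1 a0 j : R) : R := a0 - a1 * j + a2 * j ^ 2 - j ^ 3

/-- slope attached to a root. -/
def xi (a2 a1 j ν : R) : R := ν ^ 2 + (a2 - j) * ν + a1 - a2 * j

variable (a2 a1 a0 : R)

lemma fv_shift (j ν : R) : fv (s2 a2 j) (s1 a2 a1 j) (s0 a2 a1 a0 j) (ν + j) = fv a2 a1 a0 ν := by
  simp only [fv, s2, s1, s0]; ring

lemma nm_shift (j a b c : R) : nm (s2 a2 j) (s1 a2 a1 j) (s0 a2 a1 a0 j) (a - j * b + j ^ 2 * c)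
    (b - 2 * j * c) c = nm a2 a1 a0 a b c := by
  simp only [nm, s2, s1, s0]; ring

lemma dsc_shift (j : R) : dsc (s2 a2 j) (s1 a2 a1 j) (s0 a2 a1 a0 j) = dsc a2 a1 a0 := by
  simp only [dsc, s2, s1, s0]; ring

lemma root_facts {y b c ν : R} (h1 : fv a2 a1 a0 ν = 0) (h2 : y + b * ν + c * ν ^ 2 = 0) :
    nm a2 a1 a0 y b c = 0 ∧ ν * qq a2 a1 a0 y c - DD a2 a1 a0 y b c = 0 ∧
      ν * (a2 * y * c - a0 * c ^ 2 - y * b) - (y ^ 2 - a1 * y * c + a0 * b * c) = 0 := by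
  obtain rfl : a0 = -(ν ^ 3 + a2 * ν ^ 2 + a1 * ν) := by
    rw [fv] at h1; linear_combination h1
  obtain rfl : y = -(b * ν + c * ν ^ 2) := by linear_combination h2
  simp only [nm, qq, DD]
  refine ⟨by ring, by ring, by ring⟩

lemma qq_zero {j z c ν : R} (h1 : fv a2 a1 a0 ν = 0) (h2 : z - c * xi a2 a1 j ν = 0) :
    qq (s2 a2 j) (s1 a2 a1 j) (s0 a2 a1 a0 j) (z + j ^ 2 * c) c = 0 := by
  obtain rfl : a0 = -(ν ^ 3 + a2 * ν ^ 2 + a1 * ν) := by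
    rw [fv] at h1; linear_combination h1
  obtain rfl : z = c * xi a2 a1 j ν := by linear_combination h2
  simp only [qq, s2, s1, s0, xi]
  ring

end

variable {a2 a1 a0 : ℤ}

lemma root_dvd {m : ℕ} {y b c ν : ℤ} (h1 : (m : ℤ) ∣ fv a2 a1 a0 ν)
    (h2 : (m : ℤ) ∣ y + b * ν + c * ν ^ 2) :
    (m : ℤ) ∣ nm a2 a1 a0 y b c ∧ (m : ℤ) ∣ ν * qq a2 a1 a0 y c - DD a2 a1 a0 y b c ∧
      (m : ℤ) ∣ ν * (a2 * y * c - a0 * c ^ 2 - y * b) - (y ^ 2 - a1 * y * c + a0 * b * c) := by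
  simp only [← ZMod.intCast_zmod_eq_zero_iff_dvd] at h1 h2 ⊢
  have := root_facts (a2 : ZMod m) a1 a0 (y := y) (b := b) (c := c) (ν := ν)
    (by simpa [fv] using h1) (by simpa using h2)
  simpa [nm, qq, DD] using this

lemma qq_dvd {m : ℕ} {j z c ν : ℤ} (h1 : (m : ℤ) ∣ fv a2 a1 a0 ν)
    (h2 : (m : ℤ) ∣ z - c * xi a2 a1 j ν) :
    (m : ℤ) ∣ qq (s2 a2 j) (s1 a2 a1 j) (s0 a2 a1 a0 j) (z + j ^ 2 * c) c := by
  simp only [← ZMod.intCast_zmod_eq_zero_iff_dvd] at h1 h2 ⊢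
  have := qq_zero (a2 : ZMod m) a1 a0 (j := j) (z := z) (c := c) (ν := ν)
    (by simpa [fv] using h1) (by simpa [xi] using h2)
  simpa [qq, s2, s1, s0] using this

/-- no rational root. -/
def Irr (a2 a1 a0 : ℤ) : Prop := ∀ u w : ℤ, w ≠ 0 → hom a2 a1 a0 u w ≠ 0

lemma Irr.shift (h : Irr a2 a1 a0) (j : ℤ) : Irr (s2 a2 j) (s1 a2 a1 j) (s0 a2 a1 a0 j) := by
  intro u w hw h0
  apply h (u - j * w) w hw
  rw [← h0]
  simp only [hom, s2, s1, s0]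
  ring

lemma Irr.a0_ne (h : Irr a2 a1 a0) : a0 ≠ 0 := by
  simpa [hom] using h 0 1 one_ne_zero

lemma Irr.qq_ne (h : Irr a2 a1 a0) (y : ℤ) {c : ℤ} (hc : c ≠ 0) : qq a2 a1 a0 y c ≠ 0 := by
  intro h0
  have h1 := h.a0_ne
  by_cases hy : y = 0
  · simp [qq, hy, hc, h1] at h0
  · apply h (-(a0 * c)) y hy
    rw [← mul_zero a0, ← h0]
    simp only [hom, qq]
    ring

lemma Irr.nm_ne (h : Irr a2 a1 a0) {y b c : ℤ} (hne : ¬ (y = 0 ∧ b = 0 ∧ c = 0)) :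
    nm a2 a1 a0 y b c ≠ 0 := by
  intro h0
  by_cases hc : c = 0
  · subst hc
    by_cases hb : b = 0
    · subst hb
      simp [nm] at h0
      simp [h0] at hne
    · apply h (-y) b hb
      rw [← neg_zero, ← h0]
      simp only [hom, nm]
      ring
  · by_cases hC : b ^ 2 - a2 * b * c + a1 * c ^ 2 - y * c = 0
    · have hB : (a2 * y * c - a0 * c ^ 2 - y * b) ^ 2 = 0 := by
        rw [nm] at h0
        linear_combination (y ^ 2 - a1 * y * c + a0 * b * c) * hC + c * h0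
      apply h (b - a2 * c) c hc
      rw [hom]
      linear_combination (b - a2 * c) * hC - c * (pow_eq_zero_iff two_ne_zero).1 hB
    · apply h (a2 * y * c - a0 * c ^ 2 - y * b) _ hC
      rw [nm] at h0
      rw [hom]
      linear_combination (c * (a2 * y * c - a0 * c ^ 2 - y * b) +
        (a2 * c - b) * (b ^ 2 - a2 * b * c + a1 * c ^ 2 - y * c)) * h0

lemma Irr.dsc_ne (h : Irr a2 a1 a0) : dsc a2 a1 a0 ≠ 0 := by
  intro h0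
  rw [dsc] at h0
  by_cases hv : 2 * a2 ^ 2 - 6 * a1 = 0
  · have : (2 * a2 ^ 3 - 9 * a1 * a2 + 27 * a0) ^ 2 * 2 = 0 := by
      linear_combination (2 * a2 ^ 2 - 6 * a1) ^ 2 * hv - 54 * h0
    apply h (-a2) 3 (by norm_num)
    rw [hom]
    have h2 := (pow_eq_zero_iff two_ne_zero).1 ((mul_eq_zero.1 this).resolve_right two_ne_zero)
    linear_combination h2
  · apply h (9 * a0 - a1 * a2) _ hv
    rw [hom]
    linear_combination (-2 * a2 ^ 3 + 9 * a2 * a1 - 27 * a0) * h0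

lemma mono_bd {α u v w H Y : ℤ} (hα : |α| ≤ H) (hu : |u| ≤ Y) (hv : |v| ≤ Y) (hw : |w| ≤ Y) :
    -(H * Y ^ 3) ≤ α * u * v * w ∧ α * u * v * w ≤ H * Y ^ 3 := by
  rw [← abs_le, abs_mul, abs_mul, abs_mul]
  have := (abs_nonneg _).trans hα
  have := (abs_nonneg _).trans hu
  calc _ ≤ H * Y * Y * Y := by gcongr
    _ = _ := by ring

section
variable {H Y y b c : ℤ} (hH : 1 ≤ H) (h2 : |a2| ≤ H) (h1 : |a1| ≤ H) (h0 : |a0| ≤ H)
  (hy : |y| ≤ Y) (hb : |b| ≤ Y) (hc : |c| ≤ Y)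

include hH in
lemma bd1 {x : ℤ} (h : |x| ≤ H) : |x| ≤ H ^ 2 := h.trans (by nlinarith)

lemma bd2 {x x' : ℤ} (h : |x| ≤ H) (h' : |x'| ≤ H) : |x * x'| ≤ H ^ 2 := by
  rw [abs_mul, sq]
  exact mul_le_mul h h' (abs_nonneg _) ((abs_nonneg _).trans h)

include hH h2 h1 h0 hy hc

lemma qq_bd : |qq a2 a1 a0 y c| ≤ 4 * (H ^ 2 * Y ^ 3) := by
  have e1 := mono_bd (bd1 hH (show |1| ≤ H by simpa)) hy hy hy
  have e2 := mono_bd (bd1 hH h1) hy hy hc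
  have e3 := mono_bd (bd2 h2 h0) hy hc hc
  have e4 := mono_bd (bd2 h0 h0) hc hc hc
  rw [qq, abs_le]
  constructor <;> linarith [e1.1, e1.2, e2.1, e2.2, e3.1, e3.2, e4.1, e4.2]

include hb

lemma DD_bd : |DD a2 a1 a0 y b c| ≤ 7 * (H ^ 2 * Y ^ 3) := by
  have e1 := mono_bd (bd1 hH h2) hy hy hy
  have e2 := mono_bd (bd1 hH h1) hy hy hb
  have e3 := mono_bd (bd1 hH h0) hy hy hc
  have e4 := mono_bd (bd1 hH h0) hy hb hb
  have e5 := mono_bd (bd2 h1 h0) hy hc hc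
  have e6 := mono_bd (bd2 h0 h0) hb hc hc
  rw [DD, abs_le]
  constructor <;> linarith [e1.1, e1.2, e2.1, e2.2, e3.1, e3.2, e4.1, e4.2, e5.1, e5.2, e6.1, e6.2]

lemma nm_bd : |nm a2 a1 a0 y b c| ≤ 17 * (H ^ 2 * Y ^ 3) := by
  have e1 := mono_bd (bd1 hH (show |1| ≤ H by simpa)) hy hy hy
  have e2 := mono_bd (bd1 hH h2) hy hy hb
  have e3 := mono_bd (bd2 h2 h2) hy hy hc
  have e4 := mono_bd (bd1 hH h1) hy hy hc
  have e5 := mono_bd (bd1 hH h1) hy hb hb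
  have e6 := mono_bd (bd1 hH h0) hy hb hc
  have e7 := mono_bd (bd2 h2 h1) hy hb hc
  have e8 := mono_bd (bd2 h1 h1) hy hc hc
  have e9 := mono_bd (bd2 h2 h0) hy hc hc
  have e10 := mono_bd (bd1 hH h0) hb hb hb
  have e11 := mono_bd (bd2 h2 h0) hb hb hc
  have e12 := mono_bd (bd2 h1 h0) hb hc hc
  have e13 := mono_bd (bd2 h0 h0) hc hc hc
  rw [nm, abs_le]
  constructor <;> linarith [e1.1, e1.2, e2.1, e2.2, e3.1, e3.2, e4.1, e4.2, e5.1, e5.2, e6.1, e6.2,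
    e7.1, e7.2, e8.1, e8.2, e9.1, e9.2, e10.1, e10.2, e11.1, e11.2, e12.1, e12.2, e13.1, e13.2]

end

lemma shift_bd {H J j : ℤ} (hH : 1 ≤ H) (h2 : |a2| ≤ H) (h1 : |a1| ≤ H) (h0 : |a0| ≤ H)
    (hJ : 1 ≤ J) (hj0 : 0 ≤ j) (hj : j ≤ J) :
    |s2 a2 j| ≤ 6 * H * J ^ 3 ∧ |s1 a2 a1 j| ≤ 6 * H * J ^ 3 ∧ |s0 a2 a1 a0 j| ≤ 6 * H * J ^ 3 := by
  have hj' : |j| ≤ J := by rwa [abs_of_nonneg hj0]
  have h1' : |(1 : ℤ)| ≤ J := by simpa
  have hH' : |(1 : ℤ)| ≤ H := by simpa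
  have e1 := mono_bd h2 h1' h1' h1'
  have e2 := mono_bd hH' hj' h1' h1'
  have e3 := mono_bd h1 h1' h1' h1'
  have e4 := mono_bd h2 hj' h1' h1'
  have e5 := mono_bd hH' hj' hj' h1'
  have e6 := mono_bd h0 h1' h1' h1'
  have e7 := mono_bd h1 hj' h1' h1'
  have e8 := mono_bd h2 hj' hj' h1'
  have e9 := mono_bd hH' hj' hj' hj'
  have e0 : 0 ≤ H * J ^ 3 := by positivity
  simp only [s2, s1, s0, abs_le]
  refine ⟨⟨?_, ?_⟩, ⟨?_, ?_⟩, ?_, ?_⟩ <;>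
    linarith [e1.1, e1.2, e2.1, e2.2, e3.1, e3.2, e4.1, e4.2, e5.1, e5.2, e6.1, e6.2,
      e7.1, e7.2, e8.1, e8.2, e9.1, e9.2]

end Pool.Agent.Lib.MP_d315f4_nt
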