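import Mathlib

/-!
Finite Fourier analysis of intervals.
-/

set_option autoImplicit false
set_option maxHeartbeats 400000

open Finset Real

namespace Pool.Agent.Lib.MP_d315f4_nt

/-- the exponential `exp (2 π i x)`. -/
noncomputable def ee (x : ℝ) : ℂ := Complex.exp (Complex.I * (2 * π * x : ℝ))

lemma ee_add (x y : ℝ) : ee (x + y) = ee x * ee y := by
  rw [ee, ee, ee, ← Complex.exp_add]; congr 1; push_cast; ring

@[simp] lemma ee_zero : ee 0 = 1 := by simp [ee]

lemma ee_int (n : ℤ) : ee n = 1 := by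
  rw [ee, ← Complex.exp_int_mul_two_pi_mul_I n]; congr 1; push_cast; ring

@[simp] lemma norm_ee (x : ℝ) : ‖ee x‖ = 1 := by
  rw [ee, mul_comm, Complex.norm_exp_ofReal_mul_I]

lemma conj_ee (x : ℝ) : (starRingEnd ℂ) (ee x) = ee (-x) := by
  rw [ee, ee, ← Complex.exp_conj, map_mul, Complex.conj_ofReal, Complex.conj_I]
  congr 1; push_cast; ring

lemma ee_nat_mul (n : ℕ) (x : ℝ) : ee (n * x) = ee x ^ n := by
  rw [ee, ee, ← Complex.exp_nat_mul]; congr 1; push_cast; ring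

lemma ee_add_int (x : ℝ) (n : ℤ) : ee (x + n) = ee x := by rw [ee_add, ee_int, mul_one]

lemma ee_re (x : ℝ) : (ee x).re = Real.cos (2 * π * x) := by
  rw [ee, mul_comm, Complex.exp_ofReal_mul_I_re]

lemma stdAddChar_eq (P : ℕ) [NeZero P] (j : ℤ) :
    ZMod.stdAddChar (j : ZMod P) = ee (j / P) := by
  rw [ZMod.stdAddChar_coe, ee]; congr 1; push_cast; ring

lemma norm_ee_sub_one {θ : ℝ} (h : |θ| ≤ 1 / 2) : 4 * |θ| ≤ ‖ee θ - 1‖ := by
  rw [ee, Complex.norm_exp_I_mul_ofReal_sub_one, Real.norm_eq_abs, abs_mul, abs_two]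
  have h1 : |2 * π * θ / 2| = π * |θ| := by
    rw [show 2 * π * θ / 2 = π * θ by ring, abs_mul, abs_of_pos pi_pos]
  have h2 := Real.mul_abs_le_abs_sin (x := 2 * π * θ / 2) (by rw [h1]; nlinarith [pi_pos])
  rw [h1] at h2
  have h3 : 2 / π * (π * |θ|) = 2 * |θ| := by field_simp
  linarith

lemma geom_bound {θ : ℝ} (h : |θ| ≤ 1 / 2) (T : ℕ) :
    2 * |θ| * ‖∑ t ∈ range T, ee (t * θ)‖ ≤ 1 := by
  simp only [ee_nat_mul]
  have h1 := geom_sum_mul (ee θ) T
  have h2 : ‖ee θ ^ T - 1‖ ≤ 2 := by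
    refine (norm_sub_le _ _).trans ?_
    rw [norm_pow, norm_ee, one_pow, norm_one]; norm_num
  rw [← h1, norm_mul] at h2
  have h3 := norm_ee_sub_one h
  nlinarith [norm_nonneg (∑ t ∈ range T, ee θ ^ t)]

lemma geom_bound' (θ : ℝ) (T : ℕ) :
    2 * |θ - round θ| * ‖∑ t ∈ range T, ee (t * θ)‖ ≤ 1 := by
  have := geom_bound (abs_sub_round θ) T
  convert this using 4 with t _
  rw [← ee_add_int (t * (θ - round θ)) (t * round θ)]
  congr 1; push_cast; ring

lemma geom_triv (θ : ℝ) (T : ℕ) : ‖∑ t ∈ range T, ee (t * θ)‖ ≤ T := by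
  refine (norm_sum_le _ _).trans ?_
  simp

/-- a symmetric complete residue system. -/
noncomputable def KR (R : ℕ) : Finset ℤ := Ico (-((R : ℤ) / 2)) (-((R : ℤ) / 2) + R)

lemma mem_KR {R : ℕ} {k : ℤ} (h : k ∈ KR R) : 2 * |k| ≤ R := by
  rw [KR, mem_Ico] at h
  rcases abs_cases k with h1 | h1 <;> omega

lemma zero_mem_KR {R : ℕ} (hR : 0 < R) : 0 ∈ KR R := by
  rw [KR, mem_Ico]; omega

lemma orth {R : ℕ} (hR : 0 < R) (m : ℤ) :
    ∑ k ∈ KR R, ee (k * m / R) = if (R : ℤ) ∣ m then (R : ℂ) else 0 := by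
  have hR' : (R : ℝ) ≠ 0 := by positivity
  have : NeZero R := ⟨hR.ne'⟩
  have h1 : ∑ k ∈ KR R, ee (k * m / R) = ∑ x : ZMod R, ZMod.stdAddChar (x * (m : ZMod R)) := by
    refine sum_bij (fun k _ => (k : ZMod R)) (fun _ _ => mem_univ _) ?_ ?_ ?_
    · intro k hk k' hk' h
      rw [KR, mem_Ico] at hk hk'
      have := (ZMod.intCast_eq_intCast_iff_dvd_sub _ _ _).1 h
      have h2 := Int.eq_zero_of_abs_lt_dvd this (by rw [abs_lt]; omega)
      omega
    · intro x _
      refine ⟨(x.val + (R : ℤ) / 2) % R - (R : ℤ) / 2, ?_, ?_⟩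
      · rw [KR, mem_Ico]
        have h1 := Int.emod_nonneg (x.val + (R : ℤ) / 2) (show (R : ℤ) ≠ 0 by omega)
        have h2 := Int.emod_lt_of_pos (x.val + (R : ℤ) / 2) (show (0 : ℤ) < R by omega)
        omega
      · rw [Int.cast_sub, ZMod.intCast_mod, Int.cast_add, Int.cast_natCast,
          ZMod.natCast_zmod_val, add_sub_cancel_right]
    · intro k _
      rw [← Int.cast_mul (α := ZMod R), stdAddChar_eq]
      push_cast
      rfl
  rw [h1, AddChar.sum_mulShift _ (ZMod.isPrimitive_stdAddChar R), ZMod.card]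
  simp [ZMod.intCast_zmod_eq_zero_iff_dvd]

/-- Fourier coefficient of an interval. -/
noncomputable def fa (R T : ℕ) (k : ℤ) : ℂ := (∑ t ∈ range T, ee (t * (k / R))) / R

lemma fa_zero (R T : ℕ) : fa R T 0 = T / R := by simp [fa]

lemma norm_fa {R : ℕ} (T : ℕ) {k : ℤ} (hk : k ∈ KR R) (h0 : k ≠ 0) :
    ‖fa R T k‖ ≤ 1 / (2 * |(k : ℝ)|) := by
  have h1 : (2 : ℝ) * |(k : ℝ)| ≤ R := by exact_mod_cast mem_KR hk
  have h2 : (0 : ℝ) < |(k : ℝ)| := by simpa using h0
  have hR : (0 : ℝ) < R := by linarith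
  have h3 : |(k : ℝ) / R| = |(k : ℝ)| / R := by rw [abs_div, abs_of_pos hR]
  have h4 := geom_bound (θ := k / R) (by rw [h3, div_le_iff₀ hR]; linarith) T
  rw [fa, norm_div, Complex.norm_natCast, div_le_div_iff₀ hR (by positivity)]
  rw [h3] at h4
  have h5 := mul_le_mul_of_nonneg_right h4 hR.le
  generalize ‖∑ t ∈ range T, ee (t * (k / R))‖ = z at h5 ⊢
  calc _ = 2 * (|(k : ℝ)| / R) * z * R := by field_simp
    _ ≤ _ := h5

lemma count_fourier {R : ℕ} (hR : 0 < R) (T : ℕ) (m : ℤ) :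
    (∑ t ∈ range T, if (R : ℤ) ∣ t + m then (1 : ℂ) else 0) =
      T / R + ∑ k ∈ (KR R).erase 0, fa R T k * ee (k * m / R) := by
  have hR' : (R : ℂ) ≠ 0 := by exact_mod_cast hR.ne'
  have h1 : ∀ t : ℕ, (if (R : ℤ) ∣ t + m then (1 : ℂ) else 0) =
      (∑ k ∈ KR R, ee (t * (k / R)) * ee (k * m / R)) / R := by
    intro t
    have := orth hR (t + m)
    rw [sum_congr rfl fun k _ => (ee_add _ _).symm, eq_div_iff hR']
    rw [ite_mul, one_mul, zero_mul, ← this]
    refine sum_congr rfl fun k _ => ?_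
    congr 1; push_cast; ring
  rw [sum_congr rfl fun t _ => h1 t, ← sum_div, sum_comm, sum_div, ← fa_zero,
    ← add_sum_erase _ _ (zero_mem_KR hR)]
  congr 1
  · simp [fa]
  · refine sum_congr rfl fun k _ => ?_
    rw [← sum_mul, fa]; ring

lemma sum_inv_abs (Q : ℕ) :
    ∑ k ∈ Icc (-(Q : ℤ)) Q, 1 / (2 * |(k : ℝ)|) ≤ 1 + Real.log Q := by
  refine le_trans (le_of_eq ?_) (harmonic_le_one_add_log Q)
  induction Q with
  | zero => simp
  | succ n ih =>
    have : Icc (-((n + 1 : ℕ) : ℤ)) (n + 1 : ℕ) =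
        insert (-((n + 1 : ℕ) : ℤ)) (insert ((n + 1 : ℕ) : ℤ) (Icc (-(n : ℤ)) n)) := by
      ext k; simp only [mem_Icc, mem_insert]; omega
    rw [this, sum_insert (by simp only [mem_Icc, mem_insert]; omega),
      sum_insert (by simp only [mem_Icc]; omega), ih, harmonic_succ]
    push_cast
    rw [abs_neg, abs_of_pos (by positivity)]
    field_simp
    ring

lemma sum_Ico_range (s e : ℤ) (u : ℤ → ℂ) :
    ∑ n ∈ Ico s e, u n = ∑ t ∈ range (e - s).toNat, u (s + t) := by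
  symm
  refine sum_bij (fun t _ => s + t) ?_ ?_ ?_ fun _ _ => rfl
  · intro t ht; rw [mem_range] at ht; rw [mem_Ico]; omega
  · intro t _ t' _ h; omega
  · intro n hn; rw [mem_Ico] at hn
    exact ⟨(n - s).toNat, by rw [mem_range]; omega, by omega⟩

/-- completion of an incomplete sum. -/
lemma completion (P : ℕ) [NeZero P] (u : ZMod P → ℂ) (W ℓ : ℝ) (hℓ : 0 ≤ ℓ)
    (hW : ∀ ξ : ZMod P, ‖∑ x : ZMod P, ZMod.stdAddChar (ξ * x) * u x‖ ≤ W) (s e : ℤ)
    (hse : (e : ℝ) - s ≤ ℓ) :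
    ‖∑ n ∈ Ico s e, u n‖ ≤ (ℓ / P + 1 + Real.log P) * W := by
  have hP : 0 < P := Nat.pos_of_ne_zero (NeZero.ne P)
  have hW0 : 0 ≤ W := (norm_nonneg _).trans (hW 0)
  rw [sum_Ico_range]
  set T := (e - s).toNat with hT
  have hTl : (T : ℝ) ≤ ℓ := by
    rcases le_total 0 (e - s) with h | h
    · have : ((T : ℤ) : ℝ) = ((e - s : ℤ) : ℝ) := by rw [hT, Int.toNat_of_nonneg h]
      push_cast at this
      linarith
    · rw [hT, Int.toNat_of_nonpos h]; simpa using hℓ
  have h1 : ∑ t ∈ range T, u ((s + t : ℤ) : ZMod P) =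
      ∑ x : ZMod P, u x * ∑ t ∈ range T, if (P : ℤ) ∣ t + (s - x.val) then (1 : ℂ) else 0 := by
    simp only [mul_sum]
    rw [sum_comm]
    refine sum_congr rfl fun t _ => ?_
    rw [sum_eq_single ((s + t : ℤ) : ZMod P)]
    · rw [if_pos, mul_one]
      rw [← ZMod.intCast_zmod_eq_zero_iff_dvd]
      simp
    · intro x _ hx
      rw [if_neg, mul_zero]
      rw [← ZMod.intCast_zmod_eq_zero_iff_dvd]
      intro h
      apply hx
      rw [Int.cast_add, Int.cast_sub, Int.cast_natCast, Int.cast_natCast,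
        ZMod.natCast_zmod_val] at h
      push_cast
      linear_combination -h
    · simp
  have h2 : ∀ k : ℤ, ∑ x : ZMod P, u x * (fa P T k * ee (k * ((s - x.val : ℤ) : ℝ) / P)) =
      fa P T k * ee (k * s / P) * ∑ x : ZMod P, ZMod.stdAddChar (((-k : ℤ) : ZMod P) * x) * u x := by
    intro k
    rw [mul_sum]
    refine sum_congr rfl fun x _ => ?_
    have : ZMod.stdAddChar (((-k : ℤ) : ZMod P) * x) = ee (((-k * x.val : ℤ) : ℝ) / P) := by
      rw [← stdAddChar_eq]; congr 1; simp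
    rw [this, show (k * ((s - x.val : ℤ) : ℝ) / P) = k * s / P + ((-k * x.val : ℤ) : ℝ) / P by
      push_cast; ring, ee_add]
    ring
  rw [h1]
  simp only [count_fourier hP, mul_add, sum_add_distrib, mul_sum]
  rw [sum_comm, sum_congr rfl fun k _ => h2 k, ← sum_mul]
  refine (norm_add_le _ _).trans ?_
  rw [add_assoc, add_mul]
  refine add_le_add ?_ ((norm_sum_le _ _).trans ?_)
  · have := hW 0
    simp only [zero_mul, AddChar.map_zero_eq_one, one_mul] at this
    rw [norm_mul, norm_div, Complex.norm_natCast, Complex.norm_natCast, mul_comm]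
    gcongr
  · refine le_trans ?_ (mul_le_mul_of_nonneg_right (sum_inv_abs P) hW0)
    rw [sum_mul]
    refine le_trans (sum_le_sum fun k hk => ?_) (sum_le_sum_of_subset_of_nonneg ?_ ?_)
    · rw [norm_mul, norm_mul, norm_ee, mul_one]
      have := norm_fa T (mem_of_mem_erase hk) (ne_of_mem_erase hk)
      have := hW ((-k : ℤ) : ZMod P)
      gcongr
    · intro k hk
      have := mem_KR (mem_of_mem_erase hk)
      rw [mem_Icc, ← abs_le]
      have := abs_nonneg k
      omega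
    · intro k _ _
      positivity

end Pool.Agent.Lib.MP_d315f4_nt
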