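import Pool.Agent.Lib.MP_d315f4_nt.Phase
import Pool.Agent.Lib.MP_d315f4_nt.Bad

/-!
The estimate on one good line.
-/

set_option autoImplicit false
set_option maxHeartbeats 400000

open Finset Real

namespace Pool.Agent.Lib.MP_d315f4_nt

lemma fact_struct {Y0 L W Z1 Z2 Qm Pm r1 r2 : ℕ} {q : ℤ} (hq0 : q ≠ 0) (hg : Good Y0 L W q)
    (hq : q.natAbs ≤ Qm) (h1 : r1.Prime) (h2 : r2.Prime) (h12 : r1 ≠ r2)
    (hd : ((r1 * r2 : ℕ) : ℤ) ∣ q) (b1 : Z1 ≤ r1) (b2 : Z2 ≤ r2) (c1 : r1 ≤ L) (c2 : r2 ≤ L)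
    (hQ : Qm ≤ L * L * (Z1 * Z2)) (hW : W ^ 6 ≤ L) (hY : Y0 < Z1) (hZ2 : 0 < Z2)
    (hP : Qm ≤ Pm * (Z1 * Z2)) (hLP : L ≤ Pm) :
    ∃ P M : ℕ, P.Prime ∧ q.natAbs = P * M ∧ ¬ P ∣ M ∧ Z1 ≤ P ∧ P ≤ Pm ∧
      ∀ l e : ℕ, l.Prime → l ^ e ∣ M → l ^ e ≤ L := by
  obtain ⟨g1, g2⟩ := hg
  simp only [← Nat.cast_pow, Int.natCast_dvd] at g1 g2 hd
  have hn0 : q.natAbs ≠ 0 := Int.natAbs_ne_zero.2 hq0
  generalize q.natAbs = n at *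
  have hZ : 0 < Z1 * Z2 := Nat.mul_pos (by omega) hZ2
  have hr : Z1 * Z2 ≤ r1 * r2 := Nat.mul_le_mul b1 b2
  have hco : ∀ l : ℕ, l.Prime → l ≠ r1 → l ≠ r2 → l.Coprime (r1 * r2) := fun l hl a1 a2 =>
    Nat.Coprime.mul_right ((Nat.coprime_primes hl h1).2 a1) ((Nat.coprime_primes hl h2).2 a2)
  have hbig : ∀ l l' : ℕ, l.Prime → l'.Prime → L < l → L < l' → ¬ l * l' ∣ n := by
    intro l l' hl hl' a1 a2 a3
    have a4 := Nat.le_of_dvd (Nat.pos_of_ne_zero hn0) (Nat.Coprime.mul_dvd_of_dvd_of_dvd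
      (Nat.Coprime.mul_left (hco l hl (by omega) (by omega)) (hco l' hl' (by omega) (by omega)))
      a3 hd)
    have a5 : L * L < l * l' := Nat.mul_lt_mul'' a1 a2
    have a6 : L * L * (Z1 * Z2) < l * l' * (Z1 * Z2) := Nat.mul_lt_mul_of_pos_right a5 hZ
    have a7 : l * l' * (Z1 * Z2) ≤ l * l' * (r1 * r2) := Nat.mul_le_mul_left _ hr
    omega
  have hA : ∀ l : ℕ, l.Prime → Y0 < l → ¬ l ^ 2 ∣ n := by
    intro l hl a1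
    rcases le_or_gt l L with a2 | a2
    · exact g1 l hl a1 a2
    · rw [sq]; exact hbig l l hl hl a2 a2
  have hr1 : r1 ∈ n.primeFactors :=
    Nat.mem_primeFactors.2 ⟨h1, (dvd_mul_right _ _).trans hd, hn0⟩
  obtain ⟨P, hP1, hP2⟩ := n.primeFactors.exists_max_image id ⟨r1, hr1⟩
  obtain ⟨hPp, ⟨M, hM⟩, -⟩ := Nat.mem_primeFactors.1 hP1
  have hPr : r1 ≤ P := hP2 r1 hr1
  have hPM : ¬ P ∣ M := fun h => hA P hPp (by omega) (by rw [hM, sq]; exact Nat.mul_dvd_mul_left _ h)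
  refine ⟨P, M, hPp, hM, hPM, by omega, ?_, fun l e hl he => ?_⟩
  · rcases le_or_gt P L with a2 | a2
    · omega
    · have a4 := Nat.le_of_dvd (Nat.pos_of_ne_zero hn0) (Nat.Coprime.mul_dvd_of_dvd_of_dvd
        (hco P hPp (by omega) (by omega)) ⟨M, hM⟩ hd)
      have a7 : P * (Z1 * Z2) ≤ P * (r1 * r2) := Nat.mul_le_mul_left _ hr
      exact Nat.le_of_mul_le_mul_right (by omega) hZ
  · have he' : l ^ e ∣ n := hM ▸ he.mul_left _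
    rcases le_or_gt l Y0 with a1 | a1
    · exact (g2 l e hl a1 he').trans hW
    · have a2 : e < 2 := by
        by_contra h
        exact hA l hl a1 ((pow_dvd_pow l (by omega)).trans he')
      interval_cases e
      · have := h1.pos
        simp; omega
      · rw [pow_one] at he he' ⊢
        by_contra a3
        have a4 : l ≤ P := hP2 l (Nat.mem_primeFactors.2 ⟨hl, he', hn0⟩)
        exact hbig P l hPp hl (by omega) (by omega) (hM ▸ Nat.mul_dvd_mul_left _ he)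

lemma nm_cong (a2 a1 a0 y c o m n : ℤ) :
    m ∣ nm a2 a1 a0 y (n + m - o) c - nm a2 a1 a0 y (n - o) c := by
  have h : n - o ≡ n + m - o [ZMOD m] := Int.modEq_iff_dvd.2 ⟨1, by ring⟩
  apply Int.ModEq.dvd
  unfold nm
  gcongr

lemma DD_cong (a2 a1 a0 y c o m n : ℤ) :
    m ∣ -DD a2 a1 a0 y (n + m - o) c - -DD a2 a1 a0 y (n - o) c := by
  have h : n - o ≡ n + m - o [ZMOD m] := Int.modEq_iff_dvd.2 ⟨1, by ring⟩
  apply Int.ModEq.dvd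
  unfold DD
  gcongr

/-- numerical hypotheses for the line estimate. -/
structure LinePar (Y0 L W Z1 Z2 Qm Pm T0 H1 : ℕ) (ℓ w : ℝ) : Prop where
  hQ : Qm ≤ L * L * (Z1 * Z2)
  hW : W ^ 6 ≤ L
  hY : Y0 < Z1
  hZ2 : 0 < Z2
  hP : Qm ≤ Pm * (Z1 * Z2)
  hLP : L ≤ Pm
  hT : T0 * T0 ≤ L
  hT7 : Qm ≤ T0 ^ 7
  h512 : 512 < Z1
  hH1 : H1 ≤ Z1
  hHL : (H1 : ℝ) * L ≤ ℓ
  hw0 : 0 ≤ w
  hw1 : w ≤ 1
  hδ : 1 ≤ w ^ 512 * H1
  hb : ∀ P : ℕ, Z1 ≤ P → P ≤ Pm → (ℓ / P + 1 + Real.log P) * (3 * (512 : ℕ) * √P) ≤ w ^ 512 * ℓ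

theorem line_bound {Y0 L W Z1 Z2 Qm Pm T0 H1 : ℕ} {ℓ w : ℝ}
    (par : LinePar Y0 L W Z1 Z2 Qm Pm T0 H1 ℓ w) {a2 a1 a0 : ℤ} (hI : Irr a2 a1 a0)
    (h0 : |a0| ≤ Y0) (y c o : ℤ) (hc : c ≠ 0) (hg : Good Y0 L W (qq a2 a1 a0 y c))
    (hq : (qq a2 a1 a0 y c).natAbs ≤ Qm) {r1 r2 : ℕ} (h1 : r1.Prime) (h2 : r2.Prime)
    (h12 : r1 ≠ r2) (hd : ((r1 * r2 : ℕ) : ℤ) ∣ qq a2 a1 a0 y c) (b1 : Z1 ≤ r1) (b2 : Z2 ≤ r2)
    (c1 : r1 ≤ L) (c2 : r2 ≤ L) (k : ℤ) (hk0 : k ≠ 0) (hk : |k| < Z1) {ι : Type} (F : Finset ι)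
    (φ : ι → ℤ → ℝ) (hφ : ∀ i ∈ F, (∀ n, |φ i n| ≤ 1) ∧ ∃ m : ℕ, 0 < m ∧ m ≤ L ∧ m < Z1 ∧
      ∀ n, φ i (n + m) = φ i n) (G x0 : ℝ) (hG : 1 ≤ G) (H : ℕ) (hH : 0 < H) (hHZ : H ≤ Z1)
    (s e : ℤ) (hse : (e : ℝ) - s ≤ ℓ) (S : Finset ℤ) (hS : S ⊆ Ico s e)
    (hSS : ∀ n ∈ S, (∑ i ∈ F, φ i n) = G ∧ ∃ (p : ℕ) (ν : ℤ), 0 < p ∧
      nm a2 a1 a0 y (n - o) c = k * p ∧ (p : ℤ) ∣ fv a2 a1 a0 ν ∧
      (p : ℤ) ∣ y + (n - o) * ν + c * ν ^ 2 ∧ IsCoprime (p : ℤ) (qq a2 a1 a0 y c) ∧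
      |k * ν / p - x0 - k * DD a2 a1 a0 y (n - o) c / (p * qq a2 a1 a0 y c)| ≤ 1 / (8 * H)) :
    (#S : ℝ) ≤ 4 / H * ∑ n ∈ Ico s e, ((∑ i ∈ F, φ i n) / G) ^ 2 +
      4 * (#F : ℝ) ^ 2 * (4 * w * ℓ) := by
  have hq0 := hI.qq_ne y hc
  obtain ⟨P, M, hP, hPM, hPM', hZP, hPP, hpp⟩ := fact_struct hq0 hg hq h1 h2 h12 hd b1 b2 c1 c2
    par.hQ par.hW par.hY par.hZ2 par.hP par.hLP
  have : Fact P.Prime := ⟨hP⟩
  have hM0 : 0 < M := Nat.pos_of_ne_zero (by rintro rfl; simp at hPM')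
  have hsmall : ∀ h : ℤ, h ≠ 0 → |h| < Z1 → ¬ (P : ℤ) ∣ h := fun h a1 a2 a3 =>
    a1 (Int.eq_zero_of_abs_lt_dvd a3 (by omega))
  have hP' := Nat.prime_iff_prime_int.1 hP
  have hy : ¬ (P : ℤ) ∣ y := by
    intro hy
    have a1' : (P : ℤ) ∣ qq a2 a1 a0 y c := Int.natCast_dvd.2 ⟨M, hPM⟩
    have a2' : (P : ℤ) ∣ a0 ^ 2 * c ^ 3 := by
      refine (dvd_sub (hy.mul_right (y ^ 2 - a1 * y * c + a2 * a0 * c ^ 2)) a1').trans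
        (dvd_of_eq ?_)
      rw [qq]; ring
    have := par.hY
    rcases hP'.dvd_or_dvd a2' with h | h
    · exact hsmall a0 hI.a0_ne (by omega) (hP'.dvd_of_dvd_pow h)
    · obtain ⟨c', rfl⟩ := hP'.dvd_of_dvd_pow h
      obtain ⟨y', rfl⟩ := hy
      apply hPM'
      have a3 : (P : ℤ) * P ∣ qq a2 a1 a0 (P * y') (P * c') :=
        ⟨P * qq a2 a1 a0 y' c', by simp only [qq]; ring⟩
      rw [← Nat.cast_mul, Int.natCast_dvd, hPM] at a3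
      exact Nat.dvd_of_mul_dvd_mul_left hP.pos a3
  obtain ⟨Φ, hΦ1, hΦ2⟩ := phase_exists (fun n => nm a2 a1 a0 y (n - o) c)
    (fun n => -DD a2 a1 a0 y (n - o) c) (nm_cong a2 a1 a0 y c o) (DD_cong a2 a1 a0 y c o) k par.hT
    7 M hM0 (le_trans (le_trans (Nat.le_mul_of_pos_left _ hP.pos) (hPM ▸ hq)) par.hT7) hPM' hpp
    (qq a2 a1 a0 y c) y (a2 * y * c - a0 * c ^ 2 + y * o) hPM hy (hsmall k hk0 hk)
  have hℓ : 0 ≤ ℓ := le_trans (by positivity) par.hHL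
  have hw0 := par.hw0
  refine majorant F φ G _ x0 hG (by positivity) H hH Φ _ S hS (fun h a1 a2 i hi i' hi' => ?_)
    fun n hn => ?_
  · obtain ⟨c0, G0, d1, d2, d3, d4⟩ := hΦ1 h (hsmall h a1 (by omega))
    obtain ⟨e1, m, e2, e3, e4, e5⟩ := hφ i hi
    obtain ⟨e1', m', e2', e3', e4', e5'⟩ := hφ i' hi'
    have key := vdc L H1 512 ℓ (w ^ 512) (par.h512.trans_le hZP) (par.hH1.trans hZP) par.hHL par.hδ
      (par.hb P hZP hPP) 9 w hw0 par.hw1 (by norm_num) c0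
      (fun n => (φ i n : ℂ) * ((φ i' n : ℂ) * G0 n)) d1 (by omega)
      ⟨m, fun n => φ i n, _, e3, Nat.not_dvd_of_pos_of_lt e2 (by omega), fun n => by simp only [e5],
        fun n => by simpa using e1 n,
        ⟨m', fun n => φ i' n, G0, e3', Nat.not_dvd_of_pos_of_lt e2' (by omega),
          fun n => by simp only [e5'], fun n => by simpa using e1' n, d3, fun _ => rfl⟩,
        fun _ => rfl⟩ s e hse
    refine le_trans (le_of_eq ?_) key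
    congr 1
    refine sum_congr rfl fun n _ => ?_
    rw [d4]
    push_cast
    ring
  · obtain ⟨d1, p, ν, hp, d2, d3, d4, d5, d6⟩ := hSS n hn
    refine ⟨d1, ?_⟩
    obtain ⟨-, ⟨σ, hσ⟩, t, ht⟩ := root_dvd d3 d4
    have hp' : (p : ℤ) ≠ 0 := by positivity
    obtain ⟨z, hz⟩ := hΦ2 n σ p d2 d5 ⟨k * ν, by
      simp only [d2]
      linear_combination (-k) * hσ⟩ ⟨t, by
      apply mul_left_cancel₀ hp'
      have e1 : DD a2 a1 a0 y (n - o) c * (a2 * y * c - a0 * c ^ 2 - y * (n - o)) -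
          (y ^ 2 - a1 * y * c + a0 * (n - o) * c) * qq a2 a1 a0 y c +
          nm a2 a1 a0 y (n - o) c * y ^ 2 = 0 := by
        simp only [DD, qq, nm]; ring
      rw [d2] at e1
      linear_combination -(a2 * y * c - a0 * c ^ 2 - y * (n - o)) * hσ + qq a2 a1 a0 y c * ht - e1⟩
    refine ⟨z, le_trans (le_of_eq ?_) d6⟩
    congr 1
    have e1 : (ν : ℝ) * (qq a2 a1 a0 y c : ℤ) - (DD a2 a1 a0 y (n - o) c : ℤ) = p * σ := by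
      exact_mod_cast hσ
    have e2 : ((qq a2 a1 a0 y c : ℤ) : ℝ) ≠ 0 := by exact_mod_cast hq0
    have e3 : (p : ℝ) ≠ 0 := by positivity
    rw [hz]
    field_simp
    linear_combination (-k : ℝ) * e1

end Pool.Agent.Lib.MP_d315f4_nt
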