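import Pool.Agent.Lib.MP_d315f4_nt.Red
import Pool.Agent.Lib.MP_d315f4_nt.Line

/-!
The auxiliary moduli and the bound on one line.
-/

set_option autoImplicit false
set_option maxHeartbeats 400000

open Finset

namespace Pool.Agent.Lib.MP_d315f4_nt

variable {a2 a1 a0 : ℤ}

lemma fv_cong {m x y : ℤ} (h : m ∣ x - y) (hy : m ∣ fv a2 a1 a0 y) : m ∣ fv a2 a1 a0 x := by
  have : fv a2 a1 a0 x = fv a2 a1 a0 y + (x - y) * (x ^ 2 + x * y + y ^ 2 + a2 * (x + y) + a1) := by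
    simp only [fv]; ring
  rw [this]
  exact hy.add (h.mul_right _)

lemma exists_root (I : Finset (ℕ × ℕ)) (hA : ∀ i ∈ I, i.1.Prime ∧ i.2.Prime ∧ i.1 ≠ i.2 ∧
    1 ≤ rho a2 a1 a0 i.1 ∧ 1 ≤ rho a2 a1 a0 i.2) :
    ∃ ν : ℕ × ℕ → ℤ, ∀ i ∈ I, ((i.1 * i.2 : ℕ) : ℤ) ∣ fv a2 a1 a0 (ν i) := by
  have key : ∀ i : ℕ × ℕ, ∃ ν : ℤ, i ∈ I → ((i.1 * i.2 : ℕ) : ℤ) ∣ fv a2 a1 a0 ν := by
    intro i
    by_cases hi : i ∈ I
    swap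
    · exact ⟨0, fun h => absurd h hi⟩
    obtain ⟨h1, h2, h3, h4, h5⟩ := hA i hi
    obtain ⟨x, hx⟩ := card_pos.1 h4
    obtain ⟨y, hy⟩ := card_pos.1 h5
    have hco := (Nat.coprime_primes h1 h2).2 h3
    obtain ⟨ν, b1, b2⟩ := Nat.chineseRemainder hco x y
    refine ⟨ν, fun _ => ?_⟩
    push_cast
    exact (Nat.isCoprime_iff_coprime.2 hco).mul_dvd (fv_cong b1.symm.dvd (mem_filter.1 hx).2)
      (fv_cong b2.symm.dvd (mem_filter.1 hy).2)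
  choose ν hν using key
  exact ⟨ν, hν⟩

lemma few_primes {n : ℤ} (hn : n ≠ 0) {Z1 : ℕ} (hZ : 0 < Z1) (h : |n| < Z1 ^ 10) (T : Finset ℕ)
    (hT : ∀ r ∈ T, r.Prime ∧ Z1 < r ∧ (r : ℤ) ∣ n) : #T ≤ 10 := by
  by_contra h1
  have h2 := Nat.le_of_dvd (Int.natAbs_pos.2 hn) (prod_primes_dvd (s := T) n.natAbs
    (fun r hr => (hT r hr).1.prime) fun r hr => Int.natCast_dvd.1 (hT r hr).2.2)
  have h3 := pow_card_le_prod T id Z1 fun r hr => (hT r hr).2.1.le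
  have h4 := (pow_le_pow_right₀ hZ (not_le.1 h1).le).trans (h3.trans h2)
  rw [← Int.natCast_natAbs] at h
  exact absurd h4 (not_le.2 (by exact_mod_cast h))

lemma mult_idx (hI : Irr a2 a1 a0) (j : ℤ) (I : Finset (ℕ × ℕ)) (ν : ℕ × ℕ → ℤ) {Z1 Z : ℕ}
    (hZ : 0 < Z1) (h : ∀ i ∈ I, i.1.Prime ∧ i.2.Prime ∧ Z1 < i.1 ∧ Z1 < i.2 ∧
      ((i.1 * i.2 : ℕ) : ℤ) ∣ fv a2 a1 a0 (ν i)) {H Y : ℤ} (hH : 1 ≤ H) (h2 : |s2 a2 j| ≤ H)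
    (h1 : |s1 a2 a1 j| ≤ H) (h0 : |s0 a2 a1 a0 j| ≤ H) (hY : Z + j ^ 2 * Z ≤ Y)
    (hb : 4 * (H ^ 2 * Y ^ 3) < Z1 ^ 10) :
    Mult I (fun i => i.1 * i.2) (fun i => xi a2 a1 j (ν i)) Z 100 := by
  intro z w hw hz hw1
  have b0 := mul_le_mul_of_nonneg_left hw1 (sq_nonneg j)
  have b1 : |z + j ^ 2 * w| ≤ Y := by
    refine (abs_add_le _ _).trans ?_
    rw [abs_mul, abs_sq]
    linarith
  have b2 : |w| ≤ Y := by nlinarith [sq_nonneg j, abs_nonneg w]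
  have b3 := (qq_bd hH h2 h1 h0 b1 b2).trans_lt hb
  have b4 := (hI.shift j).qq_ne (z + j ^ 2 * w) hw
  generalize hq : qq (s2 a2 j) (s1 a2 a1 j) (s0 a2 a1 a0 j) (z + j ^ 2 * w) w = q at b3 b4
  have b5 := few_primes b4 hZ b3 (q.natAbs.primeFactors.filter (Z1 < ·)) fun r hr =>
    ⟨Nat.prime_of_mem_primeFactors (mem_filter.1 hr).1, (mem_filter.1 hr).2,
      Int.natCast_dvd.2 (Nat.dvd_of_mem_primeFactors (mem_filter.1 hr).1)⟩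
  refine le_trans (card_le_card (t := q.natAbs.primeFactors.filter (Z1 < ·) ×ˢ
    q.natAbs.primeFactors.filter (Z1 < ·)) fun i hi => ?_) (by
      rw [card_product]; exact Nat.mul_le_mul b5 b5)
  obtain ⟨c1, c2, c3, c4, c5⟩ := h i (mem_filter.1 hi).1
  have c6 := Int.natCast_dvd.1 (hq ▸ qq_dvd c5 (mem_filter.1 hi).2)
  have c7 := Int.natAbs_ne_zero.2 b4
  exact mem_product.2 ⟨mem_filter.2 ⟨Nat.mem_primeFactors.2 ⟨c1, (dvd_mul_right _ _).trans c6, c7⟩,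
    c3⟩, mem_filter.2 ⟨Nat.mem_primeFactors.2 ⟨c2, (dvd_mul_left _ _).trans c6, c7⟩, c4⟩⟩

lemma small_err {k j p D q A B x K0 Qm P0 Zz H : ℝ} (hk : |k| ≤ K0) (hj : 0 ≤ j) (hP0 : 0 < P0)
    (hp : P0 ≤ p) (hD : |D| ≤ Qm) (hZ : 0 < Zz) (hq : Zz ≤ |q|) (hA : A ≤ x / p) (hB : x / p ≤ B)
    (hAB : K0 * (B - A) ≤ 1 / (16 * H)) (hsm : K0 * ((j + Qm / Zz) / P0) ≤ 1 / (16 * H)) :
    |k * (x + j) / p - k * A - k * D / (p * q)| ≤ 1 / (8 * H) := by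
  have hp0 : 0 < p := hP0.trans_le hp
  have hK : 0 ≤ K0 := (abs_nonneg _).trans hk
  have hQ : 0 ≤ Qm := (abs_nonneg _).trans hD
  have e : k * (x + j) / p - k * A - k * D / (p * q) = k * (x / p - A) + k * ((j - D / q) / p) := by
    ring
  have a1 : |k * (x / p - A)| ≤ K0 * (B - A) := by
    rw [abs_mul, abs_of_nonneg (sub_nonneg.2 hA)]
    exact mul_le_mul hk (by linarith) (by linarith) hK
  have a2 : |k * ((j - D / q) / p)| ≤ K0 * ((j + Qm / Zz) / P0) := by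
    rw [abs_mul, abs_div, abs_of_pos hp0]
    refine mul_le_mul hk (div_le_div₀ (by positivity) ((abs_sub _ _).trans ?_) hP0 hp)
      (by positivity) hK
    rw [abs_of_nonneg hj, abs_div]
    exact add_le_add le_rfl (div_le_div₀ hQ hD hZ hq)
  rw [e, show 1 / (8 * H) = 1 / (16 * H) + 1 / (16 * H) by ring]
  exact (abs_add_le _ _).trans (by linarith)

open Classical in
theorem one_line {Y0 L W Z1 Z2 Qm Pm T0 H1 N : ℕ} {w : ℝ}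
    (par : LinePar Y0 L W Z1 Z2 Qm Pm T0 H1 (2 * N + 1) w) (hI : Irr a2 a1 a0) {j : ℤ} (hj : 0 ≤ j)
    (h0 : |s0 a2 a1 a0 j| ≤ Y0) (y c : ℤ) (hc : c ≠ 0)
    (hg : Good Y0 L W (qq (s2 a2 j) (s1 a2 a1 j) (s0 a2 a1 a0 j) y c))
    (hq : |qq (s2 a2 j) (s1 a2 a1 j) (s0 a2 a1 a0 j) y c| ≤ Qm)
    (hD : ∀ b : ℤ, |b| ≤ N → |DD (s2 a2 j) (s1 a2 a1 j) (s0 a2 a1 a0 j) y (b - 2 * j * c) c| ≤ Qm)
    {r1 r2 : ℕ} (h1 : r1.Prime) (h2 : r2.Prime) (h12 : r1 ≠ r2)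
    (hd : ((r1 * r2 : ℕ) : ℤ) ∣ qq (s2 a2 j) (s1 a2 a1 j) (s0 a2 a1 a0 j) y c)
    (b1 : Z1 ≤ r1) (b2 : Z2 ≤ r2) (c1 : r1 ≤ L) (c2 : r2 ≤ L) {K0 P0 : ℕ} (A B : ℝ)
    {ι : Type} (F : Finset ι) (φ : ι → ℤ → ℤ → ℤ → ℝ) (G z : ℝ) (hG1 : 1 ≤ G)
    (hφ : ∀ S ∈ F, (∀ a b c, |φ S a b c| ≤ 1) ∧ ∃ m : ℕ, 0 < m ∧ (m : ℝ) ≤ z ∧ Per3 m (φ S))
    (hzL : z ≤ L) (hzZ : z < Z1) (P : Finset ℕ) (hP : ∀ q ∈ P, q.Prime ∧ K0 < q ∧ q ≤ P0)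
    (hG : ∀ a b c, (∀ q ∈ P, ¬ (q : ℤ) ∣ nm a2 a1 a0 a b c) → ∑ S ∈ F, φ S a b c = G)
    (H : ℕ) (hH : 0 < H) (hHZ : H ≤ Z1) (hAB : K0 * (B - A) ≤ 1 / (16 * H))
    (hsm : (K0 : ℝ) * ((j + Qm / (Z1 * Z2)) / P0) ≤ 1 / (16 * H)) (hcop : Qm ≤ P0 * (Z1 * Z2))
    (hLP : L ≤ P0) (hKZ : K0 < Z1) :
    ∑ b ∈ lin N j y c, (if InS a2 a1 a0 K0 P0 A B (y + j * b - j ^ 2 * c) b c then 1 else 0 : ℝ) ≤
      (2 * K0 + 1) * (4 / H * ∑ b ∈ lin N j y c,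
        ((∑ S ∈ F, φ S (y + j * b - j ^ 2 * c) b c) / G) ^ 2 +
        4 * (#F : ℝ) ^ 2 * (4 * w * (2 * N + 1))) := by
  rw [sum_boole]
  set S := {b ∈ lin N j y c | InS a2 a1 a0 K0 P0 A B (y + j * b - j ^ 2 * c) b c} with hS
  have hS1 : ∀ b, b ∈ S → InS a2 a1 a0 K0 P0 A B (y + j * b - j ^ 2 * c) b c :=
    fun b hb => (mem_filter.1 hb).2
  choose! p ν k d1 d2 d3 d4 d5 d6 d7 d8 d9 using hS1
  rw [card_eq_sum_card_fiberwise (f := k) (t := Icc (-(K0 : ℤ)) K0)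
    fun b hb => mem_coe.2 (mem_Icc.2 (abs_le.1 (d4 b hb))), ← card_Icc_N K0, ← nsmul_eq_mul,
    Nat.cast_sum]
  refine sum_le_card_nsmul _ _ _ fun k0 hk0 => ?_
  have hw := par.hw0
  rcases {b ∈ S | k b = k0}.eq_empty_or_nonempty with h | ⟨b0, hb0⟩
  · rw [h, card_empty, Nat.cast_zero]
    positivity
  obtain ⟨s, e, hse, hse2⟩ := lin_eq N hj y c
  have hq0 := (hI.shift j).qq_ne y hc
  have hZ1 : 0 < Z1 := by omega
  have hZ2 := par.hZ2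
  have hqZ : ((r1 * r2 : ℕ) : ℤ) ≤ |qq (s2 a2 j) (s1 a2 a1 j) (s0 a2 a1 a0 j) y c| :=
    Int.le_of_dvd (abs_pos.2 hq0) ((dvd_abs _ _).2 hd)
  rw [hse]
  refine line_bound par (hI.shift j) h0 y c (2 * j * c) hc hg (by
      rw [← Int.natCast_natAbs] at hq; exact_mod_cast hq) h1 h2 h12 hd b1 b2 c1 c2 k0
    ((mem_filter.1 hb0).2 ▸ d3 b0 (mem_filter.1 hb0).1)
    ((abs_le.2 (mem_Icc.1 hk0)).trans_lt (by exact_mod_cast hKZ)) F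
    (fun i n => φ i (y + j * n - j ^ 2 * c) n c) (fun i hi => ?_) G (k0 * A) hG1 H hH hHZ s e hse2 _
    (fun b hb => hse ▸ (mem_filter.1 (mem_filter.1 hb).1).1) fun b hb => ?_
  · obtain ⟨f1, m, f2, f3, f4⟩ := hφ i hi
    exact ⟨fun n => f1 _ _ _, m, f2, by exact_mod_cast f3.trans hzL,
      by exact_mod_cast f3.trans_lt hzZ, fun n => f4 _ _ _ _ _ _ ⟨j, by ring⟩ ⟨1, by ring⟩
        ⟨0, by ring⟩⟩
  obtain ⟨hb', rfl⟩ := mem_filter.1 hb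
  clear hb
  have hb := hb'
  have f1 := d1 b hb
  have f2 := d2 b hb
  have f3 := abs_le.2 (mem_Icc.1 (mem_filter.1 (mem_filter.1 hb).1).1)
  refine ⟨hG _ _ _ fun q hq hq1 => ?_, p b, ν b + j, f1.pos, ?_, ?_, ?_, ?_, ?_⟩
  · obtain ⟨g1, g2, g3⟩ := hP q hq
    rw [d5 b hb] at hq1
    rcases (Nat.prime_iff_prime_int.1 g1).dvd_or_dvd hq1 with h | h
    · have := Int.le_of_dvd (abs_pos.2 (d3 b hb)) ((dvd_abs _ _).2 h)
      have := d4 b hb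
      omega
    · have := (Nat.prime_dvd_prime_iff_eq g1 f1).1 (by exact_mod_cast h)
      omega
  · rw [← d5 b hb, ← nm_shift a2 a1 a0 j]
    congr 1
    ring
  · rw [fv_shift]
    exact d6 b hb
  · convert d7 b hb using 1
    ring
  · refine (Nat.prime_iff_prime_int.1 f1).coprime_iff_not_dvd.2 fun h => ?_
    have g1 : (p b).Coprime (r1 * r2) := Nat.Coprime.mul_right
      ((Nat.coprime_primes f1 h1).2 (by omega)) ((Nat.coprime_primes f1 h2).2 (by omega))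
    have g2 := (Int.le_of_dvd (abs_pos.2 hq0) ((dvd_abs _ _).2
      ((Nat.isCoprime_iff_coprime.2 g1).mul_dvd h hd))).trans hq
    have g3 : p b * (r1 * r2) ≤ Qm := by exact_mod_cast g2
    have g4 : P0 * (Z1 * Z2) < p b * (r1 * r2) :=
      Nat.mul_lt_mul_of_lt_of_le f2 (Nat.mul_le_mul b1 b2) (Nat.mul_pos h1.pos h2.pos)
    omega
  · have g1 : L ≠ 0 := by have := h1.pos; omega
    push_cast
    refine small_err (by exact_mod_cast d4 b hb) (by exact_mod_cast hj)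
      (by exact_mod_cast (by omega : 0 < P0)) (by exact_mod_cast f2.le)
      (by exact_mod_cast hD b f3) (by positivity) ?_ (d8 b hb) (d9 b hb) hAB hsm
    have : Z1 * Z2 ≤ r1 * r2 := Nat.mul_le_mul b1 b2
    exact_mod_cast le_trans (by exact_mod_cast this) hqZ

end Pool.Agent.Lib.MP_d315f4_nt
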