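import Pool.Agent.Lib.MP_d315f4_nt.Var2
import Pool.Agent.Lib.MP_d315f4_nt.Bad
import Pool.Agent.Lib.MP_502c58_co.H65Sieve2

/-!
Selberg weights on the box.
-/

set_option autoImplicit false
set_option maxHeartbeats 400000

open Finset Real

namespace Pool.Agent.Lib.MP_d315f4_nt

open Pool.Agent.Lib.MP_502c58_co.H65

/-- invariance under congruences. -/
def Per1 (m : ℕ) (g : ℤ → ℝ) : Prop := ∀ x y : ℤ, (m : ℤ) ∣ x - y → g x = g y

/-- invariance under congruences, three variables. -/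
def Per3 (m : ℕ) (F : ℤ → ℤ → ℤ → ℝ) : Prop := ∀ a b c a' b' c' : ℤ,
  (m : ℤ) ∣ a - a' → (m : ℤ) ∣ b - b' → (m : ℤ) ∣ c - c' → F a b c = F a' b' c'

lemma per_shift {m : ℕ} {g : ℤ → ℝ} (hg : Per1 m g) (s : ℤ) :
    ∑ i ∈ range m, g (s + i) = ∑ i ∈ range m, g i := by
  have h : ∀ s : ℤ, ∑ i ∈ range m, g (s + 1 + i) = ∑ i ∈ range m, g (s + i) := by
    intro s
    have h1 := sum_range_succ (fun i : ℕ => g (s + i)) m
    rw [sum_range_succ'] at h1
    have h2 : g (s + m) = g s := hg _ _ (by simp)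
    simp only [Nat.cast_zero, add_zero, h2, add_left_inj] at h1
    rw [← h1]
    refine sum_congr rfl fun i _ => ?_
    congr 1; push_cast; ring
  induction s using Int.induction_on with
  | zero => simp
  | succ n ih => rw [h, ih]
  | pred n ih => rw [← ih, ← h]; simp

lemma per_sum {m : ℕ} (hm : 0 < m) {g : ℤ → ℝ} (hg : Per1 m g) {B : ℝ} (hB : ∀ x, |g x| ≤ B)
    (s : ℤ) (l : ℕ) : |∑ i ∈ range l, g (s + i) - l / m * ∑ i ∈ range m, g i| ≤ 2 * m * B := by
  have h1 : ∀ t : ℕ, ∑ i ∈ range (m * t), g (s + i) = t * ∑ i ∈ range m, g i := by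
    intro t
    induction t with
    | zero => simp
    | succ t ih =>
      rw [mul_add, mul_one, sum_range_add, ih, ← per_shift hg (s + (m * t : ℕ))]
      push_cast
      simp only [add_assoc]
      ring
  have hm' : (0 : ℝ) < m := by exact_mod_cast hm
  have hB0 : 0 ≤ B := (abs_nonneg _).trans (hB 0)
  have h2 := Nat.div_add_mod l m
  have h3 : ((l % m : ℕ) : ℝ) ≤ m := by exact_mod_cast (Nat.mod_lt l hm).le
  generalize l / m = t at h2
  generalize l % m = r at h2 h3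
  subst h2
  rw [sum_range_add, h1]
  have h4 : |∑ i ∈ range r, g (s + (m * t + i : ℕ))| ≤ m * B :=
    (abs_sum_le_sum_abs _ _).trans ((sum_le_card_nsmul _ _ B fun _ _ => hB _).trans (by
      rw [card_range, nsmul_eq_mul]; gcongr))
  have h5 : |∑ i ∈ range m, g i| ≤ m * B :=
    (abs_sum_le_sum_abs _ _).trans ((sum_le_card_nsmul _ _ B fun _ _ => hB _).trans (by simp))
  have h6 : |r / m * ∑ i ∈ range m, g i| ≤ m * B := by
    rw [abs_mul, abs_of_nonneg (by positivity)]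
    exact (mul_le_of_le_one_left (abs_nonneg _) ((div_le_one hm').2 h3)).trans h5
  have h7 : ((m * t + r : ℕ) : ℝ) / m = t + r / m := by push_cast; field_simp
  rw [h7, abs_le] at *
  constructor <;> linarith

/-- sum over a full cube of residues. -/
noncomputable def sm (m : ℕ) (F : ℤ → ℤ → ℤ → ℝ) : ℝ :=
  ∑ a ∈ range m, ∑ b ∈ range m, ∑ c ∈ range m, F a b c

lemma box_per {m : ℕ} (hm : 0 < m) {F : ℤ → ℤ → ℤ → ℝ} (hF : Per3 m F)
    (hB : ∀ a b c, |F a b c| ≤ 1) (N : ℕ) :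
    bs N F ≤ vol N * (sm m F / m ^ 3) + 6 * m * (2 * N + 1) ^ 2 := by
  have hm' : (0 : ℝ) < m := by exact_mod_cast hm
  have b3 : ∀ a b, |∑ c ∈ range m, F a b c| ≤ m := fun a b =>
    (abs_sum_le_sum_abs _ _).trans ((sum_le_card_nsmul _ _ 1 fun _ _ => hB _ _ _).trans (by simp))
  have b2 : ∀ a, |∑ b ∈ range m, ∑ c ∈ range m, F a b c| ≤ m * m := fun a =>
    (abs_sum_le_sum_abs _ _).trans ((sum_le_card_nsmul _ _ (m : ℝ) fun _ _ => b3 _ _).trans (by simp))
  have h3 : ∀ a b, ∑ c ∈ range N, F a b (c + 1) ≤ N / m * ∑ c ∈ range m, F a b c + 2 * m := by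
    intro a b
    have := per_sum hm (g := F a b) (fun x y h => hF _ _ _ _ _ _ (by simp) (by simp) h)
      (hB a b) 1 N
    simp only [add_comm (1 : ℤ)] at this
    linarith [(abs_le.1 this).2]
  have h2 : ∀ a, ∑ b ∈ Icc (-(N : ℤ)) N, ∑ c ∈ range m, F a b c ≤
      (2 * N + 1) / m * ∑ b ∈ range m, ∑ c ∈ range m, F a b c + 2 * m * m := by
    intro a
    have := per_sum hm (g := fun b => ∑ c ∈ range m, F a b c)
      (fun x y h => sum_congr rfl fun c _ => hF _ _ _ _ _ _ (by simp) h (by simp))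
      (b3 a) (-N) (2 * N + 1)
    rw [sum_Icc_range]
    simp only [neg_add_eq_sub] at this
    push_cast at this
    linarith [(abs_le.1 this).2]
  have h1 : ∑ a ∈ Icc (-(N : ℤ)) N, ∑ b ∈ range m, ∑ c ∈ range m, F a b c ≤
      (2 * N + 1) / m * sm m F + 2 * m * (m * m) := by
    have := per_sum hm (g := fun a => ∑ b ∈ range m, ∑ c ∈ range m, F a b c)
      (fun x y h => sum_congr rfl fun b _ => sum_congr rfl fun c _ =>
        hF _ _ _ _ _ _ h (by simp) (by simp)) b2 (-N) (2 * N + 1)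
    rw [sum_Icc_range, sm]
    simp only [neg_add_eq_sub] at this
    push_cast at this
    linarith [(abs_le.1 this).2]
  calc bs N F ≤ ∑ a ∈ Icc (-(N : ℤ)) N, (N / m * ((2 * N + 1) / m *
        ∑ b ∈ range m, ∑ c ∈ range m, F a b c + 2 * m * m) + (2 * N + 1) * (2 * m)) := by
        refine sum_le_sum fun a _ => (sum_le_sum fun b _ => h3 a b).trans ?_
        rw [sum_add_distrib, ← mul_sum, sum_const, nsmul_eq_mul, card_Icc_N]
        have := h2 a
        gcongr
    _ ≤ N / m * ((2 * N + 1) / m * ((2 * N + 1) / m * sm m F + 2 * m * (m * m)) +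
        (2 * N + 1) * (2 * m * m)) + (2 * N + 1) * ((2 * N + 1) * (2 * m)) := by
        rw [sum_add_distrib, ← mul_sum, sum_add_distrib, ← mul_sum, sum_const, sum_const,
          nsmul_eq_mul, nsmul_eq_mul, card_Icc_N]
        gcongr
    _ = vol N * (sm m F / m ^ 3) + (4 * m * (N * (2 * N + 1)) + 2 * m * (2 * N + 1) ^ 2) := by
        rw [vol]; field_simp; ring
    _ ≤ _ := by
        have : (N : ℝ) * (2 * N + 1) ≤ (2 * N + 1) ^ 2 := by
          have : (0 : ℝ) ≤ N := by positivity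
          nlinarith
        nlinarith

lemma crt1 {a b : ℕ} (hab : a.Coprime b) (ha : 0 < a) (hb : 0 < b) {f g : ℤ → ℝ} (hf : Per1 a f)
    (hg : Per1 b g) :
    ∑ x ∈ range (a * b), f x * g x = (∑ x ∈ range a, f x) * ∑ x ∈ range b, g x :=
  sum_range_mul_coprime hab ha hb (fun x => f x) (fun x => g x)
    (fun x => hf _ _ (by push_cast; exact Int.dvd_self_sub_emod))
    (fun x => hg _ _ (by push_cast; exact Int.dvd_self_sub_emod))

lemma crt3 {m n : ℕ} (h : m.Coprime n) (hm : 0 < m) (hn : 0 < n) {F G : ℤ → ℤ → ℤ → ℝ}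
    (hF : Per3 m F) (hG : Per3 n G) :
    sm (m * n) (fun a b c => F a b c * G a b c) = sm m F * sm n G := by
  unfold sm
  rw [← crt1 h hm hn (f := fun a => ∑ b ∈ range m, ∑ c ∈ range m, F a b c)
    (g := fun a => ∑ b ∈ range n, ∑ c ∈ range n, G a b c)
    (fun x y h => sum_congr rfl fun b _ => sum_congr rfl fun c _ =>
        hF _ _ _ _ _ _ h (by simp) (by simp))
    (fun x y h => sum_congr rfl fun b _ => sum_congr rfl fun c _ =>
        hG _ _ _ _ _ _ h (by simp) (by simp))]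
  refine sum_congr rfl fun a _ => ?_
  rw [← crt1 h hm hn (f := fun b => ∑ c ∈ range m, F a b c) (g := fun b => ∑ c ∈ range n, G a b c)
    (fun x y h => sum_congr rfl fun c _ => hF _ _ _ _ _ _ (by simp) h (by simp))
    (fun x y h => sum_congr rfl fun c _ => hG _ _ _ _ _ _ (by simp) h (by simp))]
  refine sum_congr rfl fun b _ => ?_
  exact crt1 h hm hn (f := F a b) (g := G a b)
    (fun x y h => hF _ _ _ _ _ _ (by simp) (by simp) h)
    (fun x y h => hG _ _ _ _ _ _ (by simp) (by simp) h)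

lemma per_prod (V : Finset ℕ) (ψ : ℕ → ℤ → ℤ → ℤ → ℝ) (h : ∀ q ∈ V, Per3 q (ψ q)) :
    Per3 (∏ q ∈ V, q) fun a b c => ∏ q ∈ V, ψ q a b c := by
  intro a b c a' b' c' h1 h2 h3
  refine prod_congr rfl fun q hq => ?_
  have : (q : ℤ) ∣ (∏ q ∈ V, q : ℕ) := Int.natCast_dvd_natCast.2 (dvd_prod_of_mem _ hq)
  exact h q hq _ _ _ _ _ _ (this.trans h1) (this.trans h2) (this.trans h3)

lemma sm_prod (V : Finset ℕ) (hV : ∀ q ∈ V, q.Prime) (ψ : ℕ → ℤ → ℤ → ℤ → ℝ)
    (h : ∀ q ∈ V, Per3 q (ψ q)) :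
    sm (∏ q ∈ V, q) (fun a b c => ∏ q ∈ V, ψ q a b c) = ∏ q ∈ V, sm q (ψ q) := by
  induction V using Finset.induction_on with
  | empty => simp [sm]
  | insert a V ha ih =>
    have hV' : ∀ q ∈ V, q.Prime := fun q hq => hV q (mem_insert_of_mem hq)
    have h' : ∀ q ∈ V, Per3 q (ψ q) := fun q hq => h q (mem_insert_of_mem hq)
    have hpa := hV a (mem_insert_self _ _)
    simp only [prod_insert ha]
    rw [← ih hV' h']
    refine crt3 ?_ hpa.pos (prod_pos fun q hq => (hV' q hq).pos) (h a (mem_insert_self _ _))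
      (per_prod V ψ h')
    refine Nat.Coprime.prod_right fun q hq => (Nat.coprime_primes hpa (hV' q hq)).2 ?_
    rintro rfl; exact ha hq

variable (a2 a1 a0 : ℤ)

/-- density of the zeros of the norm form. -/
noncomputable def dens (q : ℕ) : ℝ :=
  sm q (fun a b c => if (q : ℤ) ∣ nm a2 a1 a0 a b c then 1 else 0) / q ^ 3

/-- local factor of the weights. -/
noncomputable def chi (q : ℕ) (a b c : ℤ) : ℝ :=
  if (q : ℤ) ∣ nm a2 a1 a0 a b c then -1 else dens a2 a1 a0 q / (1 - dens a2 a1 a0 q)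

/-- number of roots modulo `q`. -/
def rho (q : ℕ) : ℕ := #((range q).filter fun ν : ℕ => (q : ℤ) ∣ fv a2 a1 a0 ν)

lemma card_roots_le {q : ℕ} (hq : q.Prime) : rho a2 a1 a0 q ≤ 3 := by
  by_contra hc
  obtain ⟨a, ha, b, hb, c, hc, d, hd, h⟩ := three_lt_card.1 (not_le.1 hc)
  simp only [mem_filter, mem_range] at ha hb hc hd
  have h2 := vander (e2 := a2) (e1 := a1) (e0 := a0) (Nat.prime_iff_prime_int.1 hq) 0
    (a := a) (b := b) (c := c) (d := d) (by simpa using ha.2) (by simpa using hb.2)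
    (by simpa using hc.2) (by simpa using hd.2)
  simp only [zero_add, pow_one] at h2
  have key : ∀ x y : ℕ, x < q → y < q → (q : ℤ) ∣ x - y → x = y := fun x y hx hy h => by
    have := Int.eq_zero_of_abs_lt_dvd h (by rw [abs_lt]; omega)
    omega
  rcases h2 with h2 | h2 | h2 | h2 | h2 | h2 <;> have := key _ _ (by omega) (by omega) h2 <;> tauto

lemma nm_per (q : ℕ) {a b c a' b' c' : ℤ} (h1 : (q : ℤ) ∣ a - a') (h2 : (q : ℤ) ∣ b - b')
    (h3 : (q : ℤ) ∣ c - c') : (q : ℤ) ∣ nm a2 a1 a0 a b c ↔ (q : ℤ) ∣ nm a2 a1 a0 a' b' c' := by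
  apply dvd_iff_dvd_of_dvd_sub
  rw [← Int.modEq_iff_dvd] at *
  unfold nm
  gcongr

lemma dens_eq (q : ℕ) : dens a2 a1 a0 q = (∑ c ∈ range q, ∑ b ∈ range q,
    (#((range q).filter fun a : ℕ => (q : ℤ) ∣ nm a2 a1 a0 a b c) : ℝ)) / q ^ 3 := by
  rw [dens, sm]
  congr 1
  simp only [card_filter]
  push_cast
  rw [sum_congr rfl fun a _ => sum_comm, sum_comm]
  exact sum_congr rfl fun c _ => sum_comm

lemma dens_nonneg (q : ℕ) : 0 ≤ dens a2 a1 a0 q := by rw [dens_eq]; positivity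

lemma dens_le {q : ℕ} (hq : q.Prime) : dens a2 a1 a0 q ≤ 3 / q := by
  have hq' : (0 : ℝ) < q := by exact_mod_cast hq.pos
  rw [dens_eq, div_le_div_iff₀ (by positivity) hq']
  have : ∑ c ∈ range q, ∑ b ∈ range q, (#((range q).filter fun a : ℕ => (q : ℤ) ∣ nm a2 a1 a0 a b c) : ℝ) ≤
      q * (q * 3) := by
    refine (sum_le_card_nsmul _ _ (q * 3 : ℝ) fun c _ =>
      (sum_le_card_nsmul _ _ 3 fun b _ => ?_).trans (by simp)).trans (by simp)
    have := card_roots_le (-(a2 * b) + (a2 ^ 2 - 2 * a1) * c)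
      (a1 * b ^ 2 + (3 * a0 - a2 * a1) * b * c + (a1 ^ 2 - 2 * a2 * a0) * c ^ 2)
      (-(a0 * b ^ 3) + a2 * a0 * b ^ 2 * c - a1 * a0 * b * c ^ 2 + a0 ^ 2 * c ^ 3) hq
    rw [rho] at this
    refine le_trans (le_of_eq ?_) (Nat.cast_le.2 this)
    congr 3
    funext a
    simp only [nm, fv]
    congr 1
    ring
  nlinarith

lemma dens_ge {q : ℕ} (hq : q.Prime) : rho a2 a1 a0 q / q - 27 / q ^ 2 ≤ dens a2 a1 a0 q := by
  have hq' : (0 : ℝ) < q := by exact_mod_cast hq.pos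
  have hq0 : (q : ℤ) ≠ 0 := by exact_mod_cast hq.ne_zero
  have hρ : (rho a2 a1 a0 q : ℝ) ≤ 3 := by exact_mod_cast card_roots_le a2 a1 a0 hq
  set Rt := ((range q).filter fun ν : ℕ => (q : ℤ) ∣ fv a2 a1 a0 ν) with hRt
  have hR : #Rt = rho a2 a1 a0 q := rfl
  have h1 : ∀ c : ℕ, (rho a2 a1 a0 q : ℝ) * q - 27 ≤ ∑ b ∈ range q,
      (#((range q).filter fun a : ℕ => (q : ℤ) ∣ nm a2 a1 a0 a b c) : ℝ) := by
    intro c
    set Bd := (Rt ×ˢ Rt).image fun x : ℕ × ℕ => ((-(c * (x.1 + x.2) : ℤ)) % q).toNat with hBd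
    have a1' : (#Bd : ℝ) ≤ 9 := by
      have := card_image_le (s := Rt ×ˢ Rt)
        (f := fun x : ℕ × ℕ => ((-(c * (x.1 + x.2) : ℤ)) % q).toNat)
      rw [card_product, hR, ← hBd] at this
      have h2 : (#Bd : ℝ) ≤ rho a2 a1 a0 q * rho a2 a1 a0 q := by exact_mod_cast this
      nlinarith [(Nat.cast_nonneg _ : (0 : ℝ) ≤ rho a2 a1 a0 q)]
    have a2' : ∀ b ∈ range q \ Bd, (rho a2 a1 a0 q : ℝ) ≤
        #((range q).filter fun a : ℕ => (q : ℤ) ∣ nm a2 a1 a0 a b c) := by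
      intro b hb
      obtain ⟨b1, b2⟩ := mem_sdiff.1 hb
      rw [← hR, Nat.cast_le]
      have hto : ∀ x : ℤ, (((x % q).toNat : ℕ) : ℤ) = x % q := fun x =>
        Int.toNat_of_nonneg (Int.emod_nonneg _ hq0)
      refine card_le_card_of_injOn (fun ν => ((-(b * ν + c * ν ^ 2 : ℤ)) % q).toNat)
        (fun ν hν => ?_) fun ν hν ν' hν' h => ?_
      · simp only [coe_filter, mem_range, Set.mem_ofPred_eq]
        refine ⟨?_, (root_dvd (mem_filter.1 hν).2 ?_).1⟩
        · have := Int.emod_lt_of_pos (-(b * ν + c * ν ^ 2 : ℤ)) (show (0 : ℤ) < q by omega)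
          omega
        · rw [hto]
          exact (Int.dvd_emod_sub_self (x := -(b * ν + c * ν ^ 2 : ℤ))).trans (dvd_of_eq (by ring))
      · have h2 := congrArg (Nat.cast : ℕ → ℤ) h
        simp only [hto] at h2
        have h3 : (q : ℤ) ∣ (ν - ν') * (b + c * (ν + ν')) :=
          (Int.ModEq.dvd h2).trans (dvd_of_eq (by ring))
        have c1 := mem_range.1 (mem_filter.1 hν).1
        have c2 := mem_range.1 (mem_filter.1 hν').1
        rcases (Nat.prime_iff_prime_int.1 hq).dvd_or_dvd h3 with h4 | h4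
        · have := Int.eq_zero_of_abs_lt_dvd h4 (by rw [abs_lt]; omega)
          omega
        · exfalso
          apply b2
          refine mem_image.2 ⟨(ν, ν'), mem_product.2 ⟨hν, hν'⟩, ?_⟩
          have c3 := mem_range.1 b1
          have c4 : (-(c * (ν + ν') : ℤ)) % q = b % q :=
            Int.modEq_iff_dvd.2 (h4.trans (dvd_of_eq (by ring)))
          simp only
          rw [c4, Int.emod_eq_of_lt (by omega) (by omega), Int.toNat_natCast]
    have a3 : (q : ℝ) - 9 ≤ #(range q \ Bd) := by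
      have := le_card_sdiff Bd (range q)
      rw [card_range] at this
      have h2 : (q : ℝ) ≤ #(range q \ Bd) + #Bd := by exact_mod_cast (by omega)
      linarith
    calc _ ≤ (#(range q \ Bd) : ℝ) * rho a2 a1 a0 q := by
          nlinarith [(Nat.cast_nonneg _ : (0 : ℝ) ≤ rho a2 a1 a0 q)]
      _ ≤ _ := by
          rw [← nsmul_eq_mul]
          exact (card_nsmul_le_sum _ _ _ a2').trans
            (sum_le_sum_of_subset_of_nonneg sdiff_subset fun _ _ _ => by positivity)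
  have h2 := card_nsmul_le_sum (range q) _ _ fun c _ => h1 c
  rw [card_range, nsmul_eq_mul] at h2
  rw [dens_eq, le_div_iff₀ (by positivity)]
  refine le_trans (le_of_eq ?_) h2
  field_simp

end Pool.Agent.Lib.MP_d315f4_nt
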