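import Pool.Agent.Lib.MP_d315f4_nt.NF2
import Pool.Agent.Lib.MP_d315f4_nt.Sieve

/-!
Prime ideals of degree one and roots of the cubic.
-/

set_option autoImplicit false
set_option maxHeartbeats 400000

open Finset NumberField Filter Topology Ideal Polynomial

namespace Pool.Agent.Lib.MP_d315f4_nt

variable {a2 a1 a0 : ℤ}

lemma from_basis {K : Type} [Field K] [NumberField K] (B : PowerBasis ℚ K) (θ : 𝓞 K)
    (hθ : algebraMap (𝓞 K) K θ = B.gen) : ∃ D : ℕ, 0 < D ∧
      ∀ z : 𝓞 K, ∃ g : ℤ[X], (D : 𝓞 K) * z = aeval θ g := by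
  have hint : IsIntegral ℤ B.gen := hθ ▸ θ.isIntegral_coe
  obtain ⟨d, hd1⟩ := IsIntegrallyClosed.algebraMap_eq_of_integral (R := ℤ) (K := ℚ)
    (Algebra.discr_isIntegral ℚ (b := B.basis) fun i => by
      rw [B.basis_eq_pow]; exact hint.pow _)
  have hd0 : d ≠ 0 := by
    rintro rfl
    exact Algebra.discr_not_zero_of_basis ℚ B.basis (by rw [← hd1, map_zero])
  refine ⟨(d ^ 2).toNat, ?_, fun z => ?_⟩
  · have : 0 < d ^ 2 := by positivity
    omega
  have h := Algebra.discr_mul_isIntegral_mem_adjoin ℚ (B := B) hint z.isIntegral_coe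
  rw [Algebra.adjoin_singleton_eq_range_aeval] at h
  obtain ⟨q, hq⟩ := h
  refine ⟨C d * q, RingOfIntegers.coe_injective ?_⟩
  rw [← aeval_algebraMap_apply, map_mul, map_mul, map_natCast, ← Int.cast_natCast,
    Int.toNat_of_nonneg (sq_nonneg d), hθ]
  change _ = _ * (aeval B.gen).toRingHom q
  rw [hq, ← hd1, Algebra.smul_def]
  simp [sq, mul_assoc]

lemma exists_field (hI : Irr a2 a1 a0) : ∃ (K : Type) (_ : Field K) (_ : NumberField K)
    (θ : 𝓞 K) (D : ℕ), Module.finrank ℤ (𝓞 K) = 3 ∧ fv (a2 : 𝓞 K) a1 a0 θ = 0 ∧ 0 < D ∧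
      ∀ z : 𝓞 K, ∃ g : ℤ[X], (D : 𝓞 K) * z = aeval θ g := by
  obtain ⟨g, hg⟩ : ∃ g : ℚ[X], g = X ^ 3 + C (a2 : ℚ) * X ^ 2 + C (a1 : ℚ) * X + C (a0 : ℚ) :=
    ⟨_, rfl⟩
  have hd : g.natDegree = 3 := by rw [hg]; compute_degree!
  have hg0 : g ≠ 0 := by rintro rfl; simp at hd
  have hirr : Irreducible g := by
    rw [irreducible_iff_roots_eq_zero_of_degree_le_three (by omega) (by omega),
      Multiset.eq_zero_iff_forall_notMem]
    intro r hr
    have h1 : r ^ 3 + a2 * r ^ 2 + a1 * r + a0 = 0 := by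
      simpa [hg] using (mem_roots hg0).1 hr
    apply hI r.num r.den (by simp)
    have h2 : (r.num : ℚ) = r * r.den := by simp
    have : ((hom a2 a1 a0 r.num r.den : ℤ) : ℚ) = 0 := by
      simp only [hom]
      push_cast
      rw [h2]
      linear_combination (r.den : ℚ) ^ 3 * h1
    exact_mod_cast this
  have : Fact (Irreducible g) := ⟨hirr⟩
  have hr : fv (a2 : AdjoinRoot g) a1 a0 (AdjoinRoot.root g) = 0 := by
    have h := congrArg (eval₂ (AdjoinRoot.of g) (AdjoinRoot.root g)) hg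
    rw [AdjoinRoot.eval₂_root g] at h
    rw [fv, h]
    simp only [eval₂_add, eval₂_mul, eval₂_pow, eval₂_C, eval₂_X]
    simp only [map_intCast]
  have key : ∀ inst : Algebra ℚ (AdjoinRoot g), ∃ B : PowerBasis ℚ (AdjoinRoot g),
      B.gen = AdjoinRoot.root g ∧ B.dim = 3 := by
    intro inst
    obtain rfl : inst = AdjoinRoot.instAlgebra g := Subsingleton.elim _ _
    exact ⟨AdjoinRoot.powerBasis hg0, rfl, hd⟩
  obtain ⟨B, hB1, hB2⟩ := key DivisionRing.toRatAlgebra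
  rw [← hB1] at hr
  have hint : IsIntegral ℤ B.gen :=
    ⟨X ^ 3 + C a2 * X ^ 2 + C a1 * X + C a0, by monicity!, by
      rw [← hr, fv]
      simp only [eval₂_add, eval₂_mul, eval₂_pow, eval₂_C, eval₂_X]
      simp only [eq_intCast]⟩
  obtain ⟨D, hD, hz⟩ := from_basis B ⟨_, hint⟩ rfl
  refine ⟨AdjoinRoot g, inferInstance, inferInstance, ⟨_, hint⟩, D, ?_, ?_, hD, hz⟩
  · rw [RingOfIntegers.rank, B.finrank, hB2]
  · apply RingOfIntegers.coe_injective
    rw [map_zero, ← hr]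
    simp [fv]

lemma exists_hom {K : Type} [Field K] [NumberField K] {P : Ideal (𝓞 K)} {p : ℕ} (hp : p.Prime)
    (h : absNorm P = p) : ∃ φ : 𝓞 K →+* ZMod p, RingHom.ker φ = P := by
  rw [absNorm_apply, Submodule.cardQuot_apply] at h
  have : Finite (𝓞 K ⧸ P) := Nat.finite_of_card_ne_zero (h ▸ hp.ne_zero)
  have := Fintype.ofFinite (𝓞 K ⧸ P)
  rw [Nat.card_eq_fintype_card] at h
  refine ⟨(ZMod.ringEquivOfPrime _ hp h).symm.toRingHom.comp (Ideal.Quotient.mk P), ?_⟩
  ext z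
  simp [RingHom.mem_ker, Ideal.Quotient.eq_zero_iff_mem]

lemma root_mem {K : Type} [Field K] [NumberField K] {θ : 𝓞 K} (hθ : fv (a2 : 𝓞 K) a1 a0 θ = 0)
    {p : ℕ} (hp : p.Prime) (φ : 𝓞 K →+* ZMod p) :
    (φ θ).val ∈ (range p).filter fun ν : ℕ => (p : ℤ) ∣ fv a2 a1 a0 ν := by
  have : NeZero p := ⟨hp.ne_zero⟩
  refine mem_filter.2 ⟨mem_range.2 (ZMod.val_lt _), ?_⟩
  rw [← ZMod.intCast_zmod_eq_zero_iff_dvd]
  simpa [fv] using congrArg φ hθ

lemma card_deg_one {K : Type} [Field K] [NumberField K] {θ : 𝓞 K} {D : ℕ}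
    (hθ : fv (a2 : 𝓞 K) a1 a0 θ = 0) (hz : ∀ z : 𝓞 K, ∃ g : ℤ[X], (D : 𝓞 K) * z = aeval θ g)
    {p : ℕ} (hp : p.Prime) (hD : ¬ p ∣ D) (T : Finset (Ideal (𝓞 K))) :
    #{P ∈ T | absNorm P = p} ≤ rho a2 a1 a0 p := by
  have : Fact p.Prime := ⟨hp⟩
  rcases {P ∈ T | absNorm P = p}.eq_empty_or_nonempty with h0 | ⟨P0, h0⟩
  · simp [h0]
  have : Nonempty (𝓞 K →+* ZMod p) := ⟨(exists_hom hp (mem_filter.1 h0).2).choose⟩
  choose! φ hφ using fun P : Ideal (𝓞 K) => exists_hom (P := P) hp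
  refine card_le_card_of_injOn (fun P => (φ P θ).val) (fun P _ => root_mem hθ hp _)
    fun P hP Q hQ h => ?_
  have h1 := ZMod.val_injective p h
  rw [← hφ P (mem_filter.1 hP).2, ← hφ Q (mem_filter.1 hQ).2]
  congr 1
  ext z
  obtain ⟨g, hg⟩ := hz z
  have e : ∀ ψ : 𝓞 K →+* ZMod p, (D : ZMod p) * ψ z = aeval (ψ θ) g := fun ψ => by
    rw [← map_natCast ψ, ← map_mul, hg]
    exact (aeval_algHom_apply ψ.toIntAlgHom θ g).symm
  refine mul_left_cancel₀ ((ZMod.natCast_eq_zero_iff D p).not.2 hD) ?_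
  rw [e, e, h1]

lemma harm_lower (n : ℕ) : Real.log (n + 2) - 1 ≤ ∑ m ∈ Icc 1 n, (1 / (m + 1) : ℝ) := by
  induction n with
  | zero => simpa using (Real.log_le_sub_one_of_pos two_pos).trans (by norm_num)
  | succ n ih =>
    rw [sum_Icc_succ_top (by omega)]
    have h := Real.log_le_sub_one_of_pos (x := (n + 3) / (n + 2)) (by positivity)
    rw [Real.log_div (by positivity) (by positivity),
      show ((n : ℝ) + 3) / (n + 2) - 1 = 1 / (n + 1 + 1) by field_simp; ring] at h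
    push_cast
    rw [show (n : ℝ) + 1 + 2 = n + 3 by ring]
    linarith

lemma sum_ite_lt (s : Finset ℕ) (B : ℕ) {x : ℝ} (hx : 0 ≤ x) :
    ∑ m ∈ s, (if m < B then x else 0) ≤ B * x := by
  rw [← sum_filter, sum_const, nsmul_eq_mul]
  refine mul_le_mul_of_nonneg_right ?_ hx
  exact_mod_cast (card_le_card fun m hm => mem_range.2 (mem_filter.1 hm).2).trans
    (card_range B).le

lemma inv_sq_le {p : ℝ} (hp : 2 ≤ p) : 1 / p ^ 2 ≤ 2 * (Real.log p / p ^ 2) := by
  rw [← mul_div_assoc]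
  refine div_le_div_of_nonneg_right ?_ (by positivity)
  linarith [Real.log_two_gt_d9, Real.log_le_log two_pos hp]

theorem mertens_rho (hI : Irr a2 a1 a0) (K1 : ℕ) : ∃ c : ℝ, 0 < c ∧ ∀ᶠ n : ℕ in atTop,
    c * Real.log n ≤ Real.exp (∑ q ∈ (Ioc K1 n).filter Nat.Prime,
      (rho a2 a1 a0 q / q - 27 / q ^ 2 : ℝ)) := by
  classical
  obtain ⟨K, _, _, θ, D, h3, hθ, hD, hz⟩ := exists_field hI
  obtain ⟨κ, hκ, ht⟩ := idl_tendsto K
  obtain ⟨y0, hy0⟩ := eventually_atTop.1 ((ht.comp tendsto_natCast_atTop_atTop).eventually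
    (lt_mem_nhds (half_lt_self hκ)))
  refine ⟨κ / 4 * Real.exp (-(576 + (K1 + D + 1 : ℕ) * 3)), by positivity, ?_⟩
  filter_upwards [(Real.tendsto_log_atTop.comp tendsto_natCast_atTop_atTop).eventually
    (eventually_ge_atTop (2 * (y0 + 1 : ℝ))), eventually_gt_atTop 0] with n hn hn0
  have h1 : κ / 4 * Real.log n ≤ ∑ I ∈ idl K n, (1 / absNorm I : ℝ) := by
    refine le_trans ?_ (harmonic_lower n)
    have a1 : ∀ m ∈ Icc 1 n, κ / 2 * (1 / (m + 1)) - (if m < y0 then κ / 2 else 0) ≤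
        (#(idl K m) : ℝ) / (m * (m + 1)) := by
      intro m hm
      have b1 : (1 : ℝ) ≤ m := by exact_mod_cast (mem_Icc.1 hm).1
      split_ifs with h
      · refine le_trans (sub_nonpos.2 (mul_le_of_le_one_right (by positivity) ?_)) (by positivity)
        rw [div_le_one (by positivity)]
        linarith
      · rw [sub_zero, ← div_div, mul_one_div]
        exact div_le_div_of_nonneg_right (hy0 m (not_lt.1 h)).le (by positivity)
    refine le_trans ?_ (sum_le_sum a1)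
    rw [sum_sub_distrib, ← mul_sum]
    have a2 := sum_ite_lt (Icc 1 n) y0 (half_pos hκ).le
    have a3 := harm_lower n
    have a4 : Real.log n ≤ Real.log (n + 2) := Real.log_le_log (by positivity) (by linarith)
    simp only [Function.comp] at hn
    nlinarith
  have h2 : ∑ P ∈ prm K n, (1 / absNorm P + 2 / (absNorm P : ℝ) ^ 2) ≤
      ∑ P ∈ prm K n with (absNorm P).Prime, (1 / absNorm P : ℝ) + 144 := by
    have a2 := sum_lq_prime h3 (prm K n) fun P hP => (mem_prm.1 hP).1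
    rw [sum_filter]
    refine le_trans (sum_le_sum fun P hP => ?_) (by rw [sum_add_distrib, ← mul_sum]; linarith :
      ∑ P ∈ prm K n, ((if (absNorm P).Prime then (1 / absNorm P : ℝ) else 0) + 6 *
        (Real.log (absNorm P).minFac / ((absNorm P).minFac : ℝ) ^ 2)) ≤ _)
    obtain ⟨b1, b2, -, b4⟩ := norm_cases h3 (mem_prm.1 hP).1
    have b5 := inv_sq_le b1
    have b6 : 2 / (absNorm P : ℝ) ^ 2 ≤ 2 * (1 / ((absNorm P).minFac : ℝ) ^ 2) := by
      rw [mul_one_div]; gcongr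
    split_ifs with h
    · have : 0 ≤ 1 / ((absNorm P).minFac : ℝ) ^ 2 := by positivity
      linarith
    · have : (1 / absNorm P : ℝ) ≤ 1 / ((absNorm P).minFac : ℝ) ^ 2 :=
        one_div_le_one_div_of_le (by positivity) (b4 h)
      linarith
  have h4 : ∑ P ∈ prm K n with (absNorm P).Prime, (1 / absNorm P : ℝ) ≤
      ∑ q ∈ (Ioc K1 n).filter Nat.Prime, (rho a2 a1 a0 q / q : ℝ) + (K1 + D + 1 : ℕ) * 3 := by
    rw [← sum_fiberwise_of_maps_to (g := fun P => absNorm P) (t := (Ioc 0 n).filter Nat.Prime)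
      fun P hP => mem_filter.2 ⟨mem_Ioc.2 ⟨(mem_filter.1 hP).2.pos,
        by exact_mod_cast (mem_prm.1 (mem_filter.1 hP).1).2⟩, (mem_filter.1 hP).2⟩]
    have a1 : ∑ q ∈ (Ioc 0 n).filter Nat.Prime, (if K1 < q then rho a2 a1 a0 q / q else 0 : ℝ) =
        ∑ q ∈ (Ioc K1 n).filter Nat.Prime, (rho a2 a1 a0 q / q : ℝ) := by
      rw [← sum_filter]
      congr 1
      ext q
      simp only [mem_filter, mem_Ioc]
      exact ⟨fun h => ⟨⟨h.2, h.1.1.2⟩, h.1.2⟩, fun h => ⟨⟨⟨by omega, h.1.2⟩, h.2⟩, h.1.1⟩⟩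
    refine le_trans ?_ (add_le_add a1.le (sum_ite_lt ((Ioc 0 n).filter Nat.Prime) _ (by norm_num)))
    rw [← sum_add_distrib]
    refine sum_le_sum fun p hp => ?_
    have b1 := (mem_filter.1 hp).2
    have b2 : (1 : ℝ) ≤ p := by exact_mod_cast b1.pos
    rw [sum_congr rfl (g := fun _ => (1 / p : ℝ)) fun P hP => by rw [(mem_filter.1 hP).2],
      sum_const, nsmul_eq_mul, mul_one_div]
    by_cases h : p < K1 + D + 1
    · rw [if_pos h]
      refine le_add_of_nonneg_of_le (by positivity) ((div_le_self (by positivity) b2).trans ?_)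
      refine le_trans (Nat.cast_le.2 (card_le_card fun P hP => ?_)) (by
        exact_mod_cast card_over h3 (prm K n) (fun P hP => (mem_prm.1 hP).1) p)
      exact mem_filter.2 ⟨(mem_filter.1 (mem_filter.1 hP).1).1, by
        rw [(mem_filter.1 hP).2, b1.minFac_eq]⟩
    · rw [if_neg h, if_pos (by omega), add_zero]
      gcongr
      exact card_deg_one hθ hz b1 (Nat.not_dvd_of_pos_of_lt hD (by omega)) _
  have h5 : ∑ q ∈ (Ioc K1 n).filter Nat.Prime, (27 / q ^ 2 : ℝ) ≤ 432 := by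
    have a1 := sum_lq (n + 1)
    refine le_trans (sum_le_sum fun q hq => ?_) (le_trans (sum_le_sum_of_subset_of_nonneg
      (f := fun q : ℕ => 54 * (Real.log q / (q : ℝ) ^ 2)) (t := range (n + 1))
      (fun q hq => mem_range.2 (Nat.lt_succ_of_le (mem_Ioc.1 (mem_filter.1 hq).1).2))
      fun q _ _ => mul_nonneg (by norm_num) (div_nonneg (Real.log_natCast_nonneg _)
        (by positivity))) (by rw [← mul_sum]; linarith))
    have := inv_sq_le (p := q) (by exact_mod_cast (mem_filter.1 hq).2.two_le)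
    rw [div_eq_mul_one_div]
    linarith
  rw [mul_right_comm, Real.exp_neg, ← div_eq_mul_inv, div_le_iff₀ (Real.exp_pos _), ← Real.exp_add]
  refine h1.trans ((euler_le n).trans (Real.exp_le_exp.2 ?_))
  rw [sum_sub_distrib]
  linarith

theorem window (hI : Irr a2 a1 a0) (α β : ℕ) (hαβ : α < β) : ∃ c : ℝ, 0 < c ∧ ∀ᶠ U : ℕ in atTop,
    c ≤ ∑ p ∈ (Ioc (U ^ α) (U ^ β)).filter fun p => p.Prime ∧ 1 ≤ rho a2 a1 a0 p,
      (1 / p : ℝ) := by
  classical
  obtain ⟨K, _, _, θ, D, h3, hθ, -, -⟩ := exists_field hI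
  obtain ⟨c, C, hc, h⟩ := window_ideal h3 α β hαβ
  have hβ : (0 : ℝ) < β := by exact_mod_cast (by omega : 0 < β)
  refine ⟨c / (6 * β), by positivity, ?_⟩
  filter_upwards [tendsto_natCast_atTop_atTop.eventually h,
    (Real.tendsto_log_atTop.comp tendsto_natCast_atTop_atTop).eventually
    (eventually_ge_atTop (2 * (C + 72) / c)), eventually_gt_atTop 1] with U h1 h2 hU
  have hl : 0 < Real.log U := Real.log_pos (by exact_mod_cast hU)
  set A := (Ioc (U ^ α) (U ^ β)).filter fun p => p.Prime ∧ 1 ≤ rho a2 a1 a0 p with hA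
  set T := {P ∈ prm K (U ^ β) | (U : ℝ) ^ α < absNorm P} with hT
  have hTp : ∀ P ∈ T, Prime P := fun P hP => (mem_prm.1 (mem_filter.1 hP).1).1
  have h4 : ∑ P ∈ T with ¬ (absNorm P).Prime, Real.log (absNorm P) / absNorm P ≤ 72 := by
    have a2 := sum_lq_prime h3 {P ∈ T | ¬ (absNorm P).Prime} fun P hP => hTp P (mem_filter.1 hP).1
    refine le_trans (sum_le_sum fun P hP => ?_) (by rw [← mul_sum]; linarith :
      ∑ P ∈ T with ¬ (absNorm P).Prime,
        3 * (Real.log (absNorm P).minFac / ((absNorm P).minFac : ℝ) ^ 2) ≤ _)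
    obtain ⟨b1, -, b3, b4⟩ := norm_cases h3 (hTp P (mem_filter.1 hP).1)
    rw [← mul_div_assoc]
    exact div_le_div₀ (mul_nonneg (by norm_num) (Real.log_natCast_nonneg _)) b3 (by positivity)
      (b4 (mem_filter.1 hP).2)
  have h5 : ∑ P ∈ T with (absNorm P).Prime, Real.log (absNorm P) / absNorm P ≤
      3 * (β * Real.log U) * ∑ p ∈ A, (1 / p : ℝ) := by
    rw [← sum_fiberwise_of_maps_to (g := fun P => absNorm P) (t := A) fun P hP => ?_, mul_sum]
    · refine sum_le_sum fun p hp => ?_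
      obtain ⟨b0, b1, -⟩ := mem_filter.1 hp
      rw [sum_congr rfl (g := fun _ => (Real.log p / p : ℝ)) fun P hP => by
        rw [(mem_filter.1 hP).2], sum_const, nsmul_eq_mul, mul_assoc, mul_one_div]
      refine mul_le_mul ?_ (div_le_div_of_nonneg_right ?_ (by positivity))
        (div_nonneg (Real.log_natCast_nonneg _) (by positivity)) (by norm_num)
      · refine le_trans (Nat.cast_le.2 (card_le_card fun P hP => ?_)) (by
          exact_mod_cast card_over h3 T hTp p)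
        exact mem_filter.2 ⟨(mem_filter.1 (mem_filter.1 hP).1).1, by
          rw [(mem_filter.1 hP).2, b1.minFac_eq]⟩
      · rw [← Real.log_pow]
        exact Real.log_le_log (by exact_mod_cast b1.pos) (by exact_mod_cast (mem_Ioc.1 b0).2)
    · obtain ⟨b1, b2⟩ := mem_filter.1 hP
      obtain ⟨b3, b4⟩ := mem_filter.1 b1
      obtain ⟨φ, -⟩ := exists_hom b2 rfl
      exact mem_filter.2 ⟨mem_Ioc.2 ⟨by exact_mod_cast b4, by exact_mod_cast (mem_prm.1 b3).2⟩,
        b2, card_pos.2 ⟨_, root_mem hθ b2 φ⟩⟩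
  rw [← sum_filter_add_sum_filter_not T fun P => (absNorm P).Prime] at h1
  simp only [Function.comp] at h2
  rw [div_le_iff₀ hc] at h2
  rw [div_le_iff₀ (by positivity)]
  refine le_of_mul_le_mul_right ?_ hl
  linarith

end Pool.Agent.Lib.MP_d315f4_nt
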