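import Pool.Agent.Lib.MP_d315f4_nt.Box
import Pool.Agent.Lib.MP_d315f4_nt.NF3

/-!
The upper bound for roots of a cubic in short intervals.
-/

set_option autoImplicit false
set_option maxHeartbeats 400000

open Finset Filter

namespace Pool.Agent.Lib.MP_d315f4_nt

variable {a2 a1 a0 : ℤ}

lemma cheb {x : ℝ} (hx : 16 ≤ x) : x / Real.log x ≤ 4 * Nat.primeCounting ⌊x⌋₊ := by
  have h := Chebyshev.pi_ge' (x := x) (by linarith)
  have hl : 0 < Real.log x := Real.log_pos (by linarith)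
  have h1 := Real.log_le_self (x := (x + 2) / 2 ^ 4) (by positivity)
  rw [Real.log_div (by positivity) (by positivity), Real.log_pow] at h1
  rw [div_le_iff₀ hl] at h ⊢
  push_cast at h1
  nlinarith [Real.log_two_gt_d9, Real.log_two_lt_d9]

theorem box_bound (hI : Irr a2 a1 a0) {e : ℕ} (he : 10000 ≤ e) : ∃ (K0 U0 : ℕ) (C : ℝ), 0 ≤ C ∧
    4 ^ 12 ≤ U0 ∧ ∀ U, U0 ≤ U → ∀ A B : ℝ, 1 / U ≤ B - A → 16 * K0 * (B - A) ≤ 1 →
      ∀ X : Finset (ℕ × ℕ), (∀ x ∈ X, x.1.Prime ∧ x.2 < x.1 ∧ (x.1 : ℤ) ∣ fv a2 a1 a0 x.2) →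
      (∀ x ∈ X, x.1 ≤ U ^ (900 * e) ∧ A ≤ x.2 / x.1 ∧ (x.2 : ℝ) / x.1 ≤ B) →
      (#X : ℝ) ≤ C * ((B - A) * (U ^ (900 * e) / Real.log U)) := by
  obtain ⟨H0, hH, h2, h1, h0⟩ : ∃ H0 : ℕ, 1 ≤ H0 ∧ |a2| ≤ H0 ∧ |a1| ≤ H0 ∧ |a0| ≤ H0 := by
    refine ⟨a2.natAbs + a1.natAbs + a0.natAbs + 1, by omega, ?_⟩
    simp only [← Int.natCast_natAbs]
    omega
  obtain ⟨K0, hK⟩ : ∃ K0, K0 = 17 * H0 ^ 2 := ⟨_, rfl⟩
  obtain ⟨c, hc, e1⟩ := mertens_rho hI K0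
  obtain ⟨c1, hc1, e2⟩ := window hI (159 * e) (165 * e) (by omega)
  obtain ⟨c2, hc2, e3⟩ := window hI (165 * e) (171 * e) (by omega)
  obtain ⟨U0, hU0⟩ := eventually_atTop.1 (e1.and (e2.and (e3.and
    ((tendsto_natCast_atTop_atTop.eventually (eventually_ge_atTop (200 / (c1 * c2)))).and
    (eventually_ge_atTop (4 ^ 12 + 40 * H0 ^ 2 + (dsc a2 a1 a0).natAbs))))))
  refine ⟨K0, U0 + 4 ^ 12, 3 * ((2 * K0 + 1) * (128 * K0) * (18 / c + 10) + 2) + 1,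
    by positivity, by omega, fun U hU A B hAB hAB2 X hX hX2 => ?_⟩
  obtain ⟨b1, b2, b3, b4, b5⟩ := hU0 U (by omega)
  set A1 := (Ioc (U ^ (159 * e)) (U ^ (165 * e))).filter fun p => p.Prime ∧ 1 ≤ rho a2 a1 a0 p
  set A2 := (Ioc (U ^ (165 * e)) (U ^ (171 * e))).filter fun p => p.Prime ∧ 1 ≤ rho a2 a1 a0 p
  have hA : ∀ i ∈ A1 ×ˢ A2, ((U ^ (159 * e) < i.1 ∧ i.1 ≤ U ^ (165 * e)) ∧ i.1.Prime ∧
      1 ≤ rho a2 a1 a0 i.1) ∧ (U ^ (165 * e) < i.2 ∧ i.2 ≤ U ^ (171 * e)) ∧ i.2.Prime ∧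
      1 ≤ rho a2 a1 a0 i.2 := fun i hi => by
    simpa only [A1, A2, mem_product, mem_filter, mem_Ioc] using hi
  obtain ⟨ν, hν⟩ := exists_root (A1 ×ˢ A2) fun i hi => by
    obtain ⟨⟨⟨-, d1⟩, d2, d3⟩, ⟨d4, -⟩, d5, d6⟩ := hA i hi
    exact ⟨d2, d5, (d1.trans_lt d4).ne, d3, d6⟩
  have hU4 : 4 ^ 12 ≤ U := by omega
  have hu : (4 : ℝ) ^ 12 ≤ U := by exact_mod_cast hU4
  have hu1 : (1 : ℝ) < U := by linarith
  have hu0 : (0 : ℝ) < U := by linarith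
  obtain ⟨N, hN⟩ : ∃ N, N = U ^ (300 * e) := ⟨_, rfl⟩
  have hN3 : N ^ 3 = U ^ (900 * e) := by rw [hN, ← pow_mul]; congr 1; omega
  have k1 := box_at hI hH h2 h1 h0 he hU4 (by omega) (A1 ×ˢ A2) ν (fun i hi => by
      obtain ⟨⟨⟨d0, d1⟩, d2, -⟩, ⟨d4, d7⟩, d5, -⟩ := hA i hi
      exact ⟨d2, d5, d0, d1, d4, d7, hν i hi⟩) (by rw [← Int.natCast_natAbs]; omega) hK hc b1 (by
      have d1 : 200 / (U : ℝ) ≤ c1 * c2 := by
        rw [div_le_iff₀ (by positivity)] at b4 ⊢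
        linarith
      refine (d1.trans (mul_le_mul b2 b3 hc2.le (hc1.le.trans b2))).trans (le_of_eq ?_)
      rw [sum_mul_sum, sum_product]
      refine sum_congr rfl fun _ _ => sum_congr rfl fun _ _ => ?_
      rw [Nat.cast_mul, div_mul_div_comm, one_mul]) A B hAB hAB2 hN
  have k2 := reduce hI hH h2 h1 h0 hK (P0 := U ^ (750 * e)) (N := N)
    (le_trans (by omega) (le_self_pow₀ (by omega : 1 ≤ U) (by omega))) A B X hX (hN3 ▸ hX2)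
  have hn : (N : ℝ) = U ^ (300 * e) := by rw [hN]; push_cast; rfl
  have hn3 : (N : ℝ) ^ 3 = U ^ (900 * e) := by exact_mod_cast hN3
  have k3 : 3 * (((U ^ (750 * e) : ℕ) : ℝ) + 1) + 3 * (2 * N + 1) ^ 2 ≤ N ^ 3 / U ^ 2 := by
    have d1 : (1 : ℝ) ≤ N := hn ▸ one_le_pow₀ hu1.le
    have d2 : (N : ℝ) ^ 2 ≤ U ^ (750 * e) := by
      rw [hn, ← pow_mul]; exact pow_le_pow_right₀ hu1.le (by omega)
    have d3 := pw hu1.le (show 33 ≤ (U : ℝ) by linarith) (a := 750 * e + 2) (b := 900 * e)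
      (by omega)
    rw [le_div_iff₀ (by positivity), hn3]
    refine le_trans ?_ d3
    rw [pow_add, ← mul_assoc]
    push_cast
    exact mul_le_mul_of_nonneg_right (by nlinarith) (by positivity)
  have k4 : (N : ℝ) ^ 3 / U ^ 2 ≤ (B - A) * (N ^ 3 / Real.log U) :=
    le_trans (le_of_eq (by ring)) (mul_le_mul hAB (div_le_div_of_nonneg_left (by positivity)
      (Real.log_pos hu1) (Real.log_le_self hu0.le)) (by positivity) (le_trans (by positivity) hAB))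
  rw [← hn3]
  linarith

theorem main_bound (hI : Irr a2 a1 a0) : ∃ η : ℝ, 0 < η ∧ ∃ C : ℝ, ∀ x : ℝ, 2 ≤ x → ∀ A B : ℝ,
    x ^ (-η) ≤ B - A → ∀ X : Finset (ℕ × ℕ),
      (∀ u ∈ X, u.1.Prime ∧ u.2 < u.1 ∧ (u.1 : ℤ) ∣ fv a2 a1 a0 u.2) →
      (∀ u ∈ X, (u.1 : ℝ) ≤ x ∧ A ≤ u.2 / u.1 ∧ (u.2 : ℝ) / u.1 ≤ B) →
      (#X : ℝ) ≤ C * (B - A) * Nat.primeCounting ⌊x⌋₊ := by
  obtain ⟨e, he⟩ : ∃ e : ℕ, 10000 ≤ e := ⟨_, le_rfl⟩
  obtain ⟨K0, U0, C, hC, hU0, h⟩ := box_bound hI he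
  obtain ⟨E, hE⟩ : ∃ E, E = 900 * e := ⟨_, rfl⟩
  rw [← hE] at h
  have hE0 : E ≠ 0 := by omega
  have hE1 : (1 : ℝ) ≤ E := by exact_mod_cast (by omega)
  refine ⟨(E : ℝ)⁻¹, by positivity, 3 * U0 + 48 * K0 + C * (2 ^ E * E * 4),
    fun x hx A B hAB X hX hX2 => ?_⟩
  have hx0 : 0 < x := by linarith
  obtain ⟨y, hy⟩ : ∃ y, y = x ^ (E : ℝ)⁻¹ := ⟨_, rfl⟩
  have y1 : 1 ≤ y := hy ▸ Real.one_le_rpow (by linarith) (by positivity)
  have y2 : y ^ E = x := hy ▸ Real.rpow_inv_natCast_pow hx0.le hE0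
  have y3 := Nat.le_ceil y
  have y4 := Nat.ceil_lt_add_one (zero_le_one.trans y1)
  generalize ⌈y⌉₊ = U at y3 y4
  rw [Real.rpow_neg hx0.le, ← hy] at hAB
  have y5 : 1 / (U : ℝ) ≤ B - A := le_trans (by
    rw [one_div]; exact inv_anti₀ (by linarith) y3) hAB
  have hu0 : (0 : ℝ) < U := by linarith
  have hδ : 0 < B - A := lt_of_lt_of_le (by positivity) y5
  have t : (#X : ℝ) ≤ 3 * Nat.primeCounting ⌊x⌋₊ := by
    rw [← Nat.primesLE_card_eq_primeCounting]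
    exact_mod_cast card_le_three X hX _ fun u hu =>
      Nat.mem_primesLE.2 ⟨Nat.le_floor (hX2 u hu).1, (hX u hu).1⟩
  generalize hπ : (Nat.primeCounting ⌊x⌋₊ : ℝ) = π at t
  have hπ0 : 0 ≤ π := hπ ▸ Nat.cast_nonneg _
  have p1 : 0 ≤ 3 * U0 * (B - A) * π := by positivity
  have p2 : 0 ≤ 48 * K0 * (B - A) * π := by positivity
  have p3 : 0 ≤ C * (2 ^ E * E * 4) * (B - A) * π := by positivity
  rcases lt_or_ge U U0 with h1 | h1
  · have : 1 ≤ U0 * (B - A) := by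
      rw [div_le_iff₀' hu0] at y5
      exact y5.trans (mul_le_mul_of_nonneg_right (by exact_mod_cast h1.le) hδ.le)
    linarith [mul_le_mul_of_nonneg_right this hπ0]
  rcases lt_or_ge 1 (16 * K0 * (B - A)) with h2 | h2
  · linarith [mul_le_mul_of_nonneg_right h2.le hπ0]
  have hu : (4 : ℝ) ^ 12 ≤ U := by exact_mod_cast hU0.trans h1
  have k1 := h U h1 A B y5 h2 X hX fun u hu => ⟨by
    exact_mod_cast (hX2 u hu).1.trans (y2 ▸ pow_le_pow_left₀ (by linarith) y3 E), (hX2 u hu).2⟩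
  have k2 : 16 ≤ x := by
    have := le_self_pow₀ y1 hE0
    linarith
  have k3 := cheb k2
  have hl : 0 < Real.log x := Real.log_pos (by linarith)
  have k4 : (U : ℝ) ^ E / Real.log U ≤ 2 ^ E * E * (x / Real.log x) := by
    have d1 : (U : ℝ) ^ E ≤ 2 ^ E * x := by
      rw [← y2, ← mul_pow]
      exact pow_le_pow_left₀ hu0.le (by linarith) E
    have d2 : Real.log x / E ≤ Real.log U := by
      rw [← y2, Real.log_pow, mul_div_cancel_left₀ _ (by positivity)]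
      exact Real.log_le_log (by linarith) y3
    refine (div_le_div₀ (by positivity) d1 (by positivity) d2).trans (le_of_eq ?_)
    field_simp
  rw [hπ] at k3
  have k5 := mul_le_mul_of_nonneg_left (mul_le_mul_of_nonneg_left (k4.trans
    (mul_le_mul_of_nonneg_left k3 (by positivity))) hδ.le) hC
  linarith

end Pool.Agent.Lib.MP_d315f4_nt
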