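import Mathlib

/-!
Counting ideals of a number ring: inequalities of Mertens type.
-/

set_option autoImplicit false
set_option maxHeartbeats 400000

open Finset NumberField Filter Topology Ideal

namespace Pool.Agent.Lib.MP_d315f4_nt

variable (K : Type) [Field K] [NumberField K]

open Classical in
/-- nonzero ideals of norm at most `s`. -/
noncomputable def idl (s : ℝ) : Finset (Ideal (𝓞 K)) :=
  (Ideal.finite_setOfPred_absNorm_le (S := 𝓞 K) ⌊s⌋₊).toFinset.filter (· ≠ ⊥)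

open Classical in
/-- prime ideals of norm at most `s`. -/
noncomputable def prm (s : ℝ) : Finset (Ideal (𝓞 K)) := (idl K s).filter Prime

variable {K}

lemma one_le_norm {I : Ideal (𝓞 K)} (h : I ≠ ⊥) : (1 : ℝ) ≤ absNorm I := by
  exact_mod_cast Nat.one_le_iff_ne_zero.mpr (Ideal.absNorm_eq_zero_iff.not.mpr h)

lemma two_le_norm {P : Ideal (𝓞 K)} (h : Prime P) : (2 : ℝ) ≤ absNorm P := by
  have h0 : absNorm P ≠ 0 := Ideal.absNorm_eq_zero_iff.not.mpr h.ne_zero
  have h1 : absNorm P ≠ 1 := Ideal.absNorm_eq_one_iff.not.mpr fun h1 =>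
    h.not_isUnit (Ideal.isUnit_iff.2 h1)
  exact_mod_cast (by omega : 2 ≤ absNorm P)

lemma mem_idl {s : ℝ} {I : Ideal (𝓞 K)} : I ∈ idl K s ↔ I ≠ ⊥ ∧ (absNorm I : ℝ) ≤ s := by
  classical
  simp only [idl, mem_filter, Set.Finite.mem_toFinset, Set.mem_ofPred_eq]
  rw [and_comm]
  refine and_congr_right fun h => ?_
  exact Nat.le_floor_iff' (Ideal.absNorm_eq_zero_iff.not.mpr h)

lemma mem_prm {s : ℝ} {P : Ideal (𝓞 K)} : P ∈ prm K s ↔ Prime P ∧ (absNorm P : ℝ) ≤ s := by
  classical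
  rw [prm, mem_filter, mem_idl]
  exact ⟨fun h => ⟨h.2, h.1.2⟩, fun h => ⟨⟨h.1.ne_zero, h.2⟩, h.1⟩⟩

variable (K) in
lemma idl_tendsto : ∃ κ : ℝ, 0 < κ ∧ Tendsto (fun s : ℝ => (#(idl K s) : ℝ) / s) atTop (𝓝 κ) := by
  refine ⟨_, dedekindZeta_residue_pos K, (tendsto_norm_le_div_atTop₀ K).congr fun s => ?_⟩
  congr 2
  rw [← Nat.card_eq_finsetCard]
  refine Nat.card_congr ⟨fun I => ⟨I.1.1, mem_idl.2 ⟨nonZeroDivisors.ne_zero I.1.2, I.2⟩⟩,
    fun I => ⟨⟨I.1, mem_nonZeroDivisors_of_ne_zero (mem_idl.1 I.2).1⟩, (mem_idl.1 I.2).2⟩,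
    fun _ => rfl, fun _ => rfl⟩

open Classical in
lemma sum_dvd_idl {J : Ideal (𝓞 K)} (hJ : J ≠ ⊥) (s : ℝ) (g : Ideal (𝓞 K) → ℝ) :
    ∑ I ∈ idl K s with J ∣ I, g I = ∑ I ∈ idl K (s / absNorm J), g (J * I) := by
  have h1 := one_le_norm hJ
  symm
  refine sum_bij (fun I _ => J * I) (fun I hI => ?_) (fun I _ I' _ h => mul_left_cancel₀ hJ h)
    (fun I hI => ?_) fun _ _ => rfl
  · obtain ⟨a1, a2⟩ := mem_idl.1 hI
    refine mem_filter.2 ⟨mem_idl.2 ⟨mul_ne_zero hJ a1, ?_⟩, dvd_mul_right _ _⟩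
    rw [le_div_iff₀ (by linarith)] at a2
    rw [map_mul, Nat.cast_mul, mul_comm]
    exact a2
  · obtain ⟨a1, I', rfl⟩ := mem_filter.1 hI
    obtain ⟨a2, a3⟩ := mem_idl.1 a1
    refine ⟨I', mem_idl.2 ⟨right_ne_zero_of_mul a2, ?_⟩, rfl⟩
    rw [le_div_iff₀ (by linarith)]
    rw [map_mul, Nat.cast_mul, mul_comm] at a3
    exact a3

open Classical in
lemma card_dvd_idl {J : Ideal (𝓞 K)} (hJ : J ≠ ⊥) (s : ℝ) :
    (#{I ∈ idl K s | J ∣ I} : ℝ) = #(idl K (s / absNorm J)) := by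
  simpa using sum_dvd_idl hJ s fun _ => 1

lemma idl_mono {s t : ℝ} (h : s ≤ t) : idl K s ⊆ idl K t := fun _ hI =>
  mem_idl.2 ⟨(mem_idl.1 hI).1, (mem_idl.1 hI).2.trans h⟩

open Classical in
lemma euler_aux (s : ℝ) (T : Finset (Ideal (𝓞 K))) (hT : ∀ P ∈ T, Prime P) :
    (∑ I ∈ idl K s with (∀ P, Prime P → P ∣ I → P ∈ T), (1 / absNorm I : ℝ)) *
      ∏ P ∈ T, (1 - 1 / absNorm P : ℝ) ≤ 1 := by
  induction T using Finset.induction_on with
  | empty =>
    rw [prod_empty, mul_one]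
    refine (sum_le_sum_of_subset_of_nonneg (t := {⊤}) (fun I hI => ?_)
      fun _ _ _ => by positivity).trans (by simp)
    obtain ⟨a1, a2⟩ := mem_filter.1 hI
    rw [mem_singleton, ← Ideal.isUnit_iff]
    by_contra h
    obtain ⟨P, hP, hd⟩ := WfDvdMonoid.exists_irreducible_factor h (mem_idl.1 a1).1
    simpa using a2 P hP.prime hd
  | insert Q T hQ ih =>
    have hQp := hT Q (mem_insert_self _ _)
    have h2 := two_le_norm hQp
    have hT' : ∀ P ∈ T, Prime P := fun P hP => hT P (mem_insert_of_mem hP)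
    refine le_trans ?_ (ih hT')
    rw [prod_insert hQ, ← mul_assoc]
    refine mul_le_mul_of_nonneg_right ?_ (prod_nonneg fun P hP => by
      have := two_le_norm (hT' P hP)
      rw [sub_nonneg, div_le_one (by linarith)]; linarith)
    rw [mul_sub, mul_one, sub_le_iff_le_add]
    conv_lhs => rw [← sum_filter_add_sum_filter_not _ (fun I => Q ∣ I), add_comm]
    refine add_le_add (sum_le_sum_of_subset_of_nonneg (fun I hI => ?_) fun _ _ _ => by positivity) ?_
    · simp only [mem_filter, mem_insert] at hI ⊢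
      refine ⟨hI.1.1, fun P hP hd => (hI.1.2 P hP hd).resolve_left ?_⟩
      rintro rfl
      exact hI.2 hd
    · rw [filter_comm, sum_filter (s := (idl K s).filter _), sum_dvd_idl hQp.ne_zero, sum_filter,
        sum_mul]
      refine le_trans (sum_le_sum fun I _ => ?_) (sum_le_sum_of_subset_of_nonneg
        (s := idl K (s / absNorm Q)) (fun I hI => ?_) fun _ _ _ => by positivity)
      · split_ifs with a1 a2
        · rw [map_mul, Nat.cast_mul, one_div_mul_one_div, mul_comm]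
        · exact absurd (fun P hP hd => a1 P hP (hd.mul_left _)) a2
        · positivity
        · simp
      · obtain ⟨a1, a2⟩ := mem_idl.1 hI
        have a3 := one_le_norm a1
        rw [le_div_iff₀ (by linarith)] at a2
        exact mem_idl.2 ⟨a1, by nlinarith⟩

lemma euler_le (s : ℝ) : ∑ I ∈ idl K s, (1 / absNorm I : ℝ) ≤
    Real.exp (∑ P ∈ prm K s, (1 / absNorm P + 2 / (absNorm P : ℝ) ^ 2)) := by
  classical
  have h := euler_aux s (prm K s) fun P hP => (mem_prm.1 hP).1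
  rw [filter_true_of_mem fun I hI P hP hd => mem_prm.2 ⟨hP, le_trans (Nat.cast_le.2
    (Nat.le_of_dvd (by have := one_le_norm (mem_idl.1 hI).1; exact_mod_cast this)
      (map_dvd absNorm hd))) (mem_idl.1 hI).2⟩] at h
  have h2 : Real.exp (-∑ P ∈ prm K s, (1 / absNorm P + 2 / (absNorm P : ℝ) ^ 2)) ≤
      ∏ P ∈ prm K s, (1 - 1 / absNorm P : ℝ) := by
    rw [← sum_neg_distrib, Real.exp_sum]
    refine prod_le_prod (fun _ _ => (Real.exp_pos _).le) fun P hP => ?_
    have a1 := two_le_norm (mem_prm.1 hP).1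
    have a2 : (2 : ℝ) / (absNorm P : ℝ) ^ 2 = 2 * (1 / absNorm P) ^ 2 := by field_simp
    have a3 : (1 : ℝ) / absNorm P ≤ 1 / 2 := one_div_le_one_div_of_le two_pos a1
    have a4 : (0 : ℝ) ≤ 1 / absNorm P := by positivity
    rw [a2]
    generalize (1 : ℝ) / absNorm P = t at a3 a4
    have a5 := Real.add_one_le_exp (t + 2 * t ^ 2)
    rw [Real.exp_neg, inv_le_comm₀ (Real.exp_pos _) (by linarith)]
    refine le_trans ?_ a5
    rw [inv_eq_one_div, div_le_iff₀ (by linarith)]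
    nlinarith [mul_nonneg (sq_nonneg t) (sub_nonneg.2 a3)]
  have h3 : 0 ≤ ∑ I ∈ idl K s, (1 / absNorm I : ℝ) := by positivity
  have h4 := (mul_le_mul_of_nonneg_left h2 h3).trans h
  rwa [Real.exp_neg, ← div_eq_mul_inv, div_le_one (Real.exp_pos _)] at h4

lemma harmonic_lower (n : ℕ) : ∑ m ∈ Icc 1 n, (#(idl K m) : ℝ) / (m * (m + 1)) ≤
    ∑ I ∈ idl K n, (1 / absNorm I : ℝ) := by
  classical
  have h1 : ∀ m ∈ Icc 1 n, (#(idl K m) : ℝ) / (m * (m + 1)) =
      ∑ I ∈ idl K n, if absNorm I ≤ m then (1 : ℝ) / (m * (m + 1)) else 0 := by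
    intro m hm
    rw [← sum_filter, sum_const, nsmul_eq_mul, mul_one_div]
    congr 3
    ext I
    rw [mem_filter, mem_idl, mem_idl]
    have := (mem_Icc.1 hm).2
    simp only [Nat.cast_le]
    exact ⟨fun h => ⟨⟨h.1, by omega⟩, h.2⟩, fun h => ⟨h.1.1, h.2⟩⟩
  rw [sum_congr rfl h1, sum_comm]
  refine sum_le_sum fun I hI => ?_
  have h0 : 1 ≤ absNorm I := by exact_mod_cast one_le_norm (mem_idl.1 hI).1
  generalize absNorm I = a at h0
  have h2 : ∀ n : ℕ, ∑ m ∈ Icc 1 n, (if a ≤ m then (1 : ℝ) / (m * (m + 1)) else 0) ≤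
      1 / a - 1 / (max a (n + 1) : ℕ) := by
    intro n
    induction n with
    | zero => simp [max_eq_left h0]
    | succ n ih =>
      rw [sum_Icc_succ_top (by omega)]
      split_ifs with h
      · rw [max_eq_right h] at ih
        rw [max_eq_right (by omega)]
        have : (1 : ℝ) / ((n + 1 : ℕ) * ((n + 1 : ℕ) + 1)) =
            1 / (n + 1 : ℕ) - 1 / (n + 1 + 1 : ℕ) := by
          push_cast; field_simp; ring
        linarith
      · rw [max_eq_left (by omega)] at ih ⊢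
        linarith
  exact (h2 n).trans (sub_le_self _ (by positivity))

lemma mertens_up (x : ℝ) (T : Finset (Ideal (𝓞 K))) (hT : ∀ P ∈ T, Prime P) :
    ∑ P ∈ T, Real.log (absNorm P) * #(idl K (x / absNorm P)) ≤ #(idl K x) * Real.log x := by
  classical
  have h1 : ∀ P ∈ T, Real.log (absNorm P) * #(idl K (x / absNorm P)) =
      ∑ I ∈ idl K x, if P ∣ I then Real.log (absNorm P) else 0 := by
    intro P hP
    rw [← card_dvd_idl (hT P hP).ne_zero, ← sum_filter, sum_const, nsmul_eq_mul, mul_comm]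
  rw [sum_congr rfl h1, sum_comm, ← nsmul_eq_mul]
  refine sum_le_card_nsmul _ _ _ fun I hI => ?_
  obtain ⟨a1, a2⟩ := mem_idl.1 hI
  have a3 := one_le_norm a1
  have a4 : ∀ P ∈ T.filter (· ∣ I), (0 : ℝ) < absNorm P := fun P hP => by
    linarith [two_le_norm (hT P (mem_filter.1 hP).1)]
  rw [← sum_filter, ← Real.log_prod fun P hP => (a4 P hP).ne']
  refine Real.log_le_log (prod_pos a4) (le_trans ?_ a2)
  rw [← Nat.cast_prod, ← map_prod, Nat.cast_le]
  exact Nat.le_of_dvd (by exact_mod_cast a3) (map_dvd absNorm (prod_primes_dvd I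
    (fun P hP => hT P (mem_filter.1 hP).1) fun P hP => (mem_filter.1 hP).2))

lemma mertens_low (x : ℝ) : ∑ I ∈ idl K x, Real.log (absNorm I) ≤ ∑ P ∈ prm K x,
    Real.log (absNorm P) * ∑ e ∈ range ⌊x⌋₊, (#(idl K (x / absNorm P ^ (e + 1))) : ℝ) := by
  classical
  have h1 : ∀ P ∈ prm K x, Real.log (absNorm P) *
      ∑ e ∈ range ⌊x⌋₊, (#(idl K (x / absNorm P ^ (e + 1))) : ℝ) = ∑ I ∈ idl K x,
        (#{e ∈ range ⌊x⌋₊ | P ^ (e + 1) ∣ I} : ℝ) * Real.log (absNorm P) := by
    intro P hP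
    rw [← sum_mul, mul_comm]
    congr 1
    simp only [card_filter]
    push_cast
    rw [sum_comm]
    refine sum_congr rfl fun e _ => ?_
    rw [← Nat.cast_pow, ← map_pow, ← card_dvd_idl (pow_ne_zero _ (mem_prm.1 hP).1.ne_zero),
      card_filter]
    push_cast
    rfl
  rw [sum_congr rfl h1, sum_comm]
  refine sum_le_sum fun I hI => ?_
  obtain ⟨a1, a2⟩ := mem_idl.1 hI
  have a3 := one_le_norm a1
  set m := UniqueFactorizationMonoid.normalizedFactors I with hm
  have hp : ∀ P ∈ m, Prime P := fun P hP =>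
    UniqueFactorizationMonoid.prime_of_normalized_factor P hP
  have hprod : m.prod = I := Ideal.prod_normalizedFactors_eq_self a1
  have hle : ∀ J, J ∣ I → absNorm J ≤ ⌊x⌋₊ := fun J hJ => Nat.le_floor (le_trans (Nat.cast_le.2
    (Nat.le_of_dvd (by exact_mod_cast a3) (map_dvd absNorm hJ))) a2)
  have h2 : Real.log (absNorm I) = ∑ P ∈ m.toFinset, m.count P * Real.log (absNorm P) := by
    conv_lhs => rw [← hprod, prod_multiset_count, map_prod, Nat.cast_prod]
    rw [Real.log_prod fun P hP => ?_]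
    · refine sum_congr rfl fun P _ => ?_
      rw [map_pow, Nat.cast_pow, Real.log_pow]
    · have := two_le_norm (hp P (Multiset.mem_toFinset.1 hP))
      rw [map_pow, Nat.cast_pow]
      positivity
  rw [h2]
  refine le_trans (sum_le_sum fun P hP => ?_) (sum_le_sum_of_subset_of_nonneg
    (s := m.toFinset) (fun P hP => ?_) fun P _ _ => mul_nonneg (by positivity)
      (Real.log_natCast_nonneg _))
  · refine mul_le_mul_of_nonneg_right (Nat.cast_le.2 ?_) (Real.log_natCast_nonneg _)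
    have hd : ∀ e ≤ m.count P, P ^ e ∣ I := fun e he => by
      rw [← hprod, ← Multiset.prod_replicate]
      exact Multiset.prod_dvd_prod_of_le (Multiset.le_count_iff_replicate_le.1 he)
    rw [← card_range (m.count P)]
    refine card_le_card fun e he => mem_filter.2 ⟨mem_range.2 ?_, hd _ (mem_range.1 he)⟩
    have b1 := hle _ (hd _ (mem_range.1 he))
    have b2 : 2 ≤ absNorm P := by exact_mod_cast two_le_norm (hp P (Multiset.mem_toFinset.1 hP))
    rw [map_pow, Nat.succ_eq_add_one] at b1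
    have b3 := Nat.lt_pow_self (a := absNorm P) (n := e + 1) b2
    omega
  · have b1 := Multiset.mem_toFinset.1 hP
    refine mem_prm.2 ⟨hp P b1, ?_⟩
    have b2 := hle P (hprod ▸ Multiset.dvd_prod b1)
    exact (Nat.cast_le.2 b2).trans (Nat.floor_le (by linarith))

end Pool.Agent.Lib.MP_d315f4_nt
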