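import Pool.Agent.Lib.MP_d315f4_nt.NF1
import Pool.Agent.Lib.MP_6a20cc_nt.Mertens

/-!
Prime ideals of a cubic field in windows.
-/

set_option autoImplicit false
set_option maxHeartbeats 400000

open Finset NumberField Filter Topology Ideal

namespace Pool.Agent.Lib.MP_d315f4_nt

variable {K : Type} [Field K] [NumberField K]

lemma sum_lq (B : ℕ) : ∑ n ∈ range B, Real.log n / (n : ℝ) ^ 2 ≤ 8 := by
  have h := Pool.Agent.Lib.MP_6a20cc_nt.tail_bound B
  simp only [ite_self, add_zero] at h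
  refine le_trans (sum_le_sum_of_subset_of_nonneg (range_mono (Nat.le_succ B)) fun n _ _ =>
    div_nonneg (Real.log_natCast_nonneg _) (by positivity)) (le_trans (sum_le_sum fun n _ => ?_)
    (h.trans (sub_le_self _ (by positivity))))
  split_ifs with h2
  · have : (2 : ℝ) ≤ n := by exact_mod_cast h2
    refine div_le_div_of_nonneg_left (Real.log_natCast_nonneg _) (by nlinarith) (by nlinarith)
  · interval_cases n <;> simp

lemma prime_norm (h3 : Module.finrank ℤ (𝓞 K) = 3) {P : Ideal (𝓞 K)} (hP : Prime P) :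
    (absNorm P).minFac.Prime ∧ (((absNorm P).minFac : ℕ) : 𝓞 K) ∈ P ∧
      ∃ f, 1 ≤ f ∧ f ≤ 3 ∧ absNorm P = (absNorm P).minFac ^ f := by
  have := (Ideal.isPrime_of_prime hP).isMaximal hP.ne_zero
  obtain ⟨p, f, hf, hpP, hp, hN⟩ := Ideal.exists_prime_and_absNorm_eq_pow P
  have h1 : (absNorm P).minFac = p := by rw [hN, hp.pow_minFac hf.ne']
  rw [h1]
  refine ⟨hp, hpP, f, hf, ?_, hN⟩
  have h2 := Ideal.absNorm_dvd_absNorm_of_le ((Ideal.span_singleton_le_iff_mem P).2 hpP)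
  rw [Ideal.absNorm_span_natCast, h3, hN] at h2
  exact (Nat.pow_dvd_pow_iff_le_right hp.one_lt).1 h2

lemma card_over (h3 : Module.finrank ℤ (𝓞 K) = 3) (T : Finset (Ideal (𝓞 K)))
    (hT : ∀ P ∈ T, Prime P) (p : ℕ) : #{P ∈ T | (absNorm P).minFac = p} ≤ 3 := by
  set S := {P ∈ T | (absNorm P).minFac = p} with hS
  rcases S.eq_empty_or_nonempty with h | ⟨P0, h0⟩
  · simp [h]
  have hp : p.Prime := (mem_filter.1 h0).2 ▸ (prime_norm h3 (hT P0 (mem_filter.1 h0).1)).1
  have h1 := map_dvd absNorm (prod_primes_dvd (s := S) (Ideal.span {(p : 𝓞 K)})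
    (fun P hP => hT P (mem_filter.1 hP).1) fun P hP => Ideal.dvd_span_singleton.2
      ((mem_filter.1 hP).2 ▸ (prime_norm h3 (hT P (mem_filter.1 hP).1)).2.1))
  rw [Ideal.absNorm_span_natCast, h3, map_prod] at h1
  refine (Nat.pow_dvd_pow_iff_le_right hp.one_lt).1 (dvd_trans ?_ h1)
  rw [← prod_const]
  exact prod_dvd_prod_of_dvd _ _ fun P hP => (mem_filter.1 hP).2 ▸ Nat.minFac_dvd _

lemma sum_lq_prime (h3 : Module.finrank ℤ (𝓞 K) = 3) (T : Finset (Ideal (𝓞 K)))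
    (hT : ∀ P ∈ T, Prime P) :
    ∑ P ∈ T, Real.log (absNorm P).minFac / ((absNorm P).minFac : ℝ) ^ 2 ≤ 24 := by
  set B := T.sup fun P => (absNorm P).minFac
  rw [← sum_fiberwise_of_maps_to (g := fun P => (absNorm P).minFac) (t := range (B + 1))
    fun P hP => mem_range.2 (Nat.lt_succ_of_le (le_sup (f := fun P => (absNorm P).minFac) hP))]
  have h := sum_lq (B + 1)
  refine le_trans (sum_le_sum fun n _ => ?_) (by rw [← mul_sum]; linarith :
    ∑ n ∈ range (B + 1), 3 * (Real.log n / (n : ℝ) ^ 2) ≤ 24)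
  rw [sum_congr rfl (g := fun _ => Real.log n / (n : ℝ) ^ 2) fun P hP => by
    rw [(mem_filter.1 hP).2], sum_const, nsmul_eq_mul]
  exact mul_le_mul_of_nonneg_right (by exact_mod_cast card_over h3 T hT n)
    (div_nonneg (Real.log_natCast_nonneg _) (by positivity))

lemma norm_cases (h3 : Module.finrank ℤ (𝓞 K) = 3) {P : Ideal (𝓞 K)} (hP : Prime P) :
    (2 : ℝ) ≤ (absNorm P).minFac ∧ ((absNorm P).minFac : ℝ) ≤ absNorm P ∧
    Real.log (absNorm P) ≤ 3 * Real.log (absNorm P).minFac ∧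
    (¬ (absNorm P).Prime → ((absNorm P).minFac : ℝ) ^ 2 ≤ absNorm P) := by
  obtain ⟨h1, -, f, h2, h4, h5⟩ := prime_norm h3 hP
  generalize (absNorm P).minFac = p at *
  have h6 : (2 : ℝ) ≤ p := by exact_mod_cast h1.two_le
  rw [h5]
  push_cast
  refine ⟨h6, le_self_pow₀ (by linarith) (by omega), ?_, fun h => ?_⟩
  · rw [Real.log_pow]
    exact mul_le_mul_of_nonneg_right (by exact_mod_cast h4) (Real.log_natCast_nonneg _)
  · refine pow_le_pow_right₀ (by linarith) ?_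
    by_contra h7
    obtain rfl : f = 1 := by omega
    exact h (by simpa using h1)

lemma sum_log_le (h3 : Module.finrank ℤ (𝓞 K) = 3) {C0 x : ℝ} (hC : 0 < C0) (hx : 0 < x)
    (hall : ∀ s, 0 ≤ s → (#(idl K s) : ℝ) ≤ C0 * s) :
    ∑ I ∈ idl K x, Real.log (absNorm I) ≤
      ∑ P ∈ prm K x, Real.log (absNorm P) * #(idl K (x / absNorm P)) + C0 * x * 144 := by
  refine (mertens_low x).trans ?_
  have a1 : ∀ P ∈ prm K x, Real.log (absNorm P) *
      ∑ e ∈ range ⌊x⌋₊, (#(idl K (x / absNorm P ^ (e + 1))) : ℝ) ≤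
      Real.log (absNorm P) * #(idl K (x / absNorm P)) + C0 * x * (6 *
        (Real.log (absNorm P).minFac / ((absNorm P).minFac : ℝ) ^ 2)) := by
    intro P hP
    obtain ⟨b1, b2, b3, -⟩ := norm_cases h3 (mem_prm.1 hP).1
    generalize ((absNorm P).minFac : ℝ) = p at *
    have b4 : ∑ e ∈ range ⌊x⌋₊, (#(idl K (x / absNorm P ^ (e + 1))) : ℝ) ≤
        #(idl K (x / absNorm P)) + C0 * x / p ^ 2 * 2 := by
      refine le_trans (sum_le_sum_of_subset_of_nonneg (range_mono (Nat.le_succ _))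
        fun _ _ _ => by positivity) ?_
      rw [sum_range_succ', add_comm, zero_add, pow_one]
      refine add_le_add le_rfl (le_trans ?_ (mul_le_mul_of_nonneg_left
        (sum_geometric_two_le ⌊x⌋₊) (by positivity)))
      rw [mul_sum]
      refine sum_le_sum fun e _ => (hall _ (by positivity)).trans ?_
      rw [one_div_pow, div_mul_div_comm, mul_one, mul_div_assoc]
      refine mul_le_mul_of_nonneg_left (div_le_div_of_nonneg_left hx.le (by positivity) ?_) hC.le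
      calc p ^ 2 * 2 ^ e ≤ (absNorm P : ℝ) ^ 2 * (absNorm P : ℝ) ^ e := by gcongr; linarith
        _ = _ := by ring
    have b5 := mul_le_mul_of_nonneg_left b4 (Real.log_natCast_nonneg (absNorm P))
    have b6 := mul_le_mul_of_nonneg_right b3 (by positivity : 0 ≤ C0 * x / p ^ 2 * 2)
    have b7 : 3 * Real.log p * (C0 * x / p ^ 2 * 2) = C0 * x * (6 * (Real.log p / p ^ 2)) := by ring
    linarith
  refine (sum_le_sum a1).trans ?_
  rw [sum_add_distrib, ← mul_sum, ← mul_sum]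
  have a2 := sum_lq_prime h3 (prm K x) fun P hP => (mem_prm.1 hP).1
  exact add_le_add le_rfl (mul_le_mul_of_nonneg_left (by linarith) (by positivity))

lemma sum_log_ge {κ δ y0 x : ℝ} (hκ : 0 < κ) (hδ0 : 0 < δ) (hδ1 : δ ≤ 1) (hy1 : 1 ≤ y0)
    (hlo : ∀ s, y0 ≤ s → κ * (1 - δ) * s ≤ #(idl K s))
    (hup : ∀ s, y0 ≤ s → (#(idl K s) : ℝ) ≤ κ * (1 + δ) * s) (a0 : y0 ≤ δ * x) :
    κ * x * ((1 - 3 * δ) * Real.log (δ * x)) ≤ ∑ I ∈ idl K x, Real.log (absNorm I) := by
  classical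
  have hx : 0 < x := by nlinarith
  have hdx : δ * x ≤ x := by nlinarith
  have a1 : idl K (δ * x) ⊆ idl K x := idl_mono hdx
  have a2 : 0 ≤ Real.log (δ * x) := Real.log_nonneg (by linarith)
  have a3 : (#(idl K x \ idl K (δ * x)) : ℝ) * Real.log (δ * x) ≤
      ∑ I ∈ idl K x, Real.log (absNorm I) := by
    rw [← nsmul_eq_mul]
    refine (card_nsmul_le_sum _ _ _ fun I hI => ?_).trans (sum_le_sum_of_subset_of_nonneg
      sdiff_subset fun _ _ _ => Real.log_natCast_nonneg _)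
    obtain ⟨b1, b2⟩ := mem_sdiff.1 hI
    refine Real.log_le_log (by linarith) ?_
    by_contra b3
    exact b2 (mem_idl.2 ⟨(mem_idl.1 b1).1, (not_le.1 b3).le⟩)
  rw [card_sdiff_of_subset a1, Nat.cast_sub (card_le_card a1)] at a3
  have a4 := hlo x (by linarith)
  have a5 := hup (δ * x) a0
  rw [← mul_assoc]
  refine le_trans (mul_le_mul_of_nonneg_right ?_ a2) a3
  have a6 : 0 ≤ κ * x * (δ * (1 - δ)) := by
    have : 0 ≤ 1 - δ := by linarith
    positivity
  nlinarith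

lemma sum_small_le {κ δ y0 x y : ℝ} (hκ : 0 < κ) (hy1 : 1 ≤ y0) (hy : 1 ≤ y)
    (hlo : ∀ s, y0 ≤ s → κ * (1 - δ) * s ≤ #(idl K s))
    (hup : ∀ s, y0 ≤ s → (#(idl K s) : ℝ) ≤ κ * (1 + δ) * s) :
    (1 - δ) * ∑ P ∈ prm K x with ¬ y < absNorm P, Real.log (absNorm P) / absNorm P ≤
      (1 + δ) * Real.log (y0 * y) := by
  have h1 := mertens_up (y0 * y) {P ∈ prm K x | ¬ y < absNorm P}
    fun P hP => (mem_prm.1 (mem_filter.1 hP).1).1
  have h2 : κ * (y0 * y) * ((1 - δ) *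
      ∑ P ∈ prm K x with ¬ y < absNorm P, Real.log (absNorm P) / absNorm P) ≤
      ∑ P ∈ prm K x with ¬ y < absNorm P, Real.log (absNorm P) * #(idl K (y0 * y / absNorm P)) := by
    rw [mul_sum, mul_sum]
    refine sum_le_sum fun P hP => ?_
    have a1 := two_le_norm (mem_prm.1 (mem_filter.1 hP).1).1
    have a2 := not_lt.1 (mem_filter.1 hP).2
    have a3 := hlo (y0 * y / absNorm P) (by rw [le_div_iff₀ (by linarith)]; gcongr)
    refine le_trans (le_of_eq (by ring)) (mul_le_mul_of_nonneg_left a3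
      (Real.log_natCast_nonneg _))
  have h4 := mul_le_mul_of_nonneg_right (hup (y0 * y) (by nlinarith))
    (Real.log_nonneg (x := y0 * y) (by nlinarith))
  exact le_of_mul_le_mul_left (h2.trans (h1.trans (h4.trans (le_of_eq (by ring)))))
    (by positivity : 0 < κ * (y0 * y))

lemma win_alg {δ a b l l0 ld M : ℝ} (hδ0 : 0 < δ) (hδβ : δ * b = 1 / 20) (hb : 1 ≤ b)
    (hab : a + 1 ≤ b) (ha0 : 0 ≤ a) (hl : 0 ≤ l) (hl0 : 0 ≤ l0) (hld : ld ≤ 0)
    (ha : (1 - δ) * M ≤ (1 + δ) * (l0 + a * l)) :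
    1 / 2 * l - (-ld + 2 * l0) ≤ (1 - 3 * δ) * (ld + b * l) - (1 + δ) * M := by
  have hδ1 : δ ≤ 1 / 20 := by nlinarith
  have he : (1 + δ) * M ≤ (1 + 7 * δ) * (l0 + a * l) := by
    refine le_of_mul_le_mul_left ?_ (by linarith : 0 < 1 - δ)
    have a1 : 0 ≤ l0 + a * l := by positivity
    have a2 := mul_le_mul_of_nonneg_left ha (by linarith : 0 ≤ 1 + δ)
    have a3 : (1 + δ) * (1 + δ) ≤ (1 - δ) * (1 + 7 * δ) := by nlinarith
    nlinarith [mul_le_mul_of_nonneg_right a3 a1]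
  have a1 : δ * a ≤ δ * b := mul_le_mul_of_nonneg_left (by linarith) hδ0.le
  have a2 : 1 / 2 ≤ (1 - 3 * δ) * b - (1 + 7 * δ) * a := by nlinarith
  nlinarith [mul_le_mul_of_nonneg_right a2 hl, mul_nonneg hδ0.le (neg_nonneg.2 hld),
    mul_le_mul_of_nonneg_right hδ1 hl0]

lemma window_ideal (h3 : Module.finrank ℤ (𝓞 K) = 3) (α β : ℕ) (hαβ : α < β) :
    ∃ c C : ℝ, 0 < c ∧ ∀ᶠ U : ℝ in atTop, c * Real.log U - C ≤
      ∑ P ∈ prm K (U ^ β) with U ^ α < absNorm P, Real.log (absNorm P) / absNorm P := by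
  classical
  obtain ⟨κ, hκ, ht⟩ := idl_tendsto K
  have hβ : (1 : ℝ) ≤ β := by exact_mod_cast (by omega : 1 ≤ β)
  have hαβ' : (α : ℝ) + 1 ≤ β := by exact_mod_cast hαβ
  obtain ⟨δ, hδ⟩ : ∃ δ : ℝ, δ = 1 / (20 * β) := ⟨_, rfl⟩
  have hδ0 : 0 < δ := by rw [hδ]; positivity
  have hδβ : δ * β = 1 / 20 := by rw [hδ]; field_simp
  have hδ1 : δ ≤ 1 / 20 := by nlinarith
  obtain ⟨y0, hy0⟩ := eventually_atTop.1 ((ht.eventually (Icc_mem_nhds
    (show κ * (1 - δ) < κ by nlinarith) (show κ < κ * (1 + δ) by nlinarith))).and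
    (eventually_ge_atTop 1))
  have hy1 : 1 ≤ y0 := (hy0 y0 le_rfl).2
  have hlo : ∀ s, y0 ≤ s → κ * (1 - δ) * s ≤ #(idl K s) := fun s hs =>
    (le_div_iff₀ (by linarith)).1 (hy0 s hs).1.1
  have hup : ∀ s, y0 ≤ s → (#(idl K s) : ℝ) ≤ κ * (1 + δ) * s := fun s hs =>
    (div_le_iff₀ (by linarith)).1 (hy0 s hs).1.2
  obtain ⟨C0, hC0⟩ : ∃ C0 : ℝ, C0 = κ * (1 + δ) * y0 := ⟨_, rfl⟩
  have hC00 : 0 < C0 := by rw [hC0]; positivity
  have hall : ∀ s, 0 ≤ s → (#(idl K s) : ℝ) ≤ C0 * s := by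
    intro s hs
    rcases le_or_gt 1 s with h | h
    · refine le_trans (Nat.cast_le.2 (card_le_card (idl_mono (t := y0 * s) (by nlinarith))))
        ((hup _ (by nlinarith)).trans (le_of_eq (by rw [hC0]; ring)))
    · rw [card_eq_zero.2 (eq_empty_of_forall_notMem fun I hI => ?_)]
      · simp; positivity
      · linarith [one_le_norm (mem_idl.1 hI).1, (mem_idl.1 hI).2]
  refine ⟨κ / 2 / C0, (κ * (-Real.log δ + 2 * Real.log y0) + 144 * C0) / C0, by positivity, ?_⟩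
  filter_upwards [eventually_ge_atTop (y0 / δ)] with U hU
  have hU1 : y0 ≤ δ * U := by rwa [div_le_iff₀' hδ0] at hU
  have hU0 : 0 < U := lt_of_lt_of_le (by positivity) hU
  have hU2 : y0 ≤ U := hU1.trans (mul_le_of_le_one_left hU0.le (by linarith))
  have hU3 : 1 ≤ U := by linarith
  have hx : U ≤ U ^ β := le_self_pow₀ hU3 (by omega)
  have hxy : y0 * U ^ α ≤ U ^ β :=
    le_trans (by rw [pow_succ']; gcongr) (pow_le_pow_right₀ hU3 hαβ)
  have hα1 : 1 ≤ U ^ α := one_le_pow₀ hU3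
  have hl1 : Real.log (y0 * U ^ α) = Real.log y0 + α * Real.log U := by
    rw [Real.log_mul (by positivity) (by positivity), Real.log_pow]
  have hl2 : Real.log (δ * U ^ β) = Real.log δ + β * Real.log U := by
    rw [Real.log_mul (by positivity) (by positivity), Real.log_pow]
  generalize U ^ β = x at *
  generalize U ^ α = y at *
  have hx0 : 0 < x := by linarith
  have ha := sum_small_le (K := K) (x := x) hκ hy1 hα1 hlo hup
  have hb := sum_log_ge hκ hδ0 (by linarith) hy1 hlo hup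
    (hU1.trans (mul_le_mul_of_nonneg_left hx hδ0.le))
  have hc := sum_log_le h3 hC00 hx0 hall
  rw [← sum_filter_add_sum_filter_not (prm K x) (fun P => y < absNorm P)] at hc
  have c1 : ∑ P ∈ prm K x with ¬ y < absNorm P,
      Real.log (absNorm P) * #(idl K (x / absNorm P)) ≤ x * (κ * ((1 + δ) *
        ∑ P ∈ prm K x with ¬ y < absNorm P, Real.log (absNorm P) / absNorm P)) := by
    rw [mul_sum, mul_sum, mul_sum]
    refine sum_le_sum fun P hP => ?_
    have b1 := two_le_norm (mem_prm.1 (mem_filter.1 hP).1).1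
    have b2 := not_lt.1 (mem_filter.1 hP).2
    have b3 := hup (x / absNorm P) (by
      rw [le_div_iff₀ (by linarith)]
      exact le_trans (by gcongr) hxy)
    exact (mul_le_mul_of_nonneg_left b3 (Real.log_natCast_nonneg _)).trans (le_of_eq (by ring))
  have c2 : ∑ P ∈ prm K x with y < absNorm P,
      Real.log (absNorm P) * #(idl K (x / absNorm P)) ≤ x * (C0 *
        ∑ P ∈ prm K x with y < absNorm P, Real.log (absNorm P) / absNorm P) := by
    rw [mul_sum, mul_sum]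
    refine sum_le_sum fun P _ => ?_
    exact (mul_le_mul_of_nonneg_left (hall (x / absNorm P) (by positivity))
      (Real.log_natCast_nonneg _)).trans (le_of_eq (by ring))
  rw [hl1] at ha
  rw [hl2] at hb
  have hf := win_alg hδ0 hδβ hβ hαβ' (Nat.cast_nonneg _) (Real.log_nonneg hU3)
    (Real.log_nonneg hy1) (Real.log_nonpos hδ0.le (by linarith)) ha
  generalize ∑ P ∈ prm K x with ¬ y < absNorm P, Real.log (absNorm P) / absNorm P = M at *
  generalize ∑ P ∈ prm K x with y < absNorm P, Real.log (absNorm P) / absNorm P = W at *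
  have hd : κ * ((1 - 3 * δ) * (Real.log δ + β * Real.log U)) ≤
      κ * ((1 + δ) * M) + C0 * W + C0 * 144 :=
    le_of_mul_le_mul_left (by linarith) hx0
  rw [div_mul_eq_mul_div, ← sub_div, div_le_iff₀ hC00]
  linarith [mul_le_mul_of_nonneg_left hf hκ.le]

end Pool.Agent.Lib.MP_d315f4_nt
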