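import Pool.Agent.Lib.MP_d315f4_nt.Core

/-!
Numerical inequalities between the parameters.
-/

set_option autoImplicit false
set_option maxHeartbeats 400000

open Finset

namespace Pool.Agent.Lib.MP_d315f4_nt

lemma pw {R : Type} [CommSemiring R] [LinearOrder R] [IsStrictOrderedRing R] {u c : R} (hu : 1 ≤ u)
    (hc : c ≤ u) {a b : ℕ} (h : a + 1 ≤ b) : c * u ^ a ≤ u ^ b :=
  (mul_le_mul_of_nonneg_right hc (pow_nonneg (zero_le_one.trans hu) _)).trans
    (by rw [← pow_succ']; exact pow_le_pow_right₀ hu h)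

lemma log_pw {u : ℝ} (hu : 1 ≤ u) (a e : ℕ) {P : ℝ} (h0 : 0 < P) (hP : P ≤ u ^ (a * e)) :
    1 + Real.log P ≤ (a + 1) * u ^ e := by
  have h1 := Real.log_le_log h0 hP
  rw [mul_comm, pow_mul, Real.log_pow] at h1
  have h2 := Real.log_le_self (pow_nonneg (zero_le_one.trans hu) e)
  have h3 := one_le_pow₀ (n := e) hu
  nlinarith [mul_le_mul_of_nonneg_left h2 (Nat.cast_nonneg (α := ℝ) a)]

lemma linePar {U e : ℕ} (hU : 4 ^ 12 ≤ U) (he : 10000 ≤ e) :
    LinePar (U ^ 200) (U ^ (291 * e)) (U ^ 400) (U ^ (159 * e)) (U ^ (165 * e)) (U ^ (901 * e))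
      (U ^ (577 * e)) (U ^ (145 * e)) (U ^ (9 * e)) (2 * (U ^ (300 * e) : ℕ) + 1) (1 / U ^ 175) := by
  have h1 : 1 < U := by omega
  have hu : (4 : ℝ) ^ 12 ≤ U := by exact_mod_cast hU
  have hu1 : (1 : ℝ) ≤ U := by exact_mod_cast h1.le
  refine ⟨?_, ?_, ?_, by positivity, ?_, ?_, ?_, ?_, ?_, ?_, ?_, by positivity, ?_, ?_, ?_⟩
  · simp only [← pow_add]; exact pow_le_pow_right₀ h1.le (by omega)
  · simp only [← pow_mul]; exact pow_le_pow_right₀ h1.le (by omega)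
  · exact pow_lt_pow_right₀ h1 (by omega)
  · simp only [← pow_add]; exact pow_le_pow_right₀ h1.le (by omega)
  · exact pow_le_pow_right₀ h1.le (by omega)
  · simp only [← pow_add]; exact pow_le_pow_right₀ h1.le (by omega)
  · simp only [← pow_mul]; exact pow_le_pow_right₀ h1.le (by omega)
  · exact lt_of_lt_of_le (by omega) (le_self_pow₀ h1.le (by omega))
  · exact pow_le_pow_right₀ h1.le (by omega)
  · push_cast
    rw [← pow_add, show 9 * e + 291 * e = 300 * e by omega]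
    linarith [pow_nonneg (zero_le_one.trans hu1) (300 * e)]
  · rw [div_le_one (by positivity)]
    exact one_le_pow₀ hu1
  · push_cast
    rw [one_div_pow, ← pow_mul, one_div_mul_eq_div, le_div_iff₀ (by positivity), one_mul]
    exact pow_le_pow_right₀ hu1 (by omega)
  · intro P a1 a2
    have b1 : (U : ℝ) ^ (159 * e) ≤ P := by exact_mod_cast a1
    have b2 : (P : ℝ) ≤ U ^ (577 * e) := by exact_mod_cast a2
    have b0 : (0 : ℝ) < P := lt_of_lt_of_le (by positivity) b1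
    have b3 := log_pw hu1 577 e b0 b2
    have b4 : √P ≤ U ^ (289 * e) := Real.sqrt_le_iff.2 ⟨by positivity, b2.trans (by
      rw [← pow_mul]; exact pow_le_pow_right₀ hu1 (by omega))⟩
    have b5 : (U : ℝ) ^ (79 * e) ≤ √P := Real.le_sqrt_of_sq_le (le_trans (by
      rw [← pow_mul]; exact pow_le_pow_right₀ hu1 (by omega)) b1)
    have b6 : (U : ℝ) ^ (300 * e) ≤ 2 * (U ^ (300 * e) : ℕ) + 1 := by
      push_cast
      linarith [pow_nonneg (zero_le_one.trans hu1) (300 * e)]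
    generalize (2 * (U ^ (300 * e) : ℕ) + 1 : ℝ) = l at *
    have b7 : 0 ≤ l := le_trans (by positivity) b6
    rw [one_div_pow, ← pow_mul, one_div_mul_eq_div, le_div_iff₀ (by positivity)]
    have c1 : l / P * (3 * (512 : ℕ) * √P) * U ^ (175 * 512) ≤ l / 2 := by
      have d1 := (pw hu1 (show 3072 ≤ (U : ℝ) by linarith) (a := 175 * 512) (b := 79 * e)
        (by omega)).trans b5
      have d2 : l / P * √P * √P = l := by rw [mul_assoc, Real.mul_self_sqrt b0.le]; field_simp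
      have d3 := mul_le_mul_of_nonneg_left d1 (by positivity : 0 ≤ l / P * √P)
      push_cast
      linarith
    have c2 : (1 + Real.log P) * (3 * (512 : ℕ) * √P) * U ^ (175 * 512) ≤ l / 2 := by
      have d1 := (pw hu1 (show 1775616 ≤ (U : ℝ) by linarith) (a := e + 289 * e + 175 * 512)
        (b := 300 * e) (by omega)).trans b6
      have d2 : (1 + Real.log P) * √P * U ^ (175 * 512) ≤
          ((577 : ℕ) + 1) * U ^ e * U ^ (289 * e) * U ^ (175 * 512) := by gcongr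
      rw [pow_add, pow_add] at d1
      generalize (U : ℝ) ^ (175 * 512) = v at d1 d2 ⊢
      push_cast at d2 ⊢
      linarith
    linarith

lemma numQ {u I μ : ℝ} {e : ℕ} (hu : 4 ^ 12 ≤ u) (he : 10000 ≤ e) (hI0 : 0 ≤ I)
    (hI : I ≤ u ^ (336 * e)) (hμ : 1 / u ≤ μ) :
    (1 + Real.log (u ^ (336 * e))) ^ 2 * (I * (u ^ (300 * e) * ((2 * u ^ (237 * e) + 1) * 100) +
      I * ((u ^ (100 * e)) ^ 2 / 2))) ≤ u ^ (300 * e) * (1 / u ^ 60 * μ * u ^ (299 * e)) ^ 2 := by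
  have hu1 : 1 ≤ u := by linarith
  have a1 := log_pw hu1 336 e (by positivity) le_rfl
  have a0 : 0 ≤ 1 + Real.log (u ^ (336 * e)) := by
    linarith [Real.log_nonneg (one_le_pow₀ (n := 336 * e) hu1)]
  have a2 : u ^ (300 * e) * ((2 * u ^ (237 * e) + 1) * 100) + I * ((u ^ (100 * e)) ^ 2 / 2) ≤
      u ^ (538 * e) := by
    refine le_trans ?_ (pw hu1 (show 301 ≤ u by linarith) (a := 300 * e + 237 * e) (by omega))
    have b1 : I * ((u ^ (100 * e)) ^ 2 / 2) ≤ u ^ (300 * e + 237 * e) :=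
      (mul_le_mul hI (half_le_self (by positivity)) (by positivity) (by positivity)).trans (by
        rw [← pow_mul, ← pow_add]; exact pow_le_pow_right₀ hu1 (by omega))
    have b2 := mul_le_mul_of_nonneg_left (one_le_pow₀ (n := 237 * e) hu1)
      (by positivity : 0 ≤ u ^ (300 * e))
    rw [pow_add] at b1 ⊢
    linarith
  have a3 : u ^ (298 * e) ≤ 1 / u ^ 60 * μ * u ^ (299 * e) := by
    refine le_trans ?_ (mul_le_mul_of_nonneg_right (mul_le_mul_of_nonneg_left hμ (by positivity))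
      (by positivity))
    rw [div_mul_div_comm, one_mul, one_div_mul_eq_div, le_div_iff₀ (by positivity), ← pow_succ,
      ← pow_add]
    exact pow_le_pow_right₀ hu1 (by omega)
  calc _ ≤ (((336 : ℕ) + 1) * u ^ e) ^ 2 * (u ^ (336 * e) * u ^ (538 * e)) := by gcongr
    _ = 113569 * u ^ (e * 2 + (336 * e + 538 * e)) := by
      rw [mul_pow, ← pow_mul, ← pow_add, mul_assoc, ← pow_add]; norm_num
    _ ≤ u ^ (300 * e + 298 * e * 2) := pw hu1 (by linarith) (by omega)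
    _ = u ^ (300 * e) * (u ^ (298 * e)) ^ 2 := by rw [pow_add, ← pow_mul]
    _ ≤ _ := by gcongr

lemma numF {u : ℝ} {e : ℕ} (hu : 4 ^ 12 ≤ u) (he : 10000 ≤ e) :
    u ^ 2 / u ^ 65 + u * (1 / u ^ 60) + u ^ 2 * (u ^ (299 * e) * u ^ 65 / u ^ (300 * e)) ≤
      (1 / u ^ 28) ^ 2 := by
  have hu1 : 1 ≤ u := by linarith
  have a1 : u ^ 2 / u ^ 65 ≤ 1 / u ^ 59 := by
    rw [div_le_div_iff₀ (by positivity) (by positivity), one_mul, ← pow_add]
    exact pow_le_pow_right₀ hu1 (by omega)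
  have a2 : u * (1 / u ^ 60) = 1 / u ^ 59 := by field_simp
  have a3 : u ^ 2 * (u ^ (299 * e) * u ^ 65 / u ^ (300 * e)) ≤ 1 / u ^ 59 := by
    rw [← mul_div_assoc, div_le_div_iff₀ (by positivity) (by positivity), one_mul, ← pow_add,
      ← pow_add, ← pow_add]
    exact pow_le_pow_right₀ hu1 (by omega)
  have a4 : 3 / u ^ 59 ≤ (1 / u ^ 28) ^ 2 := by
    rw [one_div_pow, ← pow_mul, div_le_div_iff₀ (by positivity) (by positivity), one_mul]
    exact pw hu1 (by linarith) (by omega)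
  have a5 : 3 / u ^ 59 = 3 * (1 / u ^ 59) := by ring
  linarith

lemma numE {u n L k f μ : ℝ} (hu : 4 ^ 12 ≤ u) (hn : u ^ 269 ≤ n) (hL : L * u ^ 69 ≤ n)
    (hk : k ≤ u) (hf0 : 0 ≤ f) (hf : f ≤ u ^ 13) (hμ : 1 / u ≤ μ) :
    (100 * (k * (4 * f ^ 2 * (4 * (1 / u ^ 175) * (2 * n + 1)))) * (n * (2 * (u ^ 131 * n) + 1)) +
      100 * (2 * n + 1) * (4 * n * (2 * (u ^ 131 * n) / u ^ 200 + L) +
        u ^ 200 * (n * (3 * (2 * (u ^ 131 * n) / u ^ 400 + 1))))) / μ ≤ n ^ 3 / u ^ 2 := by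
  have hu1 : 1 ≤ u := by linarith
  have hn1 : 1 ≤ n := (one_le_pow₀ hu1).trans hn
  have a1 : 2 * n + 1 ≤ 3 * n := by linarith
  have a2 : 2 * (u ^ 131 * n) + 1 ≤ 3 * (u ^ 131 * n) := by
    linarith [one_le_mul_of_one_le_of_one_le (one_le_pow₀ (n := 131) hu1) hn1]
  have a3 : L ≤ n / u ^ 69 := by rwa [le_div_iff₀ (by positivity)]
  have a4 : u ^ 200 ≤ n / u ^ 69 := by rwa [le_div_iff₀ (by positivity), ← pow_add]
  have b1 : 100 * (k * (4 * f ^ 2 * (4 * (1 / u ^ 175) * (2 * n + 1)))) *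
      (n * (2 * (u ^ 131 * n) + 1)) ≤ 14400 * (n ^ 3 / u ^ 17) :=
    calc _ ≤ 100 * (u * (4 * (u ^ 13) ^ 2 * (4 * (1 / u ^ 175) * (3 * n)))) *
          (n * (3 * (u ^ 131 * n))) := by gcongr
      _ = _ := by field_simp; norm_num
  have b2 : 4 * n * (2 * (u ^ 131 * n) / u ^ 200 + L) +
      u ^ 200 * (n * (3 * (2 * (u ^ 131 * n) / u ^ 400 + 1))) ≤ 21 * n * (n / u ^ 69) := by
    have c1 : 2 * (u ^ 131 * n) / u ^ 200 = 2 * (n / u ^ 69) := by field_simp
    have c2 : u ^ 200 * (n * (3 * (2 * (u ^ 131 * n) / u ^ 400 + 1))) =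
        6 * n * (n / u ^ 69) + 3 * n * u ^ 200 := by field_simp; ring
    rw [c1, c2]
    nlinarith [mul_le_mul_of_nonneg_left a3 (zero_le_one.trans hn1),
      mul_le_mul_of_nonneg_left a4 (zero_le_one.trans hn1)]
  have b3 : 100 * (2 * n + 1) * (21 * n * (n / u ^ 69)) ≤ 6300 * (n ^ 3 / u ^ 17) :=
    calc _ ≤ 100 * (3 * n) * (21 * n * (n / u ^ 17)) := by gcongr; omega
      _ = _ := by ring
  have b4 := mul_le_mul_of_nonneg_left b2 (by positivity : 0 ≤ 100 * (2 * n + 1))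
  have b5 : 20700 * (n ^ 3 / u ^ 17) ≤ n ^ 3 / u ^ 2 * (1 / u) := by
    rw [mul_div_left_comm, div_mul_div_comm, mul_one, div_eq_mul_one_div (n ^ 3), ← pow_succ]
    refine mul_le_mul_of_nonneg_left ?_ (by positivity)
    rw [div_le_div_iff₀ (by positivity) (by positivity), one_mul]
    exact pw hu1 (by linarith) (by omega)
  rw [div_le_iff₀ (lt_of_lt_of_le (by positivity) hμ)]
  linarith [mul_le_mul_of_nonneg_left hμ (by positivity : 0 ≤ n ^ 3 / u ^ 2)]

end Pool.Agent.Lib.MP_d315f4_nt
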