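import Pool.Agent.Lib.MP_d315f4_nt.VdC

/-!
Phase functions on a line and the majorant inequality.
-/

set_option autoImplicit false
set_option maxHeartbeats 400000

open Finset Real

namespace Pool.Agent.Lib.MP_d315f4_nt

/-- sums of `k` periodic functions with small periods. -/
def StrA (L P : ℕ) : ℕ → (ℤ → ℝ) → Prop
  | 0, Φ => ∀ n, Φ n = 0
  | k + 1, Φ => ∃ (m : ℕ) (Φ1 Φ2 : ℤ → ℝ), m ≤ L ∧ ¬ P ∣ m ∧ (∀ n, Φ1 (n + m) = Φ1 n) ∧
      StrA L P k Φ2 ∧ ∀ n, Φ n = Φ1 n + Φ2 n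

lemma StrA.toStr {L P : ℕ} (h : ℝ) : ∀ {k : ℕ} {Φ : ℤ → ℝ}, StrA L P k Φ →
    Str L P k fun n => ee (h * Φ n)
  | 0, _, h0 => fun n => by simp [h0 n]
  | _ + 1, _, ⟨m, Φ1, Φ2, hm, hP, h0, h1, h2⟩ =>
    ⟨m, fun n => ee (h * Φ1 n), _, hm, hP, fun n => by simp only [h0], fun n => by simp,
      h1.toStr h, fun n => by simp only [h2, mul_add, ee_add]⟩

lemma StrA.zero {L P : ℕ} (hL : 1 ≤ L) (hP : ¬ P ∣ 1) : ∀ k, StrA L P k fun _ => 0
  | 0 => fun _ => rfl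
  | k + 1 => ⟨1, fun _ => 0, _, hL, hP, fun _ => rfl, StrA.zero hL hP k, fun _ => by simp⟩

lemma split_modulus {M L T : ℕ} (hM : L < M) (hT : T * T ≤ L)
    (hpp : ∀ l e : ℕ, l.Prime → l ^ e ∣ M → l ^ e ≤ L) :
    ∃ m m', M = m * m' ∧ m.Coprime m' ∧ T ≤ m ∧ m ≤ L := by
  classical
  have hL : 1 ≤ L := by simpa using hpp 2 0 Nat.prime_two (by simp)
  have hex : ∃ m, (∃ m', M = m * m' ∧ m.Coprime m') ∧ T ≤ m :=
    ⟨M, ⟨1, by simp, by simp⟩, by nlinarith⟩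
  obtain ⟨⟨m', h1, h2⟩, h3⟩ := Nat.find_spec hex
  have hmin := fun m => Nat.find_min hex (m := m)
  generalize Nat.find hex = m at *
  refine ⟨m, m', h1, h2, h3, ?_⟩
  by_contra hlt
  push Not at hlt
  obtain ⟨l, hl, hlm⟩ := Nat.exists_prime_and_dvd (show m ≠ 1 by omega)
  obtain ⟨v, m1, h4, h5⟩ := Nat.exists_eq_pow_mul_and_not_dvd (show m ≠ 0 by omega) l hl.ne_one
  have hco : (l ^ v).Coprime m1 := ((Nat.Prime.coprime_iff_not_dvd hl).2 h4).pow_left v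
  have h6 : l ^ v ≤ L := hpp l v hl (by rw [h1, h5, mul_assoc]; exact dvd_mul_right _ _)
  have hv : v ≠ 0 := by
    rintro rfl
    exact h4 (by simpa [h5] using hlm)
  have h7 : 1 < l ^ v := Nat.one_lt_pow hv hl.one_lt
  have h8 : 0 < m1 := Nat.pos_of_ne_zero (by rintro rfl; simp at h4)
  have h9 : l ^ v < T := by
    by_contra h
    refine hmin (l ^ v) (by omega) ⟨⟨m1 * m', by rw [h1, h5, mul_assoc], ?_⟩, by omega⟩
    exact Nat.Coprime.mul_right hco (h2.coprime_dvd_left (h5 ▸ dvd_mul_right _ _))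
  have h10 : m1 < T := by
    by_contra h
    refine hmin m1 (by rw [h5]; nlinarith) ⟨⟨l ^ v * m', by rw [h1, h5]; ring, ?_⟩, by omega⟩
    exact Nat.Coprime.mul_right hco.symm (h2.coprime_dvd_left (h5 ▸ dvd_mul_left _ _))
  have : m < T * T := by rw [h5]; exact Nat.mul_lt_mul'' h9 h10
  omega

section
variable (Nf Df : ℤ → ℤ) (hN : ∀ m n : ℤ, m ∣ Nf (n + m) - Nf n)
  (hD : ∀ m n : ℤ, m ∣ Df (n + m) - Df n) (k : ℤ)
include hN hD

lemma phase_one (m : ℕ) (hm : 0 < m) (u : ℤ) : ∃ Φ : ℤ → ℝ, (∀ n, Φ (n + m) = Φ n) ∧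
    ∀ n σ p : ℤ, Nf n = k * p → IsCoprime p m → (m : ℤ) ∣ Nf n * σ - k * Df n →
      ∃ z : ℤ, Φ n = u * k * σ / m + z := by
  refine ⟨fun n => u * k * (Classical.epsilon fun σ : ℤ => (m : ℤ) ∣ Nf n * σ - k * Df n : ℤ) / m,
    fun n => ?_, fun n σ p h1 h2 h3 => ?_⟩
  · have : (fun σ : ℤ => (m : ℤ) ∣ Nf (n + m) * σ - k * Df (n + m)) =
        fun σ : ℤ => (m : ℤ) ∣ Nf n * σ - k * Df n := by
      funext σ
      apply propext
      apply dvd_iff_dvd_of_dvd_sub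
      have := dvd_sub ((hN m n).mul_right σ) ((hD m n).mul_left k)
      convert this using 1
      ring
    simp only [this]
  · have h4 := Classical.epsilon_spec (p := fun σ : ℤ => (m : ℤ) ∣ Nf n * σ - k * Df n) ⟨σ, h3⟩
    beta_reduce
    generalize (Classical.epsilon fun σ : ℤ => (m : ℤ) ∣ Nf n * σ - k * Df n) = τ at h4 ⊢
    have h5 : (m : ℤ) ∣ p * (k * (τ - σ)) := by
      have := dvd_sub h4 h3
      rw [h1] at this
      exact this.trans (dvd_of_eq (by ring))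
    obtain ⟨t, ht⟩ := h2.symm.dvd_of_dvd_mul_left h5
    refine ⟨u * t, ?_⟩
    have h6 : (k : ℝ) * (τ - σ) = m * t := by exact_mod_cast ht
    have h7 : (m : ℝ) ≠ 0 := by positivity
    push_cast
    field_simp
    linear_combination (u : ℝ) * h6

lemma phase_many {L P T : ℕ} (hT : T * T ≤ L) : ∀ (κ M : ℕ), 0 < M → M ≤ T ^ κ → ¬ P ∣ M →
    (∀ l e : ℕ, l.Prime → l ^ e ∣ M → l ^ e ≤ L) → ∀ u : ℤ, ∃ Φ : ℤ → ℝ, StrA L P κ Φ ∧
    ∀ n σ p : ℤ, Nf n = k * p → IsCoprime p M → (M : ℤ) ∣ Nf n * σ - k * Df n →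
      ∃ z : ℤ, Φ n = u * k * σ / M + z := by
  intro κ
  induction κ with
  | zero =>
    intro M h0 h1 _ _ u
    obtain rfl : M = 1 := by simp at h1; omega
    exact ⟨fun _ => 0, fun _ => rfl, fun n σ p _ _ _ => ⟨-(u * k * σ), by simp⟩⟩
  | succ κ ih =>
    intro M h0 h1 hP hpp u
    have hL : 1 ≤ L := by simpa using hpp 2 0 Nat.prime_two (by simp)
    rcases le_or_gt M L with h | h
    · obtain ⟨Φ, h2, h3⟩ := phase_one Nf Df hN hD k M h0 u
      exact ⟨Φ, ⟨M, Φ, _, h, hP, h2, StrA.zero hL (fun h => hP (h.trans (one_dvd _))) κ,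
        fun n => by simp⟩, h3⟩
    · obtain ⟨m, m', h2, h3, h4, h5⟩ := split_modulus h hT hpp
      have hm : 0 < m := Nat.pos_of_mul_pos_right (h2 ▸ h0)
      have hm' : 0 < m' := Nat.pos_of_mul_pos_left (h2 ▸ h0)
      have hT0 : 0 < T := by
        rcases Nat.eq_zero_or_pos T with rfl | h
        · simp at h1; omega
        · exact h
      obtain ⟨x, y, hxy⟩ := Nat.isCoprime_iff_coprime.2 h3
      obtain ⟨Φ1, h6, h7⟩ := phase_one Nf Df hN hD k m hm (u * y)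
      obtain ⟨Φ2, h8, h9⟩ := ih m' hm' (by
        refine Nat.le_of_mul_le_mul_left ?_ hT0
        calc T * m' ≤ m * m' := Nat.mul_le_mul_right _ h4
          _ ≤ T * T ^ κ := by rw [← h2, ← pow_succ']; exact h1)
        (fun h => hP (h2 ▸ h.mul_left _)) (fun l e hl h => hpp l e hl (h2 ▸ h.mul_left _)) (u * x)
      refine ⟨fun n => Φ1 n + Φ2 n, ⟨m, Φ1, Φ2, h5, fun h => hP (h2 ▸ h.mul_right _), h6, h8,
        fun _ => rfl⟩, fun n σ p a1 a2 a3 => ?_⟩
      rw [h2, Nat.cast_mul] at a2 a3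
      obtain ⟨z1, e1⟩ := h7 n σ p a1 a2.of_mul_right_left (dvd_of_mul_right_dvd a3)
      obtain ⟨z2, e2⟩ := h9 n σ p a1 a2.of_mul_right_right (dvd_of_mul_left_dvd a3)
      refine ⟨z1 + z2, ?_⟩
      have h10 : (x : ℝ) * m + y * m' = 1 := by exact_mod_cast hxy
      have h11 : (m : ℝ) ≠ 0 := by positivity
      have h12 : (m' : ℝ) ≠ 0 := by positivity
      simp only [e1, e2, h2]
      push_cast
      field_simp
      linear_combination (u : ℝ) * k * σ * h10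

/-- The phase function on a line whose modulus has a large prime factor. -/
lemma phase_exists {L P T : ℕ} [hP : Fact P.Prime] (hT : T * T ≤ L) (κ M : ℕ) (h0 : 0 < M)
    (h1 : M ≤ T ^ κ) (hPM : ¬ P ∣ M) (hpp : ∀ l e : ℕ, l.Prime → l ^ e ∣ M → l ^ e ≤ L)
    (q y e0 : ℤ) (hq : q.natAbs = P * M) (hy : ¬ (P : ℤ) ∣ y) (hk : ¬ (P : ℤ) ∣ k) :
    ∃ Φ : ℤ → ℝ, (∀ h : ℤ, ¬ (P : ℤ) ∣ h → ∃ (c : ZMod P → ZMod P) (G : ℤ → ℂ), c ≠ 0 ∧
      supp c ≤ 1 ∧ Str L P κ G ∧ ∀ n, ee (h * Φ n) = G n * Fc c n) ∧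
    ∀ n σ p : ℤ, Nf n = k * p → IsCoprime p q → q ∣ Nf n * σ - k * Df n →
      q ∣ (e0 - y * n) * σ - k * y ^ 2 → ∃ z : ℤ, Φ n = k * σ / q + z := by
  obtain ⟨x, x', hx⟩ := Nat.isCoprime_iff_coprime.2 ((Nat.Prime.coprime_iff_not_dvd hP.out).2 hPM)
  obtain ⟨ε, hε, hqε⟩ : ∃ ε : ℤ, ε * ε = 1 ∧ q = ε * (P * M) := by
    rcases Int.natAbs_eq q with h | h
    · exact ⟨1, by simp, by rw [h, hq]; simp⟩
    · exact ⟨-1, by simp, by rw [h, hq]; simp⟩
  obtain ⟨Φ, h2, h3⟩ := phase_many Nf Df hN hD k hT κ M h0 h1 hPM hpp (ε * x)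
  have hy' : (y : ZMod P) ≠ 0 := (ZMod.intCast_zmod_eq_zero_iff_dvd _ _).not.2 hy
  have hk' : (k : ZMod P) ≠ 0 := (ZMod.intCast_zmod_eq_zero_iff_dvd _ _).not.2 hk
  have hx' : (x' : ZMod P) * M = 1 := by
    have := congrArg (Int.cast : ℤ → ZMod P) hx
    simpa using this
  have hε' : (ε : ZMod P) * ε = 1 := by exact_mod_cast congrArg (Int.cast : ℤ → ZMod P) hε
  set s0 : ZMod P := (e0 : ZMod P) / y with hs0
  set c0 : ZMod P := -(ε * x' * k ^ 2 * y) with hc0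
  refine ⟨fun n => Φ n + ((c0 * ((n : ZMod P) - s0)⁻¹).val : ℝ) / P, fun h hh => ?_,
    fun n σ p a1 a2 a3 a4 => ?_⟩
  · have hh' : (h : ZMod P) ≠ 0 := (ZMod.intCast_zmod_eq_zero_iff_dvd _ _).not.2 hh
    refine ⟨Pi.single s0 (h * c0), _, ?_, ?_, h2.toStr h, fun n => ?_⟩
    · rw [Ne, Pi.single_eq_zero_iff, hc0]
      have := left_ne_zero_of_mul_eq_one hx'
      have := left_ne_zero_of_mul_eq_one hε'
      simp [*]
    · refine card_le_one.2 fun a ha b hb => ?_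
      simp only [mem_filter, mem_univ, true_and] at ha hb
      rw [Function.mem_support.2 ha |> Pi.support_single_subset,
        Function.mem_support.2 hb |> Pi.support_single_subset]
    · rw [mul_add, ee_add, Fc, sum_eq_single s0 (fun b _ hb => by simp [hb]) (by simp),
        Pi.single_eq_same]
      congr 1
      rw [← mul_div_assoc, ← Int.cast_natCast, ← Int.cast_mul, ← stdAddChar_eq]
      congr 1
      rw [Int.cast_mul, Int.cast_natCast, ZMod.natCast_zmod_val, mul_assoc]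
  · have hMq : (M : ℤ) ∣ q := ⟨ε * P, by rw [hqε]; ring⟩
    have hPq : (P : ℤ) ∣ q := ⟨ε * M, by rw [hqε]; ring⟩
    obtain ⟨z, hz⟩ := h3 n σ p a1 (a2.of_isCoprime_of_dvd_right hMq) (hMq.trans a3)
    have h4 : ((e0 : ZMod P) - y * n) * σ = k * y ^ 2 := by
      have := (ZMod.intCast_zmod_eq_zero_iff_dvd _ _).2 (hPq.trans a4)
      push_cast at this
      linear_combination this
    have h5 : (e0 : ZMod P) - y * n ≠ 0 := by
      intro h
      rw [h, zero_mul] at h4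
      exact mul_ne_zero hk' (pow_ne_zero 2 hy') h4.symm
    have h6 : c0 * ((n : ZMod P) - s0)⁻¹ = ((ε * x' * k * σ : ℤ) : ZMod P) := by
      have h7 : (n : ZMod P) - s0 = -((e0 - y * n) / y) := by rw [hs0]; field_simp; ring
      rw [h7, hc0]
      push_cast
      field_simp
      linear_combination (-(ε : ZMod P) * x') * h4
    obtain ⟨t, ht⟩ : (P : ℤ) ∣ ((c0 * ((n : ZMod P) - s0)⁻¹).val : ℤ) - ε * x' * k * σ := by
      rw [← ZMod.intCast_zmod_eq_zero_iff_dvd, Int.cast_sub, ← h6, Int.cast_natCast,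
        ZMod.natCast_zmod_val, sub_self]
    refine ⟨z + t, ?_⟩
    have h8 : (((c0 * ((n : ZMod P) - s0)⁻¹).val : ℕ) : ℝ) = ε * x' * k * σ + P * t := by
      have : ((c0 * ((n : ZMod P) - s0)⁻¹).val : ℤ) = ε * x' * k * σ + P * t := by omega
      exact_mod_cast this
    have h9 : (x : ℝ) * P + x' * M = 1 := by exact_mod_cast hx
    have h10 : (ε : ℝ) * ε = 1 := by exact_mod_cast hε
    have h11 : (M : ℝ) ≠ 0 := by positivity
    have h12 : (P : ℝ) ≠ 0 := by exact_mod_cast hP.out.ne_zero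
    have h13 : (ε : ℝ) ≠ 0 := left_ne_zero_of_mul_eq_one h10
    simp only [hz, h8, hqε]
    push_cast
    field_simp
    linear_combination (k * σ * ε ^ 2 : ℝ) * h9 + (k * σ : ℝ) * h10

end

lemma majorant {ι : Type} (F : Finset ι) (φ : ι → ℤ → ℝ) (G E x0 : ℝ) (hG : 1 ≤ G) (hE : 0 ≤ E)
    (H : ℕ) (hH : 0 < H) (Φ : ℤ → ℝ) (I S : Finset ℤ) (hS : S ⊆ I)
    (hosc : ∀ h : ℤ, h ≠ 0 → |h| < H → ∀ i ∈ F, ∀ i' ∈ F,
      ‖∑ n ∈ I, ((φ i n * φ i' n : ℝ) : ℂ) * ee (h * Φ n)‖ ≤ E)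
    (hSS : ∀ n ∈ S, (∑ i ∈ F, φ i n) = G ∧ ∃ z : ℤ, |Φ n - x0 - z| ≤ 1 / (8 * H)) :
    (#S : ℝ) ≤ 4 / H * ∑ n ∈ I, ((∑ i ∈ F, φ i n) / G) ^ 2 + 4 * (#F : ℝ) ^ 2 * E := by
  have hH' : (0 : ℝ) < H := by exact_mod_cast hH
  set Λ : ℤ → ℝ := fun n => ((∑ i ∈ F, φ i n) / G) ^ 2 with hΛ
  set D : ℤ → ℂ := fun n => ∑ t ∈ range H, ee (t * (Φ n - x0)) with hD
  have h1 : ∀ n ∈ S, (H : ℝ) ^ 2 / 4 ≤ Λ n * ‖D n‖ ^ 2 := by
    intro n hn
    obtain ⟨a1, z, a2⟩ := hSS n hn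
    have a3 : (H : ℝ) / 2 ≤ (D n).re := by
      rw [hD]
      simp only [Complex.re_sum]
      refine le_trans (le_of_eq ?_) (card_nsmul_le_sum _ _ (1 / 2 : ℝ) fun t ht => ?_)
      · simp [div_eq_mul_inv]
      · rw [show (t : ℝ) * (Φ n - x0) = t * (Φ n - x0 - z) + ((t * z : ℤ) : ℝ) by push_cast; ring,
          ee_add_int, ee_re, ← Real.cos_abs]
        have b1 : (t : ℝ) ≤ H := by exact_mod_cast (mem_range.1 ht).le
        have b2 : |2 * π * (t * (Φ n - x0 - z))| ≤ π / 4 := by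
          rw [abs_mul, abs_mul (t : ℝ), abs_of_pos (by positivity), Nat.abs_cast]
          calc _ ≤ 2 * π * (H * (1 / (8 * H))) := by gcongr
            _ = π / 4 := by field_simp; norm_num
        refine le_trans ?_ (Real.one_sub_mul_le_cos (abs_nonneg _) (by linarith [pi_pos]))
        have b3 : 2 / π * |2 * π * (t * (Φ n - x0 - z))| ≤ 2 / π * (π / 4) := by gcongr
        have b4 : 2 / π * (π / 4) = 1 / 2 := by field_simp; norm_num
        linarith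
    have a4 : (H : ℝ) / 2 ≤ ‖D n‖ := a3.trans (Complex.re_le_norm _)
    simp only [hΛ, a1]
    rw [div_self (by linarith), one_pow, one_mul]
    nlinarith
  have h2 : (#S : ℝ) * (H ^ 2 / 4) ≤ ∑ n ∈ I, Λ n * ‖D n‖ ^ 2 := by
    rw [← nsmul_eq_mul]
    exact (card_nsmul_le_sum _ _ _ h1).trans
      (sum_le_sum_of_subset_of_nonneg hS fun _ _ _ => by positivity)
  have h3 : ∀ h : ℤ, h ≠ 0 → |h| < H → ‖∑ n ∈ I, (Λ n : ℂ) * ee (h * (Φ n - x0))‖ ≤ #F ^ 2 * E := by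
    intro h a1 a2
    have e1 : ∑ n ∈ I, (Λ n : ℂ) * ee (h * (Φ n - x0)) = ee (-(h * x0)) / G ^ 2 *
        ∑ i ∈ F, ∑ i' ∈ F, ∑ n ∈ I, ((φ i n * φ i' n : ℝ) : ℂ) * ee (h * Φ n) := by
      rw [sum_congr rfl fun i _ => sum_comm, sum_comm, mul_sum]
      refine sum_congr rfl fun n _ => ?_
      rw [mul_sub, sub_eq_add_neg, ee_add]
      simp only [← sum_mul, hΛ]
      push_cast
      rw [← sum_mul_sum]
      ring
    rw [e1, norm_mul, norm_div, norm_ee, norm_pow, Complex.norm_real, Real.norm_eq_abs,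
      abs_of_pos (by linarith)]
    have e2 : ‖∑ i ∈ F, ∑ i' ∈ F, ∑ n ∈ I, ((φ i n * φ i' n : ℝ) : ℂ) * ee (h * Φ n)‖ ≤
        #F ^ 2 * E := by
      refine (norm_sum_le _ _).trans ((sum_le_card_nsmul _ _ (#F * E) fun i hi => ?_).trans ?_)
      · refine (norm_sum_le _ _).trans ((sum_le_card_nsmul _ _ E fun i' hi' => ?_).trans ?_)
        · exact hosc h a1 a2 i hi i' hi'
        · rw [nsmul_eq_mul]
      · rw [nsmul_eq_mul]; apply le_of_eq; ring
    refine (mul_le_of_le_one_left (norm_nonneg _) ?_).trans e2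
    rw [div_le_one (by positivity)]
    nlinarith
  have h4 : ∑ n ∈ I, Λ n * ‖D n‖ ^ 2 ≤ H * ∑ n ∈ I, Λ n + H ^ 2 * (#F ^ 2 * E) := by
    have e1 : ((∑ n ∈ I, Λ n * ‖D n‖ ^ 2 : ℝ) : ℂ) = ∑ t ∈ range H, ∑ t' ∈ range H,
        ∑ n ∈ I, (Λ n : ℂ) * ee (((t : ℤ) - t' : ℤ) * (Φ n - x0)) := by
      rw [sum_congr rfl fun i _ => sum_comm, sum_comm]
      push_cast
      refine sum_congr rfl fun n _ => ?_
      simp only [← Complex.mul_conj', hD, map_sum]
      rw [sum_mul_sum]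
      simp only [conj_ee, ← ee_add, mul_sum]
      refine sum_congr rfl fun t _ => sum_congr rfl fun t' _ => ?_
      congr 2
      ring
    have e2 := congrArg (fun z => ‖z‖) e1
    simp only [Complex.norm_real, Real.norm_eq_abs] at e2
    refine (le_abs_self _).trans (e2.le.trans ((norm_sum_le _ _).trans ?_))
    calc _ ≤ ∑ t ∈ range H, (∑ n ∈ I, Λ n + H * (#F ^ 2 * E)) := by
          refine sum_le_sum fun t ht => (norm_sum_le _ _).trans ?_
          rw [← add_sum_erase _ _ ht]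
          refine add_le_add ?_ ?_
          · refine (norm_sum_le _ _).trans (sum_le_sum fun n _ => ?_)
            rw [norm_mul, norm_ee, mul_one, Complex.norm_real, Real.norm_eq_abs,
              abs_of_nonneg (by positivity)]
          · refine (sum_le_card_nsmul _ _ (#F ^ 2 * E) fun t' ht' => ?_).trans ?_
            · have b1 := mem_range.1 (mem_of_mem_erase ht')
              have b2 := mem_range.1 ht
              have b3 := ne_of_mem_erase ht'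
              exact h3 _ (by omega) (by rw [abs_lt]; omega)
            · rw [nsmul_eq_mul]
              gcongr
              exact card_erase_le.trans (card_range H).le
      _ = _ := by rw [sum_const, card_range, nsmul_eq_mul]; ring
  refine le_of_mul_le_mul_right ((h2.trans h4).trans (le_of_eq ?_))
    (by positivity : (0 : ℝ) < H ^ 2 / 4)
  field_simp

end Pool.Agent.Lib.MP_d315f4_nt
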