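import Pool.Agent.Lib.MP_d315f4_nt.Sieve2

/-!
Reduction from roots modulo primes to lattice points in a box.
-/

set_option autoImplicit false
set_option maxHeartbeats 400000

open Finset

namespace Pool.Agent.Lib.MP_d315f4_nt

variable {a2 a1 a0 : ℤ}

lemma pigeon {p M : ℕ} (hp : 0 < p) (h : p < (M + 1) ^ 3) (ν : ℤ) : ∃ a b : ℤ, ∃ c : ℕ,
    |a| ≤ M ∧ |b| ≤ M ∧ c ≤ M ∧ ¬ (a = 0 ∧ b = 0 ∧ (c : ℤ) = 0) ∧
      (p : ℤ) ∣ a + b * ν + c * ν ^ 2 := by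
  have : NeZero p := ⟨hp.ne'⟩
  obtain ⟨u, hu, v, hv, hne, he⟩ := exists_ne_map_eq_of_card_lt_of_maps_to
    (s := range (M + 1) ×ˢ range (M + 1) ×ˢ range (M + 1)) (t := (univ : Finset (ZMod p)))
    (f := fun u => ((u.1 + u.2.1 * ν + u.2.2 * ν ^ 2 : ℤ) : ZMod p))
    (by simpa [← pow_three] using h) fun _ _ => mem_coe.2 (mem_univ _)
  wlog hc : v.2.2 ≤ u.2.2 generalizing u v
  · exact this v hv u hu hne.symm he.symm (not_le.1 hc).le
  simp only [mem_product, mem_range] at hu hv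
  refine ⟨u.1 - v.1, u.2.1 - v.2.1, u.2.2 - v.2.2, abs_le.2 (by omega), abs_le.2 (by omega),
    by omega, fun h0 =>
    hne (Prod.ext (by omega) (Prod.ext (by omega) (by omega))), ?_⟩
  have h1 := (ZMod.intCast_eq_intCast_iff_dvd_sub _ _ _).1 he.symm
  rw [Nat.cast_sub hc]
  convert h1 using 1
  ring

/-- the lattice points that are counted. -/
def InS (a2 a1 a0 : ℤ) (K0 P0 : ℕ) (A B : ℝ) (a b c : ℤ) : Prop :=
  ∃ (p : ℕ) (ν k : ℤ), p.Prime ∧ P0 < p ∧ k ≠ 0 ∧ |k| ≤ K0 ∧ nm a2 a1 a0 a b c = k * p ∧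
    (p : ℤ) ∣ fv a2 a1 a0 ν ∧ (p : ℤ) ∣ a + b * ν + c * ν ^ 2 ∧ A ≤ ν / p ∧ (ν : ℝ) / p ≤ B

lemma card_fiber (X : Finset (ℕ × ℕ))
    (hX : ∀ x ∈ X, x.1.Prime ∧ x.2 < x.1 ∧ (x.1 : ℤ) ∣ fv a2 a1 a0 x.2) (p : ℕ) :
    #{x ∈ X | x.1 = p} ≤ 3 := by
  rcases {x ∈ X | x.1 = p}.eq_empty_or_nonempty with h0 | ⟨x0, h0⟩
  · simp [h0]
  have hp : p.Prime := (mem_filter.1 h0).2 ▸ (hX x0 (mem_filter.1 h0).1).1
  refine le_trans (card_le_card_of_injOn Prod.snd (fun x hx => ?_) fun x hx y hy h => ?_)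
    (card_roots_le a2 a1 a0 hp)
  · obtain ⟨h1, rfl⟩ := mem_filter.1 hx
    exact mem_filter.2 ⟨mem_range.2 (hX x h1).2.1, (hX x h1).2.2⟩
  · exact Prod.ext ((mem_filter.1 hx).2.trans (mem_filter.1 hy).2.symm) h

lemma card_le_three (X : Finset (ℕ × ℕ))
    (hX : ∀ x ∈ X, x.1.Prime ∧ x.2 < x.1 ∧ (x.1 : ℤ) ∣ fv a2 a1 a0 x.2) (T : Finset ℕ)
    (hT : ∀ x ∈ X, x.1 ∈ T) : #X ≤ 3 * #T :=
  card_le_mul_card_image_of_maps_to hT 3 fun p _ => card_fiber X hX p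

open Classical in
theorem reduce (hI : Irr a2 a1 a0) {H0 K0 P0 N : ℕ} (hH : 1 ≤ H0) (h2 : |a2| ≤ H0)
    (h1 : |a1| ≤ H0) (h0 : |a0| ≤ H0) (hK : K0 = 17 * H0 ^ 2) (hP : K0 ≤ P0) (A B : ℝ)
    (X : Finset (ℕ × ℕ)) (hX : ∀ x ∈ X, x.1.Prime ∧ x.2 < x.1 ∧ (x.1 : ℤ) ∣ fv a2 a1 a0 x.2)
    (hX2 : ∀ x ∈ X, x.1 ≤ N ^ 3 ∧ A ≤ x.2 / x.1 ∧ (x.2 : ℝ) / x.1 ≤ B) :
    (#X : ℝ) ≤ 3 * (P0 + 1) + 3 * (2 * N + 1) ^ 2 +
      3 * bs N fun a b c => if InS a2 a1 a0 K0 P0 A B a b c then 1 else 0 := by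
  have e1 : #{x ∈ X | ¬ P0 < x.1} ≤ 3 * (P0 + 1) := by
    simpa using card_le_three _ (fun x hx => hX x (mem_filter.1 hx).1) (range (P0 + 1))
      fun x hx => mem_range.2 (by have := (mem_filter.1 hx).2; omega)
  have key : ∀ x : ℕ × ℕ, ∃ u : ℤ × ℤ × ℕ, ∃ k : ℤ, x ∈ {x ∈ X | P0 < x.1} →
      |u.1| ≤ N ∧ |u.2.1| ≤ N ∧ u.2.2 ≤ N ∧ k ≠ 0 ∧ |k| ≤ K0 ∧
        nm a2 a1 a0 u.1 u.2.1 u.2.2 = k * x.1 ∧
        (x.1 : ℤ) ∣ u.1 + u.2.1 * x.2 + u.2.2 * (x.2 : ℤ) ^ 2 := by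
    intro x
    by_cases hx : x ∈ {x ∈ X | P0 < x.1}
    swap
    · exact ⟨0, 0, fun h => absurd h hx⟩
    obtain ⟨b1, -, b3⟩ := hX x (mem_filter.1 hx).1
    have b4 := (hX2 x (mem_filter.1 hx).1).1
    have hex : ∃ M, x.1 < (M + 1) ^ 3 := ⟨x.1, by nlinarith [sq_nonneg x.1]⟩
    have c1 := Nat.find_spec hex
    have c2 : Nat.find hex ^ 3 ≤ x.1 := by
      rcases h : Nat.find hex with _ | m
      · simp
      · exact not_lt.1 (Nat.find_min hex (m := m) (by omega))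
    generalize Nat.find hex = M at c1 c2
    have c3 : M ≤ N := (Nat.pow_le_pow_iff_left (by norm_num)).1 (c2.trans b4)
    obtain ⟨a, b, c, d1, d2, d3, d4, d5⟩ := pigeon b1.pos c1 x.2
    obtain ⟨k, hk⟩ := (root_dvd b3 d5).1
    have d6 := nm_bd (y := a) (b := b) (c := c) (Y := M) (by exact_mod_cast hH) h2 h1 h0 d1 d2
      (by simpa using d3)
    have d7 : (0 : ℤ) < x.1 := by exact_mod_cast b1.pos
    refine ⟨(a, b, c), k, fun _ => ⟨d1.trans (by exact_mod_cast c3), d2.trans (by exact_mod_cast c3),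
      d3.trans c3, ?_, ?_, by rw [hk, mul_comm], d5⟩⟩
    · rintro rfl
      exact hI.nm_ne d4 (by simpa using hk)
    · rw [hk, abs_mul, abs_of_pos d7] at d6
      refine le_of_mul_le_mul_left (d6.trans ?_) d7
      have : (M : ℤ) ^ 3 ≤ x.1 := by exact_mod_cast c2
      rw [hK]
      push_cast
      nlinarith [sq_nonneg (H0 : ℤ)]
  choose g k hg using key
  have e2 := card_le_mul_card_image_of_maps_to (f := g) (s := {x ∈ X | P0 < x.1})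
    (t := (Icc (-(N : ℤ)) N ×ˢ Icc (-(N : ℤ)) N ×ˢ range (N + 1)).filter
      fun u => InS a2 a1 a0 K0 P0 A B u.1 u.2.1 u.2.2) (fun x hx => by
        obtain ⟨d1, d2, d3, d4, d5, d6, d7⟩ := hg x hx
        obtain ⟨d8, d9⟩ := mem_filter.1 hx
        refine mem_filter.2 ⟨mem_product.2 ⟨mem_Icc.2 (abs_le.1 d1), mem_product.2
          ⟨mem_Icc.2 (abs_le.1 d2), mem_range.2 (by omega)⟩⟩,
          x.1, x.2, k x, (hX x d8).1, d9, d4, d5, d6, (hX x d8).2.2, d7, ?_⟩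
        simpa using (hX2 x d8).2) 3 (fun u _ => by
        rcases {x ∈ {x ∈ X | P0 < x.1} | g x = u}.eq_empty_or_nonempty with h0 | ⟨y, hy⟩
        · simp only [h0, card_empty, zero_le]
        refine le_trans (card_le_card fun x hx => ?_) (card_fiber X hX y.1)
        obtain ⟨x1, x2⟩ := mem_filter.1 hx
        obtain ⟨y1, y2⟩ := mem_filter.1 hy
        refine mem_filter.2 ⟨(mem_filter.1 x1).1, ?_⟩
        obtain ⟨-, -, -, -, -, d6, -⟩ := hg x x1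
        obtain ⟨-, -, -, f4, f5, f6, -⟩ := hg y y1
        rw [x2] at d6
        rw [y2, d6] at f6
        have p1 := (hX x (mem_filter.1 x1).1).1
        have p2 := (mem_filter.1 x1).2
        rcases (Nat.prime_iff_prime_int.1 p1).dvd_or_dvd (f6 ▸ dvd_mul_left _ _) with h | h
        · have := Int.le_of_dvd (abs_pos.2 f4) ((dvd_abs _ _).2 h)
          omega
        · exact (Nat.prime_dvd_prime_iff_eq p1 (hX y (mem_filter.1 y1).1).1).1
            (by exact_mod_cast h))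
  have e3 : (#((Icc (-(N : ℤ)) N ×ˢ Icc (-(N : ℤ)) N ×ˢ range (N + 1)).filter
      fun u => InS a2 a1 a0 K0 P0 A B u.1 u.2.1 u.2.2) : ℝ) ≤ (2 * N + 1) ^ 2 +
      bs N fun a b c => if InS a2 a1 a0 K0 P0 A B a b c then 1 else 0 := by
    rw [card_filter, bs]
    push_cast
    rw [sum_product, sq, ← card_Icc_N, ← nsmul_eq_mul, ← sum_const, ← sum_add_distrib]
    refine sum_le_sum fun a _ => ?_
    rw [sum_product, card_eq_sum_ones, Nat.cast_sum, ← sum_add_distrib]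
    refine sum_le_sum fun b _ => ?_
    rw [sum_range_succ', add_comm]
    push_cast
    refine add_le_add ?_ le_rfl
    split_ifs <;> norm_num
  have e4 := card_filter_add_card_filter_not (s := X) fun x => P0 < x.1
  have e5 : (#X : ℝ) ≤ 3 * (P0 + 1) + 3 * #((Icc (-(N : ℤ)) N ×ˢ Icc (-(N : ℤ)) N ×ˢ
      range (N + 1)).filter fun u => InS a2 a1 a0 K0 P0 A B u.1 u.2.1 u.2.2) := by
    exact_mod_cast (by omega)
  linarith

/-- the points of the box on a line. -/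
noncomputable def lin (N : ℕ) (j y c : ℤ) : Finset ℤ :=
  (Icc (-(N : ℤ)) N).filter fun b => |y + j * b - j ^ 2 * c| ≤ N

lemma lin_eq (N : ℕ) {j : ℤ} (hj : 0 ≤ j) (y c : ℤ) :
    ∃ s e : ℤ, lin N j y c = Ico s e ∧ (e : ℝ) - s ≤ 2 * N + 1 := by
  rcases (lin N j y c).eq_empty_or_nonempty with h | h
  · exact ⟨0, 0, by simp [h], by simp; positivity⟩
  have h1 := mem_filter.1 (min'_mem _ h)
  have h2 := mem_filter.1 (max'_mem _ h)
  refine ⟨(lin N j y c).min' h, (lin N j y c).max' h + 1, ?_, ?_⟩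
  · ext b
    refine ⟨fun hb => mem_Ico.2 ⟨min'_le _ _ hb, Int.lt_add_one_iff.2 (le_max' _ _ hb)⟩,
      fun hb => ?_⟩
    obtain ⟨b1, b2⟩ := mem_Ico.1 hb
    have b3 := mul_le_mul_of_nonneg_left b1 hj
    have b4 := mul_le_mul_of_nonneg_left (Int.lt_add_one_iff.1 b2) hj
    simp only [mem_Icc, abs_le] at h1 h2
    exact mem_filter.2 ⟨mem_Icc.2 ⟨by linarith [h1.1.1], by linarith [h2.1.2]⟩,
      abs_le.2 ⟨by linarith [h1.2.1], by linarith [h2.2.2]⟩⟩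
  · have a1 := (mem_Icc.1 h1.1).1
    have a2 := (mem_Icc.1 h2.1).2
    exact_mod_cast (by linarith : (lin N j y c).max' h + 1 - (lin N j y c).min' h ≤ 2 * N + 1)

lemma bs_lines (N Y : ℕ) {j : ℤ} (hj : 0 ≤ j) (hY : N + j * N + j ^ 2 * N ≤ Y)
    (F : ℤ → ℤ → ℤ → ℝ) : bs N F = ∑ c ∈ range N, ∑ y ∈ Icc (-(Y : ℤ)) Y,
      ∑ b ∈ lin N j y (c + 1), F (y + j * b - j ^ 2 * (c + 1)) b (c + 1) := by
  rw [bs, sum_comm]
  simp only [lin, sum_filter]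
  refine Eq.trans ?_ (sum_congr rfl fun c _ => sum_comm).symm
  rw [sum_comm (s := range N)]
  refine sum_congr rfl fun b hb => ?_
  rw [sum_comm]
  refine sum_congr rfl fun c hc => ?_
  rw [← sum_filter]
  have hb' := abs_le.2 (mem_Icc.1 hb)
  have hc' : (c : ℤ) + 1 ≤ N := by have := mem_range.1 hc; omega
  refine sum_bij' (fun a _ => a - j * b + j ^ 2 * (c + 1)) (fun y _ => y + j * b - j ^ 2 * (c + 1))
    (fun a ha => ?_) (fun y hy => mem_Icc.2 (abs_le.1 (mem_filter.1 hy).2))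
    (fun a _ => by ring) (fun y _ => by ring) fun a _ => by congr 1; ring
  obtain ⟨a1, a2⟩ := mem_Icc.1 ha
  have a3 := mul_le_mul_of_nonneg_left (abs_le.1 hb').1 hj
  have a4 := mul_le_mul_of_nonneg_left (abs_le.1 hb').2 hj
  have a5 := mul_le_mul_of_nonneg_left hc' (sq_nonneg j)
  have a6 : 0 ≤ j ^ 2 * (c + 1) := by positivity
  have a7 : 0 ≤ j ^ 2 * N := by positivity
  exact mem_filter.2 ⟨mem_Icc.2 ⟨by linarith, by linarith⟩, abs_le.2 ⟨by linarith, by linarith⟩⟩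

end Pool.Agent.Lib.MP_d315f4_nt
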