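import Pool.Agent.Lib.MP_d315f4_nt.Sieve

/-!
Selberg weights on the box: the package of properties.
-/

set_option autoImplicit false
set_option maxHeartbeats 400000

open Finset Real

namespace Pool.Agent.Lib.MP_d315f4_nt

open Pool.Agent.Lib.MP_502c58_co.H65

variable (a2 a1 a0 : ℤ)

lemma sm_ite {q : ℕ} (hq : 0 < q) (x y : ℝ) :
    sm q (fun a b c => if (q : ℤ) ∣ nm a2 a1 a0 a b c then x else y) =
      q ^ 3 * (dens a2 a1 a0 q * x + (1 - dens a2 a1 a0 q) * y) := by
  have hq' : (q : ℝ) ≠ 0 := by positivity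
  have h : ∀ a b c : ℤ, (if (q : ℤ) ∣ nm a2 a1 a0 a b c then x else y) =
      (if (q : ℤ) ∣ nm a2 a1 a0 a b c then 1 else 0) * (x - y) + y := by
    intro a b c; split_ifs <;> ring
  simp only [h, dens, sm, sum_add_distrib, ← sum_mul, sum_const, card_range, nsmul_eq_mul]
  field_simp
  ring

theorem weights (P : Finset ℕ) (hP : ∀ q ∈ P, q.Prime ∧ 6 ≤ q) (z : ℝ) (hz1 : 1 ≤ z)
    (hz : 12 * ∑ q ∈ P, Real.log q / q ≤ Real.log z) :
    ∃ (F : Finset (Finset ℕ)) (φ : Finset ℕ → ℤ → ℤ → ℤ → ℝ) (G : ℝ), 1 ≤ G ∧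
      Real.exp (∑ q ∈ P, (rho a2 a1 a0 q / q - 27 / q ^ 2 : ℝ)) ≤ 2 * G ∧ (#F : ℝ) ≤ z ∧
      (∀ S ∈ F, (∀ a b c, |φ S a b c| ≤ 1) ∧ ∃ m : ℕ, 0 < m ∧ (m : ℝ) ≤ z ∧ Per3 m (φ S)) ∧
      (∀ a b c, (∀ q ∈ P, ¬ (q : ℤ) ∣ nm a2 a1 a0 a b c) → ∑ S ∈ F, φ S a b c = G) ∧
      ∀ N, bs N (fun a b c => ((∑ S ∈ F, φ S a b c) / G) ^ 2) ≤
        vol N / G + 6 * z ^ 4 * (2 * N + 1) ^ 2 := by
  classical
  set ν := dens a2 a1 a0 with hν
  have hpr : ∀ q ∈ P, q.Prime := fun q hq => (hP q hq).1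
  have hν0 : ∀ q, 0 ≤ ν q := dens_nonneg a2 a1 a0
  have hν1 : ∀ q ∈ P, ν q ≤ 1 / 2 := fun q hq => (dens_le a2 a1 a0 (hpr q hq)).trans (by
    have : (6 : ℝ) ≤ q := by exact_mod_cast (hP q hq).2
    rw [div_le_iff₀ (by linarith)]; linarith)
  set F := P.powerset.filter (fun S : Finset ℕ => ∑ q ∈ S, Real.log q ≤ Real.log z) with hF
  have hFs : ∀ S ∈ F, S ⊆ P := fun S hS => mem_powerset.1 (mem_filter.1 hS).1
  have hFz : ∀ S ∈ F, ((∏ q ∈ S, q : ℕ) : ℝ) ≤ z := fun S hS =>
    (sum_log_le_iff hpr (hFs S hS) hz1).1 (mem_filter.1 hS).2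
  have hFc : (#F : ℝ) ≤ z := card_sets_le hpr hz1
  set G := ∑ S ∈ F, ∏ q ∈ S, ν q / (1 - ν q) with hG
  have hgn : ∀ q ∈ P, 0 ≤ ν q / (1 - ν q) := fun q hq =>
    div_nonneg (hν0 q) (by have := hν1 q hq; linarith)
  have hG1 : 1 ≤ G := by
    have : (∅ : Finset ℕ) ∈ F := by
      simp [hF, Real.log_nonneg hz1]
    calc (1:ℝ) = ∏ q ∈ (∅ : Finset ℕ), ν q / (1 - ν q) := by simp
      _ ≤ G := single_le_sum (f := fun S => ∏ q ∈ S, ν q / (1 - ν q))
          (fun S hS => prod_nonneg fun q hq => hgn q (hFs S hS hq)) this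
  have hlog : ∀ q : ℕ, 0 ≤ Real.log q := fun q => Real.log_natCast_nonneg q
  have h2 := markov P (fun q => ν q / (1 - ν q)) (fun q => Real.log q) hgn (fun q _ => hlog q)
    (Real.log z) (by
      refine le_trans ?_ hz
      rw [mul_sum, mul_sum]
      refine sum_le_sum fun q hq => ?_
      have b1 := hν0 q
      have b2 := hν1 q hq
      have b3 : ν q / (1 - ν q) ≤ 2 * ν q := by
        rw [div_le_iff₀ (by linarith)]; nlinarith
      have b4 := dens_le a2 a1 a0 (hpr q hq)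
      have b5 : Real.log q * (ν q / (1 - ν q)) ≤ Real.log q * (2 * (3 / q)) :=
        mul_le_mul_of_nonneg_left (by linarith) (hlog q)
      have b6 : Real.log q * (2 * (3 / q)) = 6 * (Real.log q / q) := by ring
      linarith)
  have hchi : ∀ q ∈ P, ∀ a b c, |chi a2 a1 a0 q a b c| ≤ 1 := by
    intro q hq a b c
    rw [chi]
    split_ifs
    · simp
    · have b2 := hν1 q hq
      rw [abs_of_nonneg (hgn q hq), div_le_one (by linarith)]
      linarith
  have hper : ∀ q, Per3 q (chi a2 a1 a0 q) := fun q a b c a' b' c' h1 h2 h3 => by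
    simp only [chi, nm_per a2 a1 a0 q h1 h2 h3]
  refine ⟨F, fun S a b c => ∏ q ∈ S, chi a2 a1 a0 q a b c, G, hG1, le_trans ?_ h2, hFc,
    fun S hS => ⟨fun a b c => ?_, ∏ q ∈ S, q, prod_pos fun q hq => (hpr q (hFs S hS hq)).pos,
      hFz S hS, per_prod S _ fun q _ => hper q⟩, fun a b c h => ?_, fun N => ?_⟩
  · rw [Real.exp_sum]
    refine prod_le_prod (fun _ _ => (Real.exp_pos _).le) fun q hq => ?_
    refine (Real.exp_le_exp.2 (dens_ge a2 a1 a0 (hpr q hq))).trans ?_
    have b2 := hν1 q hq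
    have b3 : 0 < 1 - ν q := by linarith
    have : 1 + ν q / (1 - ν q) = 1 / (1 - ν q) := by field_simp; ring
    rw [this, le_div_iff₀ b3]
    have := Real.add_one_le_exp (-ν q)
    have e := Real.exp_pos (ν q)
    calc Real.exp (ν q) * (1 - ν q) ≤ Real.exp (ν q) * Real.exp (-ν q) := by
          gcongr; linarith
      _ = 1 := by rw [← Real.exp_add]; simp
  · rw [abs_prod]
    exact prod_le_one (fun _ _ => abs_nonneg _) fun q hq => hchi q (hFs S hS hq) a b c
  · refine sum_congr rfl fun S hS => prod_congr rfl fun q hq => ?_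
    rw [chi, if_neg (h q (hFs S hS hq))]
  · have hST : ∀ S ∈ F, ∀ T ∈ F, bs N (fun a b c => (∏ q ∈ S, chi a2 a1 a0 q a b c) *
        ∏ q ∈ T, chi a2 a1 a0 q a b c) ≤ vol N * (if S = T then ∏ q ∈ S, ν q / (1 - ν q) else 0) +
          6 * z ^ 2 * (2 * N + 1) ^ 2 := by
      intro S hS T hT
      have hU : S ∪ T ⊆ P := union_subset (hFs S hS) (hFs T hT)
      set ψ : ℕ → ℤ → ℤ → ℤ → ℝ := fun q a b c => (if q ∈ S then chi a2 a1 a0 q a b c else 1) *
        (if q ∈ T then chi a2 a1 a0 q a b c else 1) with hψ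
      have e1 : (fun a b c => (∏ q ∈ S, chi a2 a1 a0 q a b c) * ∏ q ∈ T, chi a2 a1 a0 q a b c) =
          fun a b c => ∏ q ∈ S ∪ T, ψ q a b c := by
        funext a b c
        rw [prod_mul_distrib, prod_ite_mem, prod_ite_mem, inter_eq_right.2 subset_union_left,
          inter_eq_right.2 subset_union_right]
      have e2 : ∀ q ∈ S ∪ T, Per3 q (ψ q) := fun q _ a b c a' b' c' h1 h2 h3 => by
        simp only [hψ, hper q _ _ _ _ _ _ h1 h2 h3]
      have e3 : 0 < ∏ q ∈ S ∪ T, q := prod_pos fun q hq => (hpr q (hU hq)).pos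
      have e4 := box_per e3 (per_prod (S ∪ T) ψ e2) (fun a b c => by
        rw [← congrFun (congrFun (congrFun e1 a) b) c, abs_mul, abs_prod, abs_prod]
        exact mul_le_one₀ (prod_le_one (fun _ _ => abs_nonneg _) fun q hq =>
          hchi q (hFs S hS hq) a b c) (prod_nonneg fun _ _ => abs_nonneg _)
          (prod_le_one (fun _ _ => abs_nonneg _) fun q hq => hchi q (hFs T hT hq) a b c)) N
      rw [e1]
      refine e4.trans (add_le_add (le_of_eq ?_) ?_)
      · congr 1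
        rw [sm_prod _ (fun q hq => hpr q (hU hq)) ψ e2, Nat.cast_prod, ← prod_pow, ← prod_div_distrib]
        have e5 : ∀ q ∈ P, sm q (chi a2 a1 a0 q) = 0 := by
          intro q hq
          have b2 := hν1 q hq
          have b3 : 1 - ν q ≠ 0 := by linarith
          unfold chi
          rw [sm_ite a2 a1 a0 (hpr q hq).pos, ← hν]
          field_simp
          ring
        split_ifs with h
        · subst h
          rw [union_self]
          refine prod_congr rfl fun q hq => ?_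
          have b2 := hν1 q (hFs S hS hq)
          have b3 : 1 - ν q ≠ 0 := by linarith
          have b4 : (q : ℝ) ≠ 0 := by exact_mod_cast (hpr q (hFs S hS hq)).ne_zero
          have : ψ q = fun a b c => if (q : ℤ) ∣ nm a2 a1 a0 a b c then 1 else
              (ν q / (1 - ν q)) ^ 2 := by
            funext a b c
            simp only [hψ, if_pos hq, chi]
            split_ifs <;> ring
          rw [this, sm_ite a2 a1 a0 (hpr q (hFs S hS hq)).pos, ← hν]
          field_simp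
          ring
        · obtain ⟨q, hq⟩ : ∃ q, ¬ (q ∈ S ↔ q ∈ T) := by
            by_contra hc
            push Not at hc
            exact h (Finset.ext hc)
          have hqU : q ∈ S ∪ T := by
            rw [mem_union]; tauto
          refine prod_eq_zero hqU ?_
          have : ψ q = chi a2 a1 a0 q := by
            funext a b c
            by_cases h1 : q ∈ S <;> by_cases h2 : q ∈ T <;> simp_all
          rw [this, e5 q (hU hqU), zero_div]
      · gcongr
        have e5 : (∏ q ∈ S ∪ T, q) ≤ (∏ q ∈ S, q) * ∏ q ∈ T, q := by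
          rw [← prod_union_inter]
          exact Nat.le_mul_of_pos_right _ (prod_pos fun q hq =>
              (hpr q (hFs S hS (mem_inter.1 hq).1)).pos)
        calc ((∏ q ∈ S ∪ T, q : ℕ) : ℝ) ≤ ((∏ q ∈ S, q : ℕ) : ℝ) * ((∏ q ∈ T, q : ℕ) : ℝ) := by
              exact_mod_cast e5
          _ ≤ z * z := by gcongr; exacts [hFz S hS, hFz T hT]
          _ = z ^ 2 := by ring
    have e : ∀ a b c, ((∑ S ∈ F, ∏ q ∈ S, chi a2 a1 a0 q a b c) / G) ^ 2 = (G ^ 2)⁻¹ *
        ∑ S ∈ F, ∑ T ∈ F, (∏ q ∈ S, chi a2 a1 a0 q a b c) * ∏ q ∈ T, chi a2 a1 a0 q a b c :=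
      fun a b c => by rw [← sum_mul_sum]; field_simp
    simp only [e]
    rw [bs_mul, bs_sum]
    simp only [bs_sum]
    have h3 := sum_le_sum fun S hS => sum_le_sum fun T hT => hST S hS T hT
    simp only [sum_add_distrib, ← mul_sum, sum_const, nsmul_eq_mul] at h3
    have h4 : (∑ S ∈ F, ∑ T ∈ F, if S = T then ∏ q ∈ S, ν q / (1 - ν q) else 0) = G :=
      sum_congr rfl fun S hS => by rw [sum_ite_eq, if_pos hS]
    rw [h4] at h3
    refine (mul_le_mul_of_nonneg_left h3 (by positivity : 0 ≤ (G ^ 2)⁻¹)).trans ?_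
    rw [mul_add]
    refine add_le_add (le_of_eq (by field_simp)) ?_
    refine (mul_le_of_le_one_left (by positivity) (inv_le_one_of_one_le₀ (one_le_pow₀ hG1))).trans ?_
    have h5 : (#F : ℝ) * #F ≤ z * z := by gcongr
    have h6 := mul_le_mul_of_nonneg_right h5 (by positivity : 0 ≤ 6 * z ^ 2 * (2 * N + 1) ^ 2)
    nlinarith

end Pool.Agent.Lib.MP_d315f4_nt
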