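import Pool.Agent.Lib.MP_d315f4_nt.Four

/-!
Variance of the weights: the core estimate.
-/

set_option autoImplicit false
set_option maxHeartbeats 400000

open Finset Real

namespace Pool.Agent.Lib.MP_d315f4_nt

variable {ι : Type}

/-- few moduli divide a given value of the form. -/
def Mult (I : Finset ι) (R : ι → ℕ) (ξ : ι → ℤ) (Z M : ℕ) : Prop :=
  ∀ z w : ℤ, w ≠ 0 → |z| ≤ Z → |w| ≤ Z → #{i ∈ I | (R i : ℤ) ∣ z - w * ξ i} ≤ M

lemma spacing (I : Finset ι) (R : ι → ℕ) (ξ : ι → ℤ) (Z M Rm V Zs : ℕ) (hM : Mult I R ξ Z M)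
    (hR : ∀ i ∈ I, 0 < R i ∧ R i ≤ Rm) (hV : 0 < V) (h1 : 2 * Rm ≤ V * Zs) (h2 : Zs ≤ Z)
    (h3 : V * Rm ≤ Z) (k : ℤ) (hk0 : k ≠ 0) (hk : |k| ≤ Rm) (β : ℝ) :
    #{i ∈ I | |(k * ξ i / R i - β) - round (k * ξ i / R i - β : ℝ)| ≤ 1 / V ^ 2} ≤
      (2 * Zs + 1) * M := by
  classical
  obtain ⟨s, v, hv0, hvV, hs⟩ := Real.exists_int_int_abs_mul_sub_le β hV
  have hV' : (0 : ℝ) < V := by exact_mod_cast hV
  have hvV' : (v : ℝ) ≤ V := by exact_mod_cast hvV
  have hv0' : (0 : ℝ) < v := by exact_mod_cast hv0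
  calc _ ≤ #((Icc (-(Zs : ℤ)) Zs).biUnion fun z => {i ∈ I | (R i : ℤ) ∣ z - v * k * ξ i}) := by
        refine card_le_card fun i hi => ?_
        obtain ⟨hi1, hi2⟩ := mem_filter.1 hi
        obtain ⟨a1, a2⟩ := hR i hi1
        have a1' : (0 : ℝ) < R i := by exact_mod_cast a1
        have a2' : (R i : ℝ) ≤ Rm := by exact_mod_cast a2
        generalize round (k * ξ i / R i - β : ℝ) = m at hi2
        refine mem_biUnion.2 ⟨v * k * ξ i - (s + v * m) * R i, ?_, mem_filter.2 ⟨hi1, ?_⟩⟩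
        · rw [mem_Icc, ← abs_le, ← Int.cast_le (R := ℝ)]
          push_cast
          have e1 : (v : ℝ) * k * ξ i - (s + v * m) * R i =
              R i * (v * (k * ξ i / R i - β - m) + (v * β - s)) := by
            field_simp; ring
          rw [e1, abs_mul, abs_of_pos a1']
          have e2 : |(v : ℝ) * (k * ξ i / R i - β - m) + (v * β - s)| ≤ 2 / V := by
            refine (abs_add_le _ _).trans ?_
            rw [abs_mul, abs_of_pos hv0']
            have b1 : (v : ℝ) * |k * ξ i / R i - β - m| ≤ V * (1 / V ^ 2) := by gcongr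
            have b2 : (V : ℝ) * (1 / V ^ 2) = 1 / V := by field_simp
            have b3 : (1 : ℝ) / (V + 1) ≤ 1 / V := by gcongr; linarith
            have b4 : (2 : ℝ) / V = 1 / V + 1 / V := by ring
            linarith
          calc _ ≤ Rm * (2 / V : ℝ) := by gcongr
            _ ≤ Zs := by
              rw [← mul_div_assoc, div_le_iff₀ hV']
              have : (2 : ℝ) * Rm ≤ V * Zs := by exact_mod_cast h1
              linarith
        · exact ⟨-(s + v * m), by ring⟩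
    _ ≤ ∑ z ∈ Icc (-(Zs : ℤ)) Zs, #{i ∈ I | (R i : ℤ) ∣ z - v * k * ξ i} := card_biUnion_le
    _ ≤ #(Icc (-(Zs : ℤ)) Zs) * M := by
        refine sum_le_card_nsmul _ _ _ fun z hz => hM z (v * k) (mul_ne_zero hv0.ne' hk0) ?_ ?_
        · rw [mem_Icc, ← abs_le] at hz
          omega
        · rw [abs_mul, abs_of_pos hv0]
          calc v * |k| ≤ V * Rm := by gcongr
            _ ≤ Z := by exact_mod_cast h3
    _ = _ := by rw [Int.card_Icc]; congr 1; omega

lemma mean_square (I : Finset ι) (a : ι → ℂ) (β : ι → ℝ) (ha : ∀ i ∈ I, ‖a i‖ ≤ 1) (V Ms N : ℕ)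
    (hV : 0 < V) (hs : ∀ γ : ℝ, #{i ∈ I | |(β i - γ) - round (β i - γ)| ≤ 1 / V ^ 2} ≤ Ms) :
    ∑ c ∈ range N, ‖∑ i ∈ I, a i * ee (c * β i)‖ ^ 2 ≤ #I * (N * Ms + #I * (V ^ 2 / 2)) := by
  have e1 : ((∑ c ∈ range N, ‖∑ i ∈ I, a i * ee (c * β i)‖ ^ 2 : ℝ) : ℂ) = ∑ i' ∈ I, ∑ i ∈ I,
      a i * (starRingEnd ℂ) (a i') * ∑ c ∈ range N, ee (c * (β i - β i')) := by
    simp only [mul_sum]
    rw [sum_congr rfl fun i _ => sum_comm, sum_comm]
    push_cast
    refine sum_congr rfl fun c _ => ?_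
    simp only [← Complex.mul_conj', map_sum]
    rw [sum_mul_sum, sum_comm]
    refine sum_congr rfl fun i _ => sum_congr rfl fun i' _ => ?_
    rw [map_mul, conj_ee, mul_sub, sub_eq_add_neg, ee_add]
    ring
  have e2 := congrArg (fun z => ‖z‖) e1
  simp only [Complex.norm_real, Real.norm_eq_abs] at e2
  refine (le_abs_self _).trans (e2.le.trans ((norm_sum_le _ _).trans ?_))
  rw [← nsmul_eq_mul]
  refine sum_le_card_nsmul _ _ _ fun i' hi' => (norm_sum_le _ _).trans ?_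
  have hV' : (0 : ℝ) < V := by exact_mod_cast hV
  calc _ ≤ ∑ i ∈ I, ((if |(β i - β i') - round (β i - β i')| ≤ 1 / V ^ 2 then (N : ℝ) else 0) +
        V ^ 2 / 2) := by
        refine sum_le_sum fun i hi => ?_
        rw [norm_mul, norm_mul, Complex.norm_conj]
        refine (mul_le_of_le_one_left (norm_nonneg _)
          (mul_le_one₀ (ha i hi) (norm_nonneg _) (ha i' hi'))).trans ?_
        split_ifs with h
        · exact (geom_triv _ _).trans (le_add_of_nonneg_right (by positivity))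
        · have h1 := geom_bound' (β i - β i') N
          push Not at h
          rw [zero_add, le_div_iff₀ two_pos]
          rw [div_lt_iff₀ (by positivity)] at h
          have h2 := norm_nonneg (∑ c ∈ range N, ee (c * (β i - β i')))
          nlinarith [mul_le_mul_of_nonneg_left h1 (by positivity : (0 : ℝ) ≤ V ^ 2)]
    _ ≤ _ := by
        rw [sum_add_distrib, ← sum_filter, sum_const, sum_const, nsmul_eq_mul, nsmul_eq_mul,
          mul_comm]
        gcongr
        exact hs _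

lemma weighted_cs {α : Type} (s : Finset α) (w x : α → ℝ) (hw : ∀ k ∈ s, 0 ≤ w k) :
    (∑ k ∈ s, w k * x k) ^ 2 ≤ (∑ k ∈ s, w k) * ∑ k ∈ s, w k * x k ^ 2 := by
  have h := sum_mul_sq_le_sq_mul_sq s (fun k => √(w k)) fun k => √(w k) * x k
  rwa [sum_congr rfl (g := fun k => w k * x k) fun k hk => by
      rw [← mul_assoc, Real.mul_self_sqrt (hw k hk)],
    sum_congr rfl (f := fun k => √(w k) ^ 2) fun k hk => Real.sq_sqrt (hw k hk),
    sum_congr rfl (f := fun k => (√(w k) * x k) ^ 2) (g := fun k => w k * x k ^ 2) fun k hk => by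
      rw [mul_pow, Real.sq_sqrt (hw k hk)]] at h

lemma var_core (I : Finset ι) (R : ι → ℕ) (ξ y : ι → ℤ) (Z M Rm V Zs : ℕ) (hM : Mult I R ξ Z M)
    (hR : ∀ i ∈ I, 0 < R i ∧ R i ≤ Rm) (hV : 0 < V) (h1 : 2 * Rm ≤ V * Zs) (h2 : Zs ≤ Z)
    (h3 : V * Rm ≤ Z) (N T : ℕ) :
    ∑ c ∈ range N, (∑ t ∈ range T, ((#{i ∈ I | (R i : ℤ) ∣ t + (y i - c * ξ i)} : ℝ) -
      ∑ i ∈ I, (1 / R i : ℝ))) ^ 2 ≤
      (1 + Real.log Rm) ^ 2 * (#I * (N * ((2 * Zs + 1) * M : ℕ) + #I * (V ^ 2 / 2))) := by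
  classical
  set Q : ℝ := #I * (N * ((2 * Zs + 1) * M : ℕ) + #I * (V ^ 2 / 2)) with hQ
  set w : ℤ → ℝ := fun k => 1 / (2 * |(k : ℝ)|) with hw
  set a : ℤ → ι → ℂ := fun k i => if k ∈ (KR (R i)).erase 0 then
    (2 * |(k : ℝ)| : ℝ) * fa (R i) T k * ee (k * y i / R i) else 0 with ha
  set E : ℤ → ℕ → ℂ := fun k c => ∑ i ∈ I, a k i * ee (c * (-k * ξ i / R i)) with hE
  have hw0 : ∀ k, 0 ≤ w k := fun k => by positivity
  have e1 : ∀ c : ℕ, ((∑ t ∈ range T, ((#{i ∈ I | (R i : ℤ) ∣ t + (y i - c * ξ i)} : ℝ) -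
      ∑ i ∈ I, (1 / R i : ℝ)) : ℝ) : ℂ) = ∑ k ∈ Icc (-(Rm : ℤ)) Rm, w k * E k c := by
    intro c
    simp only [hE, mul_sum, card_filter]
    push_cast
    rw [sum_comm, sum_sub_distrib, sum_comm, sum_comm (s := range T), ← sum_sub_distrib]
    refine sum_congr rfl fun i hi => ?_
    simp only [apply_ite Complex.ofReal, Complex.ofReal_one, Complex.ofReal_zero]
    rw [count_fourier (hR i hi).1, sum_const, card_range, nsmul_eq_mul, mul_one_div,
      add_sub_cancel_left]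
    symm
    rw [← sum_subset (s₁ := (KR (R i)).erase 0)]
    · refine sum_congr rfl fun k hk => ?_
      have hk0 : (k : ℝ) ≠ 0 := by exact_mod_cast ne_of_mem_erase hk
      have hk1 : ((|(k : ℝ)| : ℝ) : ℂ) ≠ 0 := by simpa using hk0
      simp only [ha, hw, if_pos hk]
      rw [show ((k : ℝ) * ((y i - c * ξ i : ℤ) : ℝ) / R i) = k * y i / R i + c * (-k * ξ i / R i) by
        push_cast; ring, ee_add]
      push_cast
      field_simp
    · intro k hk
      have := mem_KR (mem_of_mem_erase hk)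
      have := (hR i hi).2
      have := abs_nonneg k
      rw [mem_Icc, ← abs_le]
      omega
    · intro k _ hk
      simp only [ha, if_neg hk, zero_mul, mul_zero]
  have e2 : ∀ k ∈ Icc (-(Rm : ℤ)) Rm, w k * ∑ c ∈ range N, ‖E k c‖ ^ 2 ≤ w k * Q := by
    intro k hk
    by_cases hk0 : k = 0
    · simp [hw, hk0]
    refine mul_le_mul_of_nonneg_left ?_ (hw0 k)
    refine mean_square I (a k) (fun i => -k * ξ i / R i) (fun i _ => ?_) V _ N hV fun γ => ?_
    · simp only [ha]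
      split_ifs with h
      · rw [norm_mul, norm_mul, norm_ee, mul_one, Complex.norm_real, Real.norm_eq_abs,
          abs_of_nonneg (by positivity)]
        have := norm_fa T (mem_of_mem_erase h) hk0
        have hk1 : (0 : ℝ) < |(k : ℝ)| := by simpa using hk0
        rwa [le_div_iff₀ (by positivity), mul_comm] at this
      · simp
    · have := spacing I R ξ Z M Rm V Zs hM hR hV h1 h2 h3 (-k) (neg_ne_zero.2 hk0)
        (by rw [abs_neg, abs_le]; exact mem_Icc.1 hk) γ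
      simpa only [Int.cast_neg] using this
  have e3 := sum_inv_abs Rm
  have e4 : 0 ≤ ∑ k ∈ Icc (-(Rm : ℤ)) Rm, w k := sum_nonneg fun k _ => hw0 k
  calc _ ≤ ∑ c ∈ range N, (∑ k ∈ Icc (-(Rm : ℤ)) Rm, w k) *
        ∑ k ∈ Icc (-(Rm : ℤ)) Rm, w k * ‖E k c‖ ^ 2 := by
        refine sum_le_sum fun c _ => le_trans ?_ (weighted_cs _ w _ fun k _ => hw0 k)
        rw [← sq_abs, ← Real.norm_eq_abs, ← Complex.norm_real, e1]
        gcongr
        refine (norm_sum_le _ _).trans (sum_le_sum fun k _ => ?_)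
        rw [norm_mul, Complex.norm_real, Real.norm_eq_abs, abs_of_nonneg (hw0 k)]
    _ = (∑ k ∈ Icc (-(Rm : ℤ)) Rm, w k) *
        ∑ k ∈ Icc (-(Rm : ℤ)) Rm, w k * ∑ c ∈ range N, ‖E k c‖ ^ 2 := by
        rw [← mul_sum, sum_comm]
        simp only [mul_sum]
    _ ≤ (∑ k ∈ Icc (-(Rm : ℤ)) Rm, w k) * ∑ k ∈ Icc (-(Rm : ℤ)) Rm, w k * Q := by
        exact mul_le_mul_of_nonneg_left (sum_le_sum e2) e4
    _ = (∑ k ∈ Icc (-(Rm : ℤ)) Rm, w k) ^ 2 * Q := by rw [← sum_mul]; ring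
    _ ≤ _ := by gcongr

end Pool.Agent.Lib.MP_d315f4_nt
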