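import Pool.Agent.Lib.MP_d315f4_nt.Var

/-!
Variance of the averaged weights over a box.
-/

set_option autoImplicit false
set_option maxHeartbeats 400000

open Finset Real

namespace Pool.Agent.Lib.MP_d315f4_nt

variable {ι : Type}

lemma sum_Icc_range (N : ℕ) (g : ℤ → ℝ) :
    ∑ x ∈ Icc (-(N : ℤ)) N, g x = ∑ i ∈ range (2 * N + 1), g (i - N) := by
  symm
  refine sum_bij (fun i _ => (i : ℤ) - N) ?_ ?_ ?_ fun _ _ => rfl
  · intro t ht; rw [mem_range] at ht; rw [mem_Icc]; omega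
  · intro t _ t' _ h; omega
  · intro n hn; rw [mem_Icc] at hn
    exact ⟨(n + N).toNat, by rw [mem_range]; omega, by omega⟩

lemma shift_sum (N : ℕ) (g : ℤ → ℝ) (B : ℝ) (hg : ∀ x : ℤ, |x| ≤ 2 * N + 1 → |g x| ≤ B) (s : ℕ)
    (hs : s ≤ N) :
    |∑ x ∈ Icc (-(N : ℤ)) N, g (x + s) - ∑ x ∈ Icc (-(N : ℤ)) N, g x| ≤ 2 * s * B := by
  induction s with
  | zero => simp
  | succ s ih =>
    have h1 : ∑ x ∈ Icc (-(N : ℤ)) N, g (x + (s + 1 : ℕ)) - ∑ x ∈ Icc (-(N : ℤ)) N, g (x + s) =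
        g (N + 1 + s) - g (s - N) := by
      rw [sum_Icc_range, sum_Icc_range, ← sum_sub_distrib]
      have := sum_range_sub (fun i : ℕ => g (i - N + s)) (2 * N + 1)
      convert this using 3 with i _ <;> push_cast <;> ring_nf
    have h2 := hg (N + 1 + s) (by rw [abs_le]; omega)
    have h3 := hg (s - N) (by rw [abs_le]; omega)
    have h4 := ih (by omega)
    rw [abs_le] at *
    push_cast at *
    constructor <;> linarith

/-- sum over the box. -/
noncomputable def bs (N : ℕ) (F : ℤ → ℤ → ℤ → ℝ) : ℝ :=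
  ∑ a ∈ Icc (-(N : ℤ)) N, ∑ b ∈ Icc (-(N : ℤ)) N, ∑ c ∈ range N, F a b (c + 1)

/-- volume of the box. -/
noncomputable def vol (N : ℕ) : ℝ := (2 * N + 1) ^ 2 * N

lemma card_Icc_N (N : ℕ) : (#(Icc (-(N : ℤ)) N) : ℝ) = 2 * N + 1 := by
  rw [Int.card_Icc, show ((N : ℤ) + 1 - -N).toNat = 2 * N + 1 by omega]
  push_cast; ring

lemma bs_const (N : ℕ) (x : ℝ) : bs N (fun _ _ _ => x) = vol N * x := by
  simp only [bs, sum_const, nsmul_eq_mul, card_Icc_N, card_range, vol]; ring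

lemma bs_mono {N : ℕ} {F G : ℤ → ℤ → ℤ → ℝ}
    (h : ∀ a b c : ℤ, |a| ≤ N → |b| ≤ N → 1 ≤ c → c ≤ N → F a b c ≤ G a b c) : bs N F ≤ bs N G := by
  refine sum_le_sum fun a ha => sum_le_sum fun b hb => sum_le_sum fun c hc => h _ _ _ ?_ ?_ ?_ ?_
  · exact abs_le.2 (mem_Icc.1 ha)
  · exact abs_le.2 (mem_Icc.1 hb)
  · omega
  · have := mem_range.1 hc; omega

lemma bs_add (N : ℕ) (F G : ℤ → ℤ → ℤ → ℝ) :
    bs N (fun a b c => F a b c + G a b c) = bs N F + bs N G := by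
  simp only [bs, sum_add_distrib]

lemma bs_mul (N : ℕ) (x : ℝ) (F : ℤ → ℤ → ℤ → ℝ) :
    bs N (fun a b c => x * F a b c) = x * bs N F := by
  simp only [bs, mul_sum]

lemma bs_sum {α : Type} (N : ℕ) (s : Finset α) (F : α → ℤ → ℤ → ℤ → ℝ) :
    bs N (fun a b c => ∑ j ∈ s, F j a b c) = ∑ j ∈ s, bs N (F j) := by
  simp only [bs]
  rw [sum_comm (s := s)]
  refine sum_congr rfl fun a _ => ?_
  rw [sum_comm (s := s)]
  exact sum_congr rfl fun b _ => sum_comm

lemma bs_shift (N : ℕ) (u : ℤ → ℤ → ℤ → ℝ) (B : ℝ)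
    (hu : ∀ a b c : ℤ, |a| ≤ 2 * N + 1 → |b| ≤ 2 * N + 1 → 1 ≤ c → c ≤ N → |u a b c| ≤ B) (s t : ℕ)
    (hs : s ≤ N) (ht : t ≤ N) :
    bs N u ≤ bs N (fun a b c => u (a + s) (b + t) c) + 2 * (s + t) * B * ((2 * N + 1) * N) := by
  have hN : ∀ a b : ℤ, |a| ≤ 2 * N + 1 → |b| ≤ 2 * N + 1 →
      |∑ c ∈ range N, u a b (c + 1)| ≤ N * B := by
    intro a b ha hb
    refine (abs_sum_le_sum_abs _ _).trans ((sum_le_card_nsmul _ _ B fun c hc => ?_).trans (by simp))
    exact hu _ _ _ ha hb (by omega) (by have := mem_range.1 hc; omega)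
  have h1 := shift_sum N (fun a => ∑ b ∈ Icc (-(N : ℤ)) N, ∑ c ∈ range N, u a b (c + 1))
    ((2 * N + 1) * (N * B)) (fun a ha => by
      refine (abs_sum_le_sum_abs _ _).trans ((sum_le_card_nsmul _ _ (N * B) fun b hb => ?_).trans ?_)
      · exact hN a b ha (by rw [mem_Icc, ← abs_le] at hb; omega)
      · rw [nsmul_eq_mul, card_Icc_N]) s hs
  have h2 : ∀ a ∈ Icc (-(N : ℤ)) N, ∑ b ∈ Icc (-(N : ℤ)) N, ∑ c ∈ range N, u (a + s) b (c + 1) ≤
      ∑ b ∈ Icc (-(N : ℤ)) N, ∑ c ∈ range N, u (a + s) (b + t) (c + 1) + 2 * t * (N * B) := by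
    intro a ha
    have := shift_sum N (fun b => ∑ c ∈ range N, u (a + s) b (c + 1)) (N * B)
      (fun b hb => hN _ b (by rw [mem_Icc] at ha; rw [abs_le]; omega) hb) t ht
    linarith [(abs_le.1 this).1]
  have h3 := sum_le_sum h2
  rw [sum_add_distrib, sum_const, nsmul_eq_mul, card_Icc_N] at h3
  unfold bs
  linarith [(abs_le.1 h1).1]

/-- the weight of a line in direction `j`. -/
noncomputable def Wt (I : Finset ι) (R : ι → ℕ) (ξ : ι → ℤ) (y c : ℤ) : ℝ :=
  #{i ∈ I | (R i : ℤ) ∣ y - c * ξ i}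

lemma var_line (I : Finset ι) (R : ι → ℕ) (ξ : ι → ℤ) (Z M Rm V Zs J : ℕ) (hM : Mult I R ξ Z M)
    (hR : ∀ i ∈ I, 0 < R i ∧ R i ≤ Rm) (hV : 0 < V) (h1 : 2 * Rm ≤ V * Zs) (h2 : J * Zs ≤ Z)
    (h3 : J * (V * Rm) ≤ Z) (N T : ℕ) (Δ y : ℤ) (hΔ0 : Δ ≠ 0) (hΔ : |Δ| ≤ J)
    (hco : ∀ i ∈ I, IsCoprime Δ (R i)) (E : ℝ) (hE : 0 < E)
    (hQ : (1 + Real.log Rm) ^ 2 * (#I * (N * ((2 * Zs + 1) * M : ℕ) + #I * (V ^ 2 / 2))) ≤
      N * E ^ 2) :
    ∑ c ∈ range N, |∑ t ∈ range T, (Wt I R ξ (y + t * Δ) (c + 1) - ∑ i ∈ I, (1 / R i : ℝ))| ≤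
      N * E := by
  have hd : ∀ i, ∃ d : ℤ, i ∈ I → (R i : ℤ) ∣ Δ * d - 1 := by
    intro i
    by_cases hi : i ∈ I
    · obtain ⟨u, v, h⟩ := hco i hi
      exact ⟨u, fun _ => ⟨-v, by linear_combination h⟩⟩
    · exact ⟨0, fun h => absurd h hi⟩
  choose d hd using hd
  have hJ : 0 < J := by have := abs_pos.2 hΔ0; omega
  have key := var_core I R (fun i => d i * ξ i) (fun i => d i * (y - ξ i)) (Z / J) M Rm V Zs
    (fun z w hw hz hw' => by
      have e1 : (J : ℤ) * (Z / J : ℕ) ≤ Z := by exact_mod_cast Nat.mul_div_le Z J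
      have e2 : ((Z / J : ℕ) : ℤ) ≤ Z := by exact_mod_cast Nat.div_le_self Z J
      refine le_trans (card_le_card fun i hi => ?_) (hM (Δ * z) w hw ?_ (hw'.trans e2))
      · obtain ⟨a1, a2⟩ := mem_filter.1 hi
        refine mem_filter.2 ⟨a1, ?_⟩
        exact (dvd_add (a2.mul_left Δ) ((hd i a1).mul_right (w * ξ i))).trans (dvd_of_eq (by ring))
      · rw [abs_mul]
        exact le_trans (by gcongr) e1) hR hV h1
    ((Nat.le_div_iff_mul_le hJ).2 (by rwa [mul_comm]))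
    ((Nat.le_div_iff_mul_le hJ).2 (by rwa [mul_comm])) N T
  have e : ∀ c t : ℕ, Wt I R ξ (y + t * Δ) (c + 1) =
      #{i ∈ I | (R i : ℤ) ∣ t + (d i * (y - ξ i) - c * (d i * ξ i))} := by
    intro c t
    rw [Wt]
    congr 2
    refine filter_congr fun i hi => ⟨fun h => ?_, fun h => ?_⟩
    · exact (dvd_sub (h.mul_left (d i)) ((hd i hi).mul_right t)).trans (dvd_of_eq (by ring))
    · exact (dvd_sub (h.mul_left Δ) ((hd i hi).mul_right (y - (c + 1) * ξ i))).trans
        (dvd_of_eq (by ring))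
  simp only [e]
  refine le_trans (sum_le_sum fun c _ => ?_) (le_trans (b := ∑ c ∈ range N,
    ((∑ t ∈ range T, ((#{i ∈ I | (R i : ℤ) ∣ t + (d i * (y - ξ i) - c * (d i * ξ i))} : ℝ) -
      ∑ i ∈ I, (1 / R i : ℝ))) ^ 2 / (2 * E) + E / 2)) le_rfl ?_)
  · rw [← sq_abs]
    generalize |∑ t ∈ range T, ((#{i ∈ I | (R i : ℤ) ∣ t + (d i * (y - ξ i) - c * (d i * ξ i))} : ℝ) -
      ∑ i ∈ I, (1 / R i : ℝ))| = x
    rw [div_add' _ _ _ (by positivity), le_div_iff₀ (by positivity)]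
    nlinarith [sq_nonneg (x - E)]
  · rw [sum_add_distrib, ← sum_div, sum_const, card_range, nsmul_eq_mul]
    have := div_le_div_of_nonneg_right (key.trans hQ) (by positivity : 0 ≤ 2 * E)
    have e2 : N * E ^ 2 / (2 * E) = N * (E / 2) := by field_simp
    linarith

theorem var_box (I : Finset ι) (R : ι → ℕ) (ξ : ℕ → ι → ℤ) (Z M Rm V Zs J N T : ℕ)
    (hM : ∀ j < J, Mult I R (ξ j) Z M)
    (hR : ∀ i ∈ I, 0 < R i ∧ R i ≤ Rm) (hV : 0 < V) (h1 : 2 * Rm ≤ V * Zs) (h2 : J * Zs ≤ Z)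
    (h3 : J * (V * Rm) ≤ Z) (h4 : J * (2 * N + 1) ≤ Z) (hJ : 0 < J) (hT : 0 < T) (hTJ : T * J ≤ N)
    (hco : ∀ i ∈ I, ∀ d : ℕ, 0 < d → d < J → d.Coprime (R i)) (μ V0 ε η : ℝ)
    (hμ : μ = ∑ i ∈ I, (1 / R i : ℝ)) (hμ0 : 0 < μ) (hV0 : M / μ + 1 ≤ V0) (hε : 0 < ε) (hη : 0 < η)
    (hQ : (1 + Real.log Rm) ^ 2 * (#I * (N * ((2 * Zs + 1) * M : ℕ) + #I * (V ^ 2 / 2))) ≤
      N * (ε * μ * T) ^ 2)
    (hfin : V0 ^ 2 / J + V0 * ε + V0 ^ 2 * (T * J / N) ≤ η ^ 2) :
    bs N (fun a b c => |(∑ j ∈ range J, Wt I R (ξ j) (a - j * b) c) / (J * μ) - 1|) ≤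
      vol N * η := by
  have hJ' : (0 : ℝ) < J := by exact_mod_cast hJ
  have hT' : (0 : ℝ) < T := by exact_mod_cast hT
  have hN : 0 < N := lt_of_lt_of_le (Nat.mul_pos hT hJ) hTJ
  have hN' : (0 : ℝ) < N := by exact_mod_cast hN
  set v : ℕ → ℤ → ℤ → ℤ → ℝ := fun j a b c => (Wt I R (ξ j) (a - j * b) c - μ) / μ with hv
  have hV1 : 1 ≤ V0 := le_trans (le_add_of_nonneg_left (by positivity)) hV0
  have hvb : ∀ j < J, ∀ a b c : ℤ, |a| ≤ 2 * N + 1 → |b| ≤ 2 * N + 1 → 1 ≤ c → c ≤ N →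
      |v j a b c| ≤ V0 := by
    intro j hj a b c ha hb hc hc'
    have h4' : (J : ℤ) * (2 * N + 1) ≤ Z := by exact_mod_cast h4
    have a1 : Wt I R (ξ j) (a - j * b) c ≤ M := by
      rw [Wt]
      refine Nat.cast_le.2 (hM j hj _ _ (by omega) ?_ ?_)
      · refine (abs_sub _ _).trans ?_
        rw [abs_mul, Nat.abs_cast]
        have : (j : ℤ) * |b| ≤ j * (2 * N + 1) := by gcongr
        have : ((j : ℤ) + 1) * (2 * N + 1) ≤ J * (2 * N + 1) := by gcongr; omega
        linarith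
      · rw [abs_le]
        have : (1 : ℤ) * (2 * N + 1) ≤ J * (2 * N + 1) := by gcongr; omega
        omega
    have a2 : 0 ≤ Wt I R (ξ j) (a - j * b) c := by rw [Wt]; positivity
    simp only [hv]
    rw [sub_div, div_self hμ0.ne', abs_le]
    have a3 : Wt I R (ξ j) (a - j * b) c / μ ≤ M / μ := by gcongr
    have a4 : 0 ≤ Wt I R (ξ j) (a - j * b) c / μ := by positivity
    constructor <;> linarith
  have hoff : ∀ j < J, ∀ j' < J, j ≠ j' → bs N (fun a b c => v j a b c * v j' a b c) ≤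
      vol N * (V0 * ε + V0 ^ 2 * (T * J / N)) := by
    intro j hj j' hj' hne
    have a1 : ∀ t ∈ range T, bs N (fun a b c => v j a b c * v j' a b c) ≤
        bs N (fun a b c => v j a b c * v j' (a + (t * j : ℕ)) (b + t) c) +
          2 * (T * J) * V0 ^ 2 * ((2 * N + 1) * N) := by
      intro t ht
      have ht' := mem_range.1 ht
      have b0 : t * j + t ≤ T * J := by nlinarith
      refine (bs_shift N _ (V0 ^ 2) (fun a b c ha hb hc hc' => ?_) (t * j) t (by omega)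
        (by omega)).trans (add_le_add (le_of_eq ?_) ?_)
      · rw [abs_mul, sq]
        exact mul_le_mul (hvb j hj a b c ha hb hc hc') (hvb j' hj' a b c ha hb hc hc')
          (abs_nonneg _) (by linarith)
      · congr 1
        funext a b c
        simp only [hv]
        congr 4
        push_cast
        ring
      · have : ((t * j : ℕ) : ℝ) + t ≤ T * J := by exact_mod_cast b0
        gcongr
    have a2 := card_nsmul_le_sum _ _ _ a1
    rw [sum_add_distrib, ← bs_sum, sum_const, card_range, nsmul_eq_mul, nsmul_eq_mul] at a2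
    have a3 : bs N (fun a b c => ∑ t ∈ range T, v j a b c * v j' (a + (t * j : ℕ)) (b + t) c) ≤
        (2 * N + 1) ^ 2 * (V0 * (N * (ε * T))) := by
      rw [← card_Icc_N, sq, mul_assoc, ← nsmul_eq_mul]
      refine sum_le_card_nsmul _ _ _ fun a ha => ?_
      rw [← nsmul_eq_mul]
      refine sum_le_card_nsmul _ _ _ fun b hb => ?_
      have b1 := var_line I R (ξ j') Z M Rm V Zs J (hM j' hj') hR hV h1 h2 h3 N T (j - j' : ℤ)
        (a - j' * b) (by omega) (by rw [abs_le]; omega) (fun i hi => by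
          rw [Int.isCoprime_iff_gcd_eq_one, Int.gcd_eq_natAbs, Int.natAbs_natCast]
          exact hco i hi _ (by omega) (by omega)) (ε * μ * T) (by positivity) hQ
      rw [← hμ] at b1
      have b2 := div_le_div_of_nonneg_right b1 hμ0.le
      rw [show N * (ε * μ * T) / μ = N * (ε * T) by field_simp, sum_div] at b2
      refine le_trans ?_ (mul_le_mul_of_nonneg_left b2 (by linarith))
      rw [mul_sum]
      refine sum_le_sum fun c hc => ?_
      beta_reduce
      rw [← mul_sum]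
      refine (le_abs_self _).trans ?_
      rw [abs_mul]
      refine mul_le_mul (hvb j hj _ _ _ (by rw [mem_Icc, ← abs_le] at ha; omega)
        (by rw [mem_Icc, ← abs_le] at hb; omega) (by omega) (by have := mem_range.1 hc; omega))
        (le_of_eq ?_) (abs_nonneg _) (by linarith)
      simp only [hv]
      rw [← sum_div, abs_div, abs_of_pos hμ0]
      congr 3
      funext t
      congr 2
      push_cast
      ring
    refine le_of_mul_le_mul_left (a2.trans ?_) hT'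
    have a4 : (T : ℝ) * (2 * (T * J) * V0 ^ 2 * ((2 * N + 1) * N)) ≤
        T * (vol N * (V0 ^ 2 * (T * J / N))) := by
      rw [vol]
      have : (2 * N + 1 : ℝ) ^ 2 * N * (V0 ^ 2 * (T * J / N)) =
          (T * J) * V0 ^ 2 * ((2 * N + 1) * (2 * N + 1)) := by field_simp
      rw [this]
      have : 2 * (T * J) * V0 ^ 2 * ((2 * N + 1) * N : ℝ) =
          (T * J) * V0 ^ 2 * ((2 * N + 1) * (2 * N)) := by ring
      rw [this]
      gcongr
      linarith
    have a5 : (2 * N + 1 : ℝ) ^ 2 * (V0 * (N * (ε * T))) = T * (vol N * (V0 * ε)) := by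
      rw [vol]; ring
    linarith
  have hvol : 0 ≤ vol N := by rw [vol]; positivity
  have hsq : bs N (fun a b c => ((∑ j ∈ range J, v j a b c) / J) ^ 2) ≤ vol N * η ^ 2 := by
    have e : ∀ a b c, ((∑ j ∈ range J, v j a b c) / J) ^ 2 = ((J : ℝ) ^ 2)⁻¹ *
        ∑ j ∈ range J, ∑ j' ∈ range J, v j a b c * v j' a b c := fun a b c => by
      rw [← sum_mul_sum]; field_simp
    simp only [e]
    rw [bs_mul, bs_sum]
    simp only [bs_sum]
    have a1 : ∑ j ∈ range J, ∑ j' ∈ range J, bs N (fun a b c => v j a b c * v j' a b c) ≤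
        J * (vol N * V0 ^ 2 + J * (vol N * (V0 * ε + V0 ^ 2 * (T * J / N)))) := by
      refine (sum_le_card_nsmul _ _ _ fun j hj => ?_).trans (by rw [card_range, nsmul_eq_mul])
      rw [← add_sum_erase _ _ hj]
      refine add_le_add ?_ ((sum_le_card_nsmul _ _ _ fun j' hj' => hoff j (mem_range.1 hj) j'
        (mem_range.1 (mem_of_mem_erase hj')) (ne_of_mem_erase hj').symm).trans ?_)
      · rw [← bs_const]
        refine bs_mono fun a b c ha hb hc hc' => ?_
        rw [← sq, ← sq_abs]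
        gcongr
        exact hvb j (mem_range.1 hj) a b c (by omega) (by omega) hc hc'
      · rw [nsmul_eq_mul]
        gcongr
        exact card_erase_le.trans (card_range J).le
    refine (mul_le_mul_of_nonneg_left a1 (by positivity)).trans
      (le_trans (le_of_eq ?_) (mul_le_mul_of_nonneg_left hfin hvol))
    field_simp
    ring
  calc _ ≤ bs N (fun a b c => (2 * η)⁻¹ * ((∑ j ∈ range J, v j a b c) / J) ^ 2 + η / 2) := by
        refine bs_mono fun a b c _ _ _ _ => ?_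
        have e : (∑ j ∈ range J, Wt I R (ξ j) (a - j * b) c) / (J * μ) - 1 =
            (∑ j ∈ range J, v j a b c) / J := by
          simp only [hv]
          rw [← sum_div, sum_sub_distrib, sum_const, card_range, nsmul_eq_mul]
          field_simp
        rw [e, ← sq_abs]
        generalize |(∑ j ∈ range J, v j a b c) / J| = x
        rw [← div_eq_inv_mul, div_add' _ _ _ (by positivity), le_div_iff₀ (by positivity)]
        nlinarith [sq_nonneg (x - η)]
    _ ≤ _ := by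
        rw [bs_add, bs_mul, bs_const]
        have := mul_le_mul_of_nonneg_left hsq (by positivity : 0 ≤ (2 * η)⁻¹)
        have e : (2 * η)⁻¹ * (vol N * η ^ 2) = vol N * (η / 2) := by field_simp
        linarith

end Pool.Agent.Lib.MP_d315f4_nt
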