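import Pool.Agent.Lib.MP_d315f4_nt.Four
import Pool.Agent.Lib.MP_d315f4_nt.AWeil

/-!
The van der Corput method with respect to the modulus.
-/

set_option autoImplicit false
set_option maxHeartbeats 400000

open Finset Real

namespace Pool.Agent.Lib.MP_d315f4_nt

lemma card_Ico_le {s e : ℤ} {ℓ : ℝ} (hℓ : 0 ≤ ℓ) (h : (e : ℝ) - s ≤ ℓ) : (#(Ico s e) : ℝ) ≤ ℓ := by
  rw [Int.card_Ico]
  rcases le_total 0 (e - s) with h1 | h1
  · have : (((e - s).toNat : ℤ) : ℝ) = ((e - s : ℤ) : ℝ) := by rw [Int.toNat_of_nonneg h1]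
    push_cast at this
    linarith
  · rw [Int.toNat_of_nonpos h1]; simpa using hℓ

lemma periodic_mul {β : Type} {G : ℤ → β} {m : ℤ} (hG : ∀ n, G (n + m) = G n) (n : ℤ) (h : ℕ) :
    G (n + h * m) = G n := by
  induction h with
  | zero => simp
  | succ h ih => rw [← ih, ← hG (n + h * m)]; congr 1; push_cast; ring

lemma vdc_ineq (u G : ℤ → ℂ) (hu : ∀ n, ‖u n‖ ≤ 1) (hG : ∀ n, ‖G n‖ ≤ 1) (m H : ℕ)
    (hper : ∀ n, G (n + m) = G n) (ℓ B : ℝ) (hH : (H : ℝ) * m ≤ ℓ) (hB0 : 0 ≤ B)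
    (hB : ∀ h < H, ∀ h' < H, h ≠ h' → ∀ s' e' : ℤ, (e' : ℝ) - s' ≤ ℓ →
      ‖∑ n ∈ Ico s' e', u (n + h * m) * (starRingEnd ℂ) (u (n + h' * m))‖ ≤ B)
    (s e : ℤ) (hse : (e : ℝ) - s ≤ ℓ) :
    (H : ℝ) ^ 2 * ‖∑ n ∈ Ico s e, G n * u n‖ ^ 2 ≤ 2 * ℓ * (H * ℓ + H ^ 2 * B) := by
  have hℓ : 0 ≤ ℓ := le_trans (by positivity) hH
  set v : ℤ → ℂ := fun n => if n ∈ Ico s e then u n else 0 with hv
  set I := Ico (s - H * m) e with hI
  have h1 : ∀ h ∈ range H, ∑ n ∈ Ico s e, G n * u n = ∑ n ∈ I, G n * v (n + h * m) := by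
    intro h hh
    have hh' : (h : ℤ) * m ≤ H * m := by
      have := mem_range.1 hh
      gcongr
    have hh0 : (0 : ℤ) ≤ h * m := by positivity
    simp only [hv, mul_ite, mul_zero]
    rw [← sum_filter]
    symm
    refine sum_bij (fun n _ => n + h * m) (fun n hn => (mem_filter.1 hn).2) ?_ ?_ ?_
    · intro a _ b _ hab; omega
    · intro b hb
      refine ⟨b - h * m, ?_, by omega⟩
      simp only [hI, mem_filter, mem_Ico] at hb ⊢
      omega
    · intro a _
      rw [periodic_mul hper]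
  have h2 : (H : ℂ) * ∑ n ∈ Ico s e, G n * u n = ∑ n ∈ I, G n * ∑ h ∈ range H, v (n + h * m) := by
    simp only [mul_sum (range H)]
    rw [sum_comm, ← sum_congr rfl h1, sum_const, card_range, nsmul_eq_mul]
  have h3 : (H : ℝ) * ‖∑ n ∈ Ico s e, G n * u n‖ ≤ ∑ n ∈ I, ‖∑ h ∈ range H, v (n + h * m)‖ := by
    rw [← Complex.norm_natCast, ← norm_mul, h2]
    refine (norm_sum_le _ _).trans (sum_le_sum fun n _ => ?_)
    rw [norm_mul]
    exact mul_le_of_le_one_left (norm_nonneg _) (hG n)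
  have h4 : (#I : ℝ) ≤ 2 * ℓ := card_Ico_le (by positivity) (by push_cast; linarith)
  have h5 : ∀ h h' : ℕ, h < H → h' < H → ∑ n ∈ I, v (n + h * m) * (starRingEnd ℂ) (v (n + h' * m)) =
      ∑ n ∈ Ico (max (s - h * m) (s - h' * m)) (min (e - h * m) (e - h' * m)),
        u (n + h * m) * (starRingEnd ℂ) (u (n + h' * m)) := by
    intro h h' hh hh'
    have a1 : (h : ℤ) * m ≤ H * m := by gcongr
    have a2 : (0 : ℤ) ≤ h * m := by positivity
    rw [← sum_subset (s₁ := Ico (max (s - h * m) (s - h' * m)) (min (e - h * m) (e - h' * m)))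
      (s₂ := I)]
    · refine sum_congr rfl fun n hn => ?_
      simp only [mem_Ico, max_le_iff, lt_min_iff] at hn
      simp only [hv, mem_Ico]
      rw [if_pos (by omega), if_pos (by omega)]
    · intro n hn
      simp only [hI, mem_Ico, max_le_iff, lt_min_iff] at hn ⊢
      omega
    · intro n _ hn
      simp only [mem_Ico, max_le_iff, lt_min_iff] at hn
      simp only [hv, mem_Ico]
      by_cases c1 : s ≤ n + h * m ∧ n + h * m < e
      · rw [if_neg (t := u (n + h' * m)) (by omega)]; simp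
      · rw [if_neg c1, zero_mul]
  have h6 : ∀ h h' : ℕ, (((min (e - h * m) (e - h' * m) : ℤ) : ℝ)) -
      ((max (s - h * m) (s - h' * m) : ℤ) : ℝ) ≤ ℓ := by
    intro h h'
    have : (min (e - h * m) (e - h' * m) : ℤ) - (max (s - h * m) (s - h' * m) : ℤ) ≤ e - s := by
      omega
    have h7 : (((min (e - h * m) (e - h' * m) : ℤ) - (max (s - h * m) (s - h' * m) : ℤ) : ℤ) : ℝ)
        ≤ ((e - s : ℤ) : ℝ) := Int.cast_le.2 this
    rw [Int.cast_sub, Int.cast_sub e] at h7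
    linarith
  have h7 : ∑ n ∈ I, ‖∑ h ∈ range H, v (n + h * m)‖ ^ 2 ≤ H * ℓ + H ^ 2 * B := by
    have e1 : ((∑ n ∈ I, ‖∑ h ∈ range H, v (n + h * m)‖ ^ 2 : ℝ) : ℂ) = ∑ h ∈ range H,
        ∑ h' ∈ range H, ∑ n ∈ I, v (n + h * m) * (starRingEnd ℂ) (v (n + h' * m)) := by
      push_cast
      simp only [← Complex.mul_conj', map_sum, sum_mul_sum]
      rw [sum_comm]
      exact sum_congr rfl fun h _ => sum_comm
    have e2 := congrArg (fun z => ‖z‖) e1
    simp only [Complex.norm_real, Real.norm_eq_abs] at e2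
    refine (le_abs_self _).trans (e2.le.trans ((norm_sum_le _ _).trans ?_))
    calc _ ≤ ∑ h ∈ range H, (ℓ + H * B) := by
          refine sum_le_sum fun h hh => (norm_sum_le _ _).trans ?_
          rw [← add_sum_erase _ _ hh]
          refine add_le_add ?_ ?_
          · rw [h5 h h (mem_range.1 hh) (mem_range.1 hh)]
            refine (norm_sum_le _ _).trans (le_trans ?_ (card_Ico_le hℓ (h6 h h)))
            refine (sum_le_card_nsmul _ _ 1 fun n _ => ?_).trans (by simp)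
            rw [norm_mul, Complex.norm_conj]
            exact mul_le_one₀ (hu _) (norm_nonneg _) (hu _)
          · refine (sum_le_card_nsmul _ _ B fun h' hh' => ?_).trans ?_
            · have hh'' := mem_range.1 (mem_of_mem_erase hh')
              rw [h5 h h' (mem_range.1 hh) hh'']
              exact hB h (mem_range.1 hh) h' hh'' (ne_of_mem_erase hh').symm _ _ (h6 h h')
            · rw [nsmul_eq_mul]
              gcongr
              exact card_erase_le.trans (card_range H).le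
      _ = _ := by rw [sum_const, card_range, nsmul_eq_mul]; ring
  calc _ = ((H : ℝ) * ‖∑ n ∈ Ico s e, G n * u n‖) ^ 2 := by ring
    _ ≤ (∑ n ∈ I, ‖∑ h ∈ range H, v (n + h * m)‖) ^ 2 := by gcongr
    _ ≤ #I * ∑ n ∈ I, ‖∑ h ∈ range H, v (n + h * m)‖ ^ 2 := sq_sum_le_card_mul_sum_sq
    _ ≤ _ := by gcongr

/-- products of `k` bounded periodic functions with small periods. -/
def Str (L P : ℕ) : ℕ → (ℤ → ℂ) → Prop
  | 0, G => ∀ n, G n = 1
  | k + 1, G => ∃ (m : ℕ) (G1 G2 : ℤ → ℂ), m ≤ L ∧ ¬ P ∣ m ∧ (∀ n, G1 (n + m) = G1 n) ∧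
      (∀ n, ‖G1 n‖ ≤ 1) ∧ Str L P k G2 ∧ ∀ n, G n = G1 n * G2 n

lemma Str.norm_le {L P : ℕ} : ∀ {k : ℕ} {G : ℤ → ℂ}, Str L P k G → ∀ n, ‖G n‖ ≤ 1
  | 0, _, h, n => by rw [h n, norm_one]
  | _ + 1, _, ⟨_, _, _, _, _, _, h1, h2, h3⟩, n => by
    rw [h3, norm_mul]
    exact mul_le_one₀ (h1 n) (norm_nonneg _) (h2.norm_le n)

lemma Str.shift {L P : ℕ} (t t' : ℤ) : ∀ {k : ℕ} {G : ℤ → ℂ}, Str L P k G →
    Str L P k fun n => G (n + t) * (starRingEnd ℂ) (G (n + t'))
  | 0, _, h => fun n => by simp [h _]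
  | _ + 1, _, ⟨m, G1, G2, hm, hP, h0, h1, h2, h3⟩ => by
    refine ⟨m, fun n => G1 (n + t) * (starRingEnd ℂ) (G1 (n + t')), _, hm, hP, fun n => ?_,
      fun n => ?_, h2.shift t t', fun n => ?_⟩
    · simp only
      rw [add_right_comm n m t, add_right_comm n m t', h0, h0]
    · rw [norm_mul, Complex.norm_conj]
      exact mul_le_one₀ (h1 _) (norm_nonneg _) (h1 _)
    · simp only [h3, map_mul]
      ring

variable {P : ℕ} [hP : Fact P.Prime]

/-- additive character of a rational function with simple poles. -/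
noncomputable def Fc (c : ZMod P → ZMod P) (x : ZMod P) : ℂ :=
  ZMod.stdAddChar (∑ s, c s * (x - s)⁻¹)

lemma norm_Fc (c : ZMod P → ZMod P) (x : ZMod P) : ‖Fc c x‖ = 1 := AddChar.norm_apply _ _

lemma Fc_shift (c : ZMod P → ZMod P) (x t t' : ZMod P) :
    Fc c (x + t) * (starRingEnd ℂ) (Fc c (x + t')) = Fc (fun s => c (s + t) - c (s + t')) x := by
  have h1 : ∀ t : ZMod P, ∑ s, c s * (x + t - s)⁻¹ = ∑ s, c (s + t) * (x - s)⁻¹ := by
    intro t
    rw [← Equiv.sum_comp (Equiv.addRight t)]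
    simp
  rw [Fc, Fc, Fc, h1, h1, ← AddChar.map_neg_eq_conj, ← AddChar.map_add_eq_mul, ← sub_eq_add_neg,
    ← sum_sub_distrib]
  simp only [sub_mul]

/-- size of the support. -/
def supp (c : ZMod P → ZMod P) : ℕ := #(univ.filter fun s => c s ≠ 0)

lemma supp_shift (c : ZMod P → ZMod P) (t t' : ZMod P) :
    supp (fun s => c (s + t) - c (s + t')) ≤ 2 * supp c := by
  have h1 : ∀ t : ZMod P, #(univ.filter fun s => c (s + t) ≠ 0) = supp c := by
    intro t
    refine card_bij (fun s _ => s + t) (by simp) (by simp) fun b hb => ⟨b - t, ?_, by simp⟩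
    simpa using hb
  rw [two_mul]
  nth_rewrite 1 [← h1 t, ← h1 t']
  refine le_trans (card_le_card fun s hs => ?_) (card_union_le _ _)
  simp only [mem_filter, mem_univ, true_and, mem_union] at hs ⊢
  by_contra h
  push Not at h
  exact hs (by rw [h.1, h.2, sub_self])

lemma shift_ne_zero (c : ZMod P → ZMod P) (hc : c ≠ 0) (hs : supp c < P) (t t' : ZMod P)
    (ht : t ≠ t') : (fun s => c (s + t) - c (s + t')) ≠ 0 := by
  intro h
  have h1 : ∀ s, c (s + (t - t')) = c s := fun s => by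
    have := congrFun h (s - t')
    simp only [Pi.zero_apply, sub_eq_zero, sub_add_cancel] at this
    rw [← this]; congr 1; ring
  have h2 : ∀ (n : ℕ) s, c (s + n * (t - t')) = c s := by
    intro n s
    induction n with
    | zero => simp
    | succ n ih => rw [← ih, ← h1 (s + n * (t - t'))]; congr 1; push_cast; ring
  obtain ⟨s0, hs0⟩ := Function.ne_iff.1 hc
  have h3 : ∀ s, c s ≠ 0 := by
    intro s
    have h4 := h2 ((s - s0) / (t - t')).val s0
    rw [ZMod.natCast_zmod_val, div_mul_cancel₀ _ (sub_ne_zero.2 ht), add_sub_cancel] at h4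
    rw [h4]
    exact hs0
  rw [supp, filter_true_of_mem fun s _ => h3 s, card_univ, ZMod.card] at hs
  exact lt_irrefl _ hs

lemma base_bound (c : ZMod P → ZMod P) (hc : c ≠ 0) (ℓ : ℝ) (hℓ : 0 ≤ ℓ) (s e : ℤ)
    (hse : (e : ℝ) - s ≤ ℓ) :
    ‖∑ n ∈ Ico s e, Fc c n‖ ≤ (ℓ / P + 1 + Real.log P) * (3 * supp c * √P) := by
  refine completion P (Fc c) _ ℓ hℓ (fun ξ => ?_) s e hse
  obtain ⟨s0, hs0⟩ := Function.ne_iff.1 hc
  have h1 := aweil P (ZMod.card P) ZMod.stdAddChar (ZMod.isPrimitive_stdAddChar P) ξ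
    (univ.filter fun s => c s ≠ 0) c s0 (by simpa using hs0) hs0
  have h2 : ∀ x : ZMod P, ZMod.stdAddChar (ξ * x) * Fc c x =
      ZMod.stdAddChar (ξ * x + ∑ s ∈ univ.filter fun s => c s ≠ 0, c s * (x - s)⁻¹) := by
    intro x
    rw [Fc, AddChar.map_add_eq_mul, sum_filter_of_ne]
    intro s _ h
    exact left_ne_zero_of_mul h
  simp only [h2]
  refine h1.trans ?_
  have h3 : 1 ≤ √(P : ℝ) := by
    rw [Real.one_le_sqrt]; exact_mod_cast hP.out.pos
  have h4 : (0 : ℝ) ≤ supp c := by positivity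
  change 2 * (supp c : ℝ) * √P + supp c ≤ _
  nlinarith

theorem vdc (L H T : ℕ) (ℓ δ : ℝ) (hT : T < P) (hH : H ≤ P) (hHL : (H : ℝ) * L ≤ ℓ)
    (hδ : 1 ≤ δ * H) (hb : (ℓ / P + 1 + Real.log P) * (3 * T * √P) ≤ δ * ℓ) :
    ∀ (k : ℕ) (w : ℝ), 0 ≤ w → w ≤ 1 → δ ≤ w ^ 2 ^ k → ∀ (c : ZMod P → ZMod P) (G : ℤ → ℂ), c ≠ 0 →
      supp c * 2 ^ k ≤ T → Str L P k G → ∀ s e : ℤ, (e : ℝ) - s ≤ ℓ →
      ‖∑ n ∈ Ico s e, G n * Fc c n‖ ≤ 4 * w * ℓ := by
  have hℓ : 0 ≤ ℓ := le_trans (by positivity) hHL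
  have hP1 : (1 : ℝ) ≤ P := by exact_mod_cast hP.out.pos
  have hH0 : (0 : ℝ) < H := by
    rcases Nat.eq_zero_or_pos H with rfl | h
    · norm_num at hδ
    · exact_mod_cast h
  intro k
  induction k with
  | zero =>
    intro w hw0 _ hw c G hc hs hG s e hse
    simp only [hG _, one_mul]
    refine (base_bound c hc ℓ hℓ s e hse).trans (le_trans ?_ (hb.trans ?_))
    · have := Real.log_nonneg hP1
      gcongr
      simpa using hs
    · simp only [pow_zero, pow_one] at hw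
      nlinarith
  | succ k ih =>
    rintro w hw0 hw1 hw c G hc hs ⟨m, G1, G2, hm, hPm, h0, h1, h2, h3⟩ s e hse
    have hw' : δ ≤ (w ^ 2) ^ 2 ^ k := by rwa [← pow_mul, ← pow_succ']
    have hw2 : δ ≤ w ^ 2 := hw'.trans (pow_le_of_le_one (by positivity) (pow_le_one₀ hw0 hw1)
      (by positivity))
    have hsP : supp c < P := by
      have : 0 < 2 ^ (k + 1) := by positivity
      nlinarith
    have key := vdc_ineq (fun n => G2 n * Fc c n) G1 (fun n => by
      rw [norm_mul, norm_Fc, mul_one]; exact h2.norm_le n) h1 m H h0 ℓ (4 * w ^ 2 * ℓ)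
      (le_trans (by gcongr) hHL) (by positivity) (fun h hh h' hh' hne s' e' hse' => by
        have h4 := ih (w ^ 2) (by positivity) (pow_le_one₀ hw0 hw1) hw'
          (fun s => c (s + (h * m : ℕ)) - c (s + (h' * m : ℕ))) _
          (shift_ne_zero c hc hsP _ _ (by
            intro h5
            push_cast at h5
            rw [mul_left_inj' ((ZMod.natCast_eq_zero_iff _ _).not.2 hPm),
              ZMod.natCast_eq_natCast_iff', Nat.mod_eq_of_lt (by omega),
              Nat.mod_eq_of_lt (by omega)] at h5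
            exact hne h5))
          (by
            have := supp_shift c (h * m : ℕ) (h' * m : ℕ)
            calc _ ≤ 2 * supp c * 2 ^ k := Nat.mul_le_mul_right _ this
              _ = supp c * 2 ^ (k + 1) := by ring
              _ ≤ T := hs) (h2.shift (h * m) (h' * m)) s' e' hse'
        refine le_trans (le_of_eq ?_) h4
        congr 1
        refine sum_congr rfl fun n _ => ?_
        rw [← Fc_shift, map_mul]
        push_cast
        ring) s e hse
    simp only [h3, mul_assoc]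
    refine abs_le_of_sq_le_sq' ?_ (by positivity) |>.2
    refine le_of_mul_le_mul_left (key.trans ?_) (by positivity : (0 : ℝ) < (H : ℝ) ^ 2)
    have h5 : (H : ℝ) ≤ H ^ 2 * w ^ 2 := by nlinarith
    have h6 : 2 * ℓ * (H * ℓ) ≤ 2 * ℓ * (H ^ 2 * w ^ 2 * ℓ) := by gcongr
    have h7 : 0 ≤ (H : ℝ) ^ 2 * w ^ 2 * ℓ ^ 2 := by positivity
    nlinarith

end Pool.Agent.Lib.MP_d315f4_nt
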